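import Pool.Agent.H9.FE.Disc

/-!
# The theorem for all rational functions
-/

set_option autoImplicit false

open Filter Topology Polynomial ComplexConjugate

noncomputable section

namespace Pool.Agent.H9.FE

theorem zero_of_real {G : ℂ → ℂ} {r : ℝ} (hG : AnalyticOnNhd ℂ G (Metric.ball 0 r)) (hr : 0 < r)
    (h : ∀ᶠ x : ℝ in 𝓝[≠] 0, G (x : ℂ) = 0) : ∀ z ∈ Metric.ball (0 : ℂ) r, G z = 0 := by
  have h1 : Tendsto (fun x : ℝ => (x : ℂ)) (𝓝[≠] 0) (𝓝[≠] 0) := by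
    refine tendsto_nhdsWithin_iff.mpr ⟨?_, ?_⟩
    · have h2 := Complex.continuous_ofReal.tendsto 0
      rw [Complex.ofReal_zero] at h2
      exact h2.mono_left nhdsWithin_le_nhds
    · filter_upwards [self_mem_nhdsWithin] with x hx
      simpa using hx
  have h2 : ∃ᶠ z in 𝓝[≠] (0 : ℂ), G z = 0 := h1.frequently h.frequently
  exact hG.eqOn_zero_of_preconnected_of_frequently_eq_zero (convex_ball _ _).isPreconnected
    (Metric.mem_ball_self hr) h2

theorem path_mem {β : ℂ} (hβ : β ≠ 0) {t : ℝ} (h0 : 0 < t) (h1 : t < 1) :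
    β * (1 - (t : ℂ)) ∈ Metric.ball (0 : ℂ) ‖β‖ := by
  have h2 : (1 : ℂ) - (t : ℂ) = ((1 - t : ℝ) : ℂ) := by push_cast; rfl
  rw [mem_ball_zero_iff, norm_mul, h2, Complex.norm_real, Real.norm_eq_abs,
    abs_of_pos (by linarith)]
  have h3 := norm_pos_iff.mpr hβ
  nlinarith

theorem zero_of_path {G : ℂ → ℂ} {β : ℂ} (hβ : β ≠ 0)
    (hG : AnalyticOnNhd ℂ G (Metric.ball 0 ‖β‖))
    (h : ∀ᶠ t : ℝ in 𝓝[>] 0, G (β * (1 - (t : ℂ))) = 0) :
    ∀ z ∈ Metric.ball (0 : ℂ) ‖β‖, G z = 0 := by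
  obtain ⟨ε, h0, hε⟩ := mem_nhdsGT_iff_exists_Ioo_subset.mp h
  have h0' : (0 : ℝ) < ε := h0
  set t₁ : ℝ := min ε 1 / 2 with ht₁
  have hm : 0 < min ε 1 := lt_min h0' one_pos
  have h1 : 0 < t₁ := by positivity
  have h2 : t₁ < ε := by
    have := min_le_left ε 1
    rw [ht₁]
    linarith
  have h3 : t₁ < 1 := by
    have := min_le_right ε 1
    rw [ht₁]
    linarith
  have h4 : Tendsto (fun t : ℝ => β * (1 - (t : ℂ))) (𝓝[≠] t₁) (𝓝[≠] (β * (1 - (t₁ : ℂ)))) := by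
    refine tendsto_nhdsWithin_iff.mpr ⟨?_, ?_⟩
    · have h5 : Continuous fun t : ℝ => β * (1 - (t : ℂ)) :=
        continuous_const.mul (continuous_const.sub Complex.continuous_ofReal)
      exact (h5.tendsto t₁).mono_left nhdsWithin_le_nhds
    · filter_upwards [self_mem_nhdsWithin] with t ht h5
      apply ht
      have h6 : β * (1 - (t : ℂ)) = β * (1 - (t₁ : ℂ)) := h5
      have h7 := mul_left_cancel₀ hβ h6
      have h8 : (t : ℂ) = (t₁ : ℂ) := by linear_combination -h7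
      exact Complex.ofReal_injective h8
  have h5 : ∀ᶠ t : ℝ in 𝓝[≠] t₁, G (β * (1 - (t : ℂ))) = 0 := by
    filter_upwards [mem_nhdsWithin_of_mem_nhds (Ioo_mem_nhds h1 h2)] with t ht
    exact hε ht
  exact hG.eqOn_zero_of_preconnected_of_frequently_eq_zero (convex_ball _ _).isPreconnected
    (path_mem hβ h1 h3) (h4.frequently h5.frequently)

/-- Polynomials with the same complex zeros are proportional. -/
theorem prop_of_mm {P Q : ℝ[X]} (hQ : Q ≠ 0) (h : ∀ α, mm P Q α = 0) :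
    ∃ c : ℝ, P = C c * Q := by
  have hr : (cx P).roots = (cx Q).roots := by
    ext α
    rw [count_roots, count_roots]
    have h1 := h α
    unfold mm at h1
    omega
  have h1 := (IsAlgClosed.splits (cx P)).eq_prod_roots
  have h2 := (IsAlgClosed.splits (cx Q)).eq_prod_roots
  rw [leadingCoeff_map] at h1 h2
  have hl : Q.leadingCoeff ≠ 0 := leadingCoeff_ne_zero.mpr hQ
  refine ⟨P.leadingCoeff / Q.leadingCoeff, ?_⟩
  apply Polynomial.map_injective (algebraMap ℝ ℂ) (RingHom.injective _)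
  change cx P = (C (P.leadingCoeff / Q.leadingCoeff) * Q).map (algebraMap ℝ ℂ)
  rw [Polynomial.map_mul, map_C]
  change cx P = _ * cx Q
  rw [h1, h2, hr, ← mul_assoc, ← C_mul, ← map_mul, div_mul_cancel₀ _ hl]

section main

variable {P Q q : Fin 2 → Fin 2 → ℝ[X]} (hP : ∀ i j, P i j ≠ 0) (hQ : ∀ i j, Q i j ≠ 0)

include hP hQ

/-- **The theorem for real rational functions which are not all constant.** -/
theorem core_all (hne : ∃ i j, ∀ c : ℝ, P i j ≠ C c * Q i j) :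
    {x | ¬ Four (Matrix.of fun i j => fn (P i j) (Q i j) (q i j) x)}.Finite := by
  classical
  by_cases hs : (∃ i j, (P i j).natDegree ≠ (Q i j).natDegree) ∨
      ∃ i j ξ, (P i j).rootMultiplicity ξ ≠ (Q i j).rootMultiplicity ξ
  · exact core hP hQ hs
  rcases (cls_det (q := q) hP hQ).ident with h1 | h1
  · refine h1.subset fun x hx => ?_
    by_contra h2
    exact hx (four_of_det h2)
  have hD : ∀ᶠ x in 𝓝[≠] (0 : ℝ),
      fn (P 0 0) (Q 0 0) (q 0 0) x * fn (P 1 1) (Q 1 1) (q 1 1) x -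
      fn (P 0 1) (Q 0 1) (q 0 1) x * fn (P 1 0) (Q 1 0) (q 1 0) x = 0 :=
    ((cls_det (q := q) hP hQ).dich 0).resolve_right fun h2 =>
      IsPlace.infinite (Or.inl ⟨0, rfl⟩) (p := fun x => _ ≠ 0) (shift_iff.mpr h2) h1
  -- the zeros and poles
  set S : Finset ℂ := Finset.univ.biUnion fun ij : Fin 2 × Fin 2 =>
    (cx (P ij.1 ij.2)).roots.toFinset ∪ (cx (Q ij.1 ij.2)).roots.toFinset with hSdef
  have hmem : ∀ α, α ∈ S ↔ ∃ i j, (cx (P i j)).rootMultiplicity α ≠ 0 ∨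
      (cx (Q i j)).rootMultiplicity α ≠ 0 := by
    intro α
    rw [hSdef]
    simp only [Finset.mem_biUnion, Finset.mem_univ, true_and, Finset.mem_union,
      Multiset.mem_toFinset, Prod.exists, mem_roots_iff_mult]
  have hSP : ∀ i j α, (cx (P i j)).rootMultiplicity α ≠ 0 → α ∈ S :=
    fun i j α h => (hmem α).mpr ⟨i, j, Or.inl h⟩
  have hSQ : ∀ i j α, (cx (Q i j)).rootMultiplicity α ≠ 0 → α ∈ S :=
    fun i j α h => (hmem α).mpr ⟨i, j, Or.inr h⟩
  have hconj : ∀ α ∈ S, conj α ∈ S := by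
    intro α hα
    obtain ⟨i, j, h⟩ := (hmem α).mp hα
    refine (hmem _).mpr ⟨i, j, ?_⟩
    rwa [mult_conj, mult_conj]
  have hT : (S.filter fun α => ∃ i j, mm (P i j) (Q i j) α ≠ 0).Nonempty := by
    by_contra hT
    rw [Finset.not_nonempty_iff_eq_empty] at hT
    obtain ⟨i, j, hij⟩ := hne
    obtain ⟨c, hc⟩ := prop_of_mm (hQ i j) (P := P i j) fun α => by
      by_contra hα
      have h2 : α ∈ S := by
        by_contra h3
        apply hα
        have h4 : (cx (P i j)).rootMultiplicity α = 0 := by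
          by_contra h5
          exact h3 (hSP i j α h5)
        have h5 : (cx (Q i j)).rootMultiplicity α = 0 := by
          by_contra h6
          exact h3 (hSQ i j α h6)
        unfold mm
        rw [h4, h5, sub_self]
      have h3 : α ∈ S.filter fun α => ∃ i j, mm (P i j) (Q i j) α ≠ 0 :=
        Finset.mem_filter.mpr ⟨h2, i, j, hα⟩
      rw [hT] at h3
      exact absurd h3 (Finset.notMem_empty _)
    exact hij c hc
  obtain ⟨β, hβT, hmin⟩ := Finset.exists_min_image _ (fun α : ℂ => ‖α‖) hT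
  obtain ⟨hβS, i₀, j₀, hβ1⟩ := Finset.mem_filter.mp hβT
  have hβ : β ≠ 0 := by
    rintro rfl
    apply hβ1
    have h2 := mult_real (P i₀ j₀) 0
    have h3 := mult_real (Q i₀ j₀) 0
    rw [Complex.ofReal_zero] at h2 h3
    have h4 : (P i₀ j₀).rootMultiplicity 0 = (Q i₀ j₀).rootMultiplicity 0 := by
      by_contra h5
      exact hs (Or.inr ⟨i₀, j₀, 0, h5⟩)
    unfold mm
    rw [h2, h3, h4, sub_self]
  have hβpos := norm_pos_iff.mpr hβ
  have hr : ∀ i j, ∀ α ∈ S, mm (P i j) (Q i j) α ≠ 0 → ‖β‖ ≤ ‖α‖ :=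
    fun i j α hα h => hmin α (Finset.mem_filter.mpr ⟨hα, i, j, h⟩)
  have hF : ∀ i j, AnalyticOnNhd ℂ (Fc (P i j) (Q i j) (q i j) S) (Metric.ball 0 ‖β‖) :=
    fun i j => an_Fc (hr i j)
  have hreal : ∀ i j, ∀ᶠ x : ℝ in 𝓝[≠] 0,
      Fc (P i j) (Q i j) (q i j) S (x : ℂ) = (fn (P i j) (Q i j) (q i j) x : ℂ) := by
    intro i j
    obtain ⟨u, -, h2⟩ := poly_fin (hP i j) 0
    obtain ⟨v, -, h3⟩ := poly_fin (hQ i j) 0
    have h4 : ∀ᶠ x : ℝ in 𝓝[≠] 0, |x| < ‖β‖ := by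
      have h5 : Metric.ball (0 : ℝ) ‖β‖ ∈ 𝓝 0 := Metric.ball_mem_nhds 0 hβpos
      filter_upwards [mem_nhdsWithin_of_mem_nhds h5] with x hx
      simpa using hx
    filter_upwards [h2, h3, h4] with x h5 h6 h7
    refine Fc_real (hr i j) (hP i j) (hQ i j) (hSP i j) (hSQ i j) hconj h7 ?_ ?_
    · simpa using h5.1
    · simpa using h6.1
  have hDc : ∀ z ∈ Metric.ball (0 : ℂ) ‖β‖,
      Fc (P 0 0) (Q 0 0) (q 0 0) S z * Fc (P 1 1) (Q 1 1) (q 1 1) S z -
      Fc (P 0 1) (Q 0 1) (q 0 1) S z * Fc (P 1 0) (Q 1 0) (q 1 0) S z = 0 := by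
    refine zero_of_real (((hF 0 0).mul (hF 1 1)).sub ((hF 0 1).mul (hF 1 0))) hβpos ?_
    filter_upwards [hreal 0 0, hreal 0 1, hreal 1 0, hreal 1 1, hD] with x h2 h3 h4 h5 h6
    rw [h2, h3, h4, h5]
    exact_mod_cast h6
  have hpath : ∀ᶠ t : ℝ in 𝓝[>] 0, β * (1 - (t : ℂ)) ∈ Metric.ball (0 : ℂ) ‖β‖ := by
    filter_upwards [Ioo_mem_nhdsGT one_pos] with t ht
    exact path_mem hβ ht.1 ht.2
  have back : ∀ (i j k l : Fin 2) (r s : ℚ), (∀ᶠ t : ℝ in 𝓝[>] 0,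
      (r : ℂ) * Fc (P i j) (Q i j) (q i j) S (β * (1 - (t : ℂ))) +
        s * Fc (P k l) (Q k l) (q k l) S (β * (1 - (t : ℂ))) = 0) →
      ∀ᶠ x : ℝ in 𝓝[≠] 0, (r : ℝ) * fn (P i j) (Q i j) (q i j) (0 + x) +
        s * fn (P k l) (Q k l) (q k l) (0 + x) = 0 := by
    intro i j k l r s h
    have h2 := zero_of_path hβ ((analyticOnNhd_const.mul (hF i j)).add
      (analyticOnNhd_const.mul (hF k l))) h
    have h3 : ∀ᶠ x : ℝ in 𝓝[≠] 0, (x : ℂ) ∈ Metric.ball (0 : ℂ) ‖β‖ := by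
      have h5 : Metric.ball (0 : ℝ) ‖β‖ ∈ 𝓝 0 := Metric.ball_mem_nhds 0 hβpos
      filter_upwards [mem_nhdsWithin_of_mem_nhds h5] with x hx
      simpa using hx
    filter_upwards [hreal i j, hreal k l, h3] with x h4 h5 h6
    have h7 : (r : ℂ) * Fc (P i j) (Q i j) (q i j) S (x : ℂ) +
        s * Fc (P k l) (Q k l) (q k l) S (x : ℂ) = 0 := h2 _ h6
    rw [h4, h5] at h7
    rw [zero_add]
    exact_mod_cast h7
  obtain ⟨ua, ha⟩ := LFC_path (q := q 0 0) hβ hβS (hr 0 0)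
  obtain ⟨ub, hb⟩ := LFC_path (q := q 0 1) hβ hβS (hr 0 1)
  obtain ⟨uc, hc⟩ := LFC_path (q := q 1 0) hβ hβS (hr 1 0)
  obtain ⟨ue, he⟩ := LFC_path (q := q 1 1) hβ hβS (hr 1 1)
  have hdis : mm (P 0 0) (Q 0 0) β ≠ 0 ∨ mm (P 0 1) (Q 0 1) β ≠ 0 ∨
      mm (P 1 0) (Q 1 0) β ≠ 0 ∨ mm (P 1 1) (Q 1 1) β ≠ 0 := by
    fin_cases i₀ <;> fin_cases j₀
    · exact Or.inl hβ1
    · exact Or.inr (Or.inl hβ1)
    · exact Or.inr (Or.inr (Or.inl hβ1))
    · exact Or.inr (Or.inr (Or.inr hβ1))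
  have hdep := sing4C ha hb hc he hdis (by
    filter_upwards [hpath] with t ht
    exact hDc _ ht)
  refine of_dep (q := q) hP hQ (φ := fun t => 0 + t) (Or.inl ⟨0, rfl⟩) ?_
  rcases hdep with ⟨r, s, h2, h3⟩ | ⟨r, s, h2, h3⟩
  · exact Or.inl ⟨r, s, h2, (back 0 0 0 1 r s (h3.mono fun t h => h.1)).and
      (back 1 0 1 1 r s (h3.mono fun t h => h.2))⟩
  · exact Or.inr ⟨r, s, h2, (back 0 0 1 0 r s (h3.mono fun t h => h.1)).and
      (back 0 1 1 1 r s (h3.mono fun t h => h.2))⟩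

end main

end Pool.Agent.H9.FE
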