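import Pool.Agent.H9.FE.Poly

/-!
# The theorem for real rational functions
-/

set_option autoImplicit false

open Filter Topology Polynomial

namespace Pool.Agent.H9.FE

/-- The vectors `u`, `v` are linearly independent over `ℚ`. -/
def Indep (u v : Fin 2 → ℝ) : Prop :=
  ∀ r s : ℚ, (∀ j, (r : ℝ) * u j + (s : ℝ) * v j = 0) → r = 0 ∧ s = 0

/-- The assertion of the four exponentials conjecture for the matrix `M`: if the rows of `M` are
linearly independent over `ℚ` and the columns of `M` are linearly independent over `ℚ`, then the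
determinant of `M` is not zero. -/
def Four (M : Matrix (Fin 2) (Fin 2) ℝ) : Prop :=
  Indep (fun j => M 0 j) (fun j => M 1 j) → Indep (fun i => M i 0) (fun i => M i 1) → M.det ≠ 0

theorem four_of_det {M : Matrix (Fin 2) (Fin 2) ℝ} (h : M 0 0 * M 1 1 - M 0 1 * M 1 0 ≠ 0) :
    Four M := fun _ _ => by rwa [Matrix.det_fin_two]

theorem four_of_cols {M : Matrix (Fin 2) (Fin 2) ℝ} {r s : ℚ} (hrs : ¬ (r = 0 ∧ s = 0))
    (h0 : (r : ℝ) * M 0 0 + s * M 0 1 = 0) (h1 : (r : ℝ) * M 1 0 + s * M 1 1 = 0) : Four M := by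
  intro _ h
  refine absurd (h r s fun i => ?_) hrs
  fin_cases i
  · exact h0
  · exact h1

theorem four_of_rows {M : Matrix (Fin 2) (Fin 2) ℝ} {r s : ℚ} (hrs : ¬ (r = 0 ∧ s = 0))
    (h0 : (r : ℝ) * M 0 0 + s * M 1 0 = 0) (h1 : (r : ℝ) * M 0 1 + s * M 1 1 = 0) : Four M := by
  intro h _
  refine absurd (h r s fun i => ?_) hrs
  fin_cases i
  · exact h0
  · exact h1

/-- Dependence of the columns or the rows, with coefficients `r`, `s` which do not depend on `t`. -/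
def Dep (l : Filter ℝ) (a b c e : ℝ → ℝ) : Prop :=
  (∃ r s : ℚ, ¬ (r = 0 ∧ s = 0) ∧ ∀ᶠ t in l, r * a t + s * b t = 0 ∧ r * c t + s * e t = 0) ∨
    (∃ r s : ℚ, ¬ (r = 0 ∧ s = 0) ∧ ∀ᶠ t in l, r * a t + s * c t = 0 ∧ r * b t + s * e t = 0)

section four

variable {φ : ℝ → ℝ} {K : ℕ} {a b c e ua ub uc ue : ℝ → ℝ} {da db dc de : ℤ}
  (ha : LF φ K a ua da) (hb : LF φ K b ub db) (hc : LF φ K c uc dc) (he : LF φ K e ue de)

include ha hb hc he

theorem sing4 (hd : da ≠ 0 ∨ db ≠ 0 ∨ dc ≠ 0 ∨ de ≠ 0)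
    (h0 : ∀ᶠ t in 𝓝[≠] 0, a (φ t) * e (φ t) - b (φ t) * c (φ t) = 0) :
    Dep (𝓝[≠] 0) (fun t => a (φ t)) (fun t => b (φ t)) (fun t => c (φ t)) fun t => e (φ t) := by
  rcases hd with hd | hd | hd | hd
  · exact sing ha hb hc he hd h0
  · rcases sing hb ha he hc hd (h0.mono fun t h => by linear_combination -h) with
      ⟨r, s, h1, h2⟩ | ⟨r, s, h1, h2⟩
    · exact Or.inl ⟨s, r, fun h => h1 ⟨h.2, h.1⟩, h2.mono fun t h =>
        ⟨by linear_combination h.1, by linear_combination h.2⟩⟩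
    · exact Or.inr ⟨r, s, h1, h2.mono fun t h => ⟨h.2, h.1⟩⟩
  · rcases sing hc he ha hb hd (h0.mono fun t h => by linear_combination -h) with
      ⟨r, s, h1, h2⟩ | ⟨r, s, h1, h2⟩
    · exact Or.inl ⟨r, s, h1, h2.mono fun t h => ⟨h.2, h.1⟩⟩
    · exact Or.inr ⟨s, r, fun h => h1 ⟨h.2, h.1⟩, h2.mono fun t h =>
        ⟨by linear_combination h.1, by linear_combination h.2⟩⟩
  · rcases sing he hc hb ha hd (h0.mono fun t h => by linear_combination h) with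
      ⟨r, s, h1, h2⟩ | ⟨r, s, h1, h2⟩
    · exact Or.inl ⟨s, r, fun h => h1 ⟨h.2, h.1⟩, h2.mono fun t h =>
        ⟨by linear_combination h.2, by linear_combination h.1⟩⟩
    · exact Or.inr ⟨s, r, fun h => h1 ⟨h.2, h.1⟩, h2.mono fun t h =>
        ⟨by linear_combination h.2, by linear_combination h.1⟩⟩

end four

/-- Values near a place. -/
def IsPlace (φ : ℝ → ℝ) : Prop := (∃ ξ, φ = fun t => ξ + t) ∨ φ = fun t => t⁻¹

theorem IsPlace.infinite {φ : ℝ → ℝ} (hφ : IsPlace φ) {p : ℝ → Prop}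
    (h : ∀ᶠ t in 𝓝[≠] 0, p (φ t)) : {x | p x}.Infinite := by
  rcases hφ with ⟨ξ, rfl⟩ | rfl
  · have h1 : ∀ᶠ x in 𝓝[≠] ξ, p x := shift_iff.mp h
    intro hfin
    have h2 : ({x | p x} ∪ {ξ} : Set ℝ) ∈ 𝓝 ξ := by
      filter_upwards [eventually_nhdsWithin_iff.mp h1] with x hx
      rcases eq_or_ne x ξ with h3 | h3
      · exact Or.inr h3
      · exact Or.inl (hx h3)
    exact infinite_of_mem_nhds ξ h2 (hfin.union (Set.finite_singleton ξ))
  · obtain ⟨R, h0, hR⟩ := large_of h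
    refine (Set.Ioi_infinite R).mono fun x hx => hR x ?_
    exact (Set.mem_Ioi.mp hx).trans_le (le_abs_self x)

section main

variable {P Q q : Fin 2 → Fin 2 → ℝ[X]} (hP : ∀ i j, P i j ≠ 0) (hQ : ∀ i j, Q i j ≠ 0)

include hP hQ

theorem cls_lin (i j k l : Fin 2) (r s : ℝ) :
    Cls fun x => r * fn (P i j) (Q i j) (q i j) x + s * fn (P k l) (Q k l) (q k l) x := by
  constructor
  · intro ξ
    obtain ⟨u, hu⟩ := LF_fin (hP i j) (hQ i j) (q i j) ξ
    obtain ⟨v, hv⟩ := LF_fin (hP k l) (hQ k l) (q k l) ξ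
    obtain ⟨A, B, C, hA, hB, hC, h⟩ := hu.lin hv r s
    exact ⟨A, B, C, hA, hB, hC, h.mono fun t ht => by rw [← ht, pow_zero, one_mul]⟩
  · obtain ⟨u, hu⟩ := LF_inf (hP i j) (hQ i j) (q i j) (le_max_left _ (q k l).natDegree)
    obtain ⟨v, hv⟩ := LF_inf (hP k l) (hQ k l) (q k l) (le_max_right (q i j).natDegree _)
    obtain ⟨A, B, C, hA, hB, hC, h⟩ := hu.lin hv r s
    exact ⟨_, A, B, C, hA, hB, hC, h⟩

/-- The determinant as a function. -/
theorem cls_det : Cls fun x => fn (P 0 0) (Q 0 0) (q 0 0) x * fn (P 1 1) (Q 1 1) (q 1 1) x -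
    fn (P 0 1) (Q 0 1) (q 0 1) x * fn (P 1 0) (Q 1 0) (q 1 0) x := by
  constructor
  · intro ξ
    obtain ⟨ua, ha⟩ := LF_fin (hP 0 0) (hQ 0 0) (q 0 0) ξ
    obtain ⟨ub, hb⟩ := LF_fin (hP 0 1) (hQ 0 1) (q 0 1) ξ
    obtain ⟨uc, hc⟩ := LF_fin (hP 1 0) (hQ 1 0) (q 1 0) ξ
    obtain ⟨ue, he⟩ := LF_fin (hP 1 1) (hQ 1 1) (q 1 1) ξ
    obtain ⟨h1, h2, h3⟩ := det_an ha hb hc he
    exact ⟨_, _, _, h1, h2, h3, (det_form ha hb hc he).mono fun t ht => by
      rw [← ht, Nat.mul_zero, pow_zero, one_mul]⟩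
  · obtain ⟨K, hK⟩ : ∃ K, ∀ i j, (q i j).natDegree ≤ K :=
      ⟨∑ i, ∑ j, (q i j).natDegree, fun i j =>
        (Finset.single_le_sum (f := fun j => (q i j).natDegree) (fun _ _ => Nat.zero_le _)
          (Finset.mem_univ j)).trans (Finset.single_le_sum
          (f := fun i => ∑ j, (q i j).natDegree) (fun _ _ => Nat.zero_le _) (Finset.mem_univ i))⟩
    obtain ⟨ua, ha⟩ := LF_inf (hP 0 0) (hQ 0 0) (q 0 0) (hK 0 0)
    obtain ⟨ub, hb⟩ := LF_inf (hP 0 1) (hQ 0 1) (q 0 1) (hK 0 1)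
    obtain ⟨uc, hc⟩ := LF_inf (hP 1 0) (hQ 1 0) (q 1 0) (hK 1 0)
    obtain ⟨ue, he⟩ := LF_inf (hP 1 1) (hQ 1 1) (q 1 1) (hK 1 1)
    obtain ⟨h1, h2, h3⟩ := det_an ha hb hc he
    exact ⟨_, _, _, _, h1, h2, h3, det_form ha hb hc he⟩

/-- If the determinant vanishes near a place where the columns or rows are dependent with constant
coefficients, the assertion holds for all but finitely many `x`. -/
theorem of_dep {φ : ℝ → ℝ} (hφ : IsPlace φ)
    (h : Dep (𝓝[≠] 0) (fun t => fn (P 0 0) (Q 0 0) (q 0 0) (φ t))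
      (fun t => fn (P 0 1) (Q 0 1) (q 0 1) (φ t)) (fun t => fn (P 1 0) (Q 1 0) (q 1 0) (φ t))
      fun t => fn (P 1 1) (Q 1 1) (q 1 1) (φ t)) :
    {x | ¬ Four (Matrix.of fun i j => fn (P i j) (Q i j) (q i j) x)}.Finite := by
  rcases h with ⟨r, s, h1, h2⟩ | ⟨r, s, h1, h2⟩
  · have h3 := (cls_lin (q := q) hP hQ 0 0 0 1 r s).ident.resolve_left
      (hφ.infinite (p := fun x => (r : ℝ) * fn (P 0 0) (Q 0 0) (q 0 0) x +
        s * fn (P 0 1) (Q 0 1) (q 0 1) x = 0) (h2.mono fun t h => h.1))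
    have h4 := (cls_lin (q := q) hP hQ 1 0 1 1 r s).ident.resolve_left
      (hφ.infinite (p := fun x => (r : ℝ) * fn (P 1 0) (Q 1 0) (q 1 0) x +
        s * fn (P 1 1) (Q 1 1) (q 1 1) x = 0) (h2.mono fun t h => h.2))
    refine (h3.union h4).subset fun x hx => ?_
    by_contra h5
    simp only [Set.mem_union, Set.mem_ofPred_eq, not_or, not_not] at h5
    exact hx (four_of_cols h1 h5.1 h5.2)
  · have h3 := (cls_lin (q := q) hP hQ 0 0 1 0 r s).ident.resolve_left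
      (hφ.infinite (p := fun x => (r : ℝ) * fn (P 0 0) (Q 0 0) (q 0 0) x +
        s * fn (P 1 0) (Q 1 0) (q 1 0) x = 0) (h2.mono fun t h => h.1))
    have h4 := (cls_lin (q := q) hP hQ 0 1 1 1 r s).ident.resolve_left
      (hφ.infinite (p := fun x => (r : ℝ) * fn (P 0 1) (Q 0 1) (q 0 1) x +
        s * fn (P 1 1) (Q 1 1) (q 1 1) x = 0) (h2.mono fun t h => h.2))
    refine (h3.union h4).subset fun x hx => ?_
    by_contra h5
    simp only [Set.mem_union, Set.mem_ofPred_eq, not_or, not_not] at h5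
    exact hx (four_of_rows h1 h5.1 h5.2)

/-- **Real rational functions, a singularity on the projective line.** -/
theorem core (hs : (∃ i j, (P i j).natDegree ≠ (Q i j).natDegree) ∨
      ∃ i j ξ, (P i j).rootMultiplicity ξ ≠ (Q i j).rootMultiplicity ξ) :
    {x | ¬ Four (Matrix.of fun i j => fn (P i j) (Q i j) (q i j) x)}.Finite := by
  rcases (cls_det (q := q) hP hQ).ident with h1 | h1
  · refine h1.subset fun x hx => ?_
    by_contra h2
    exact hx (four_of_det h2)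
  have hz : ∀ φ : ℝ → ℝ, IsPlace φ → ∀ᶠ t in 𝓝[≠] 0,
      fn (P 0 0) (Q 0 0) (q 0 0) (φ t) * fn (P 1 1) (Q 1 1) (q 1 1) (φ t) -
      fn (P 0 1) (Q 0 1) (q 0 1) (φ t) * fn (P 1 0) (Q 1 0) (q 1 0) (φ t) = 0 := by
    rintro φ (⟨ξ, rfl⟩ | rfl)
    · have h3 := ((cls_det (q := q) hP hQ).dich ξ).resolve_right fun h2 =>
        IsPlace.infinite (Or.inl ⟨ξ, rfl⟩) (p := fun x => _ ≠ 0) (shift_iff.mpr h2) h1
      exact (tendsto_add ξ).eventually h3
    · refine (cls_det (q := q) hP hQ).dich_inf.resolve_right fun h2 => ?_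
      exact IsPlace.infinite (Or.inr rfl) (p := fun x => _ ≠ 0) h2 h1
  rcases hs with ⟨i, j, hij⟩ | ⟨i, j, ξ, hij⟩
  · obtain ⟨K, hK⟩ : ∃ K, ∀ i j, (q i j).natDegree ≤ K :=
      ⟨∑ i, ∑ j, (q i j).natDegree, fun i j =>
        (Finset.single_le_sum (f := fun j => (q i j).natDegree) (fun _ _ => Nat.zero_le _)
          (Finset.mem_univ j)).trans (Finset.single_le_sum
          (f := fun i => ∑ j, (q i j).natDegree) (fun _ _ => Nat.zero_le _) (Finset.mem_univ i))⟩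
    obtain ⟨ua, ha⟩ := LF_inf (hP 0 0) (hQ 0 0) (q 0 0) (hK 0 0)
    obtain ⟨ub, hb⟩ := LF_inf (hP 0 1) (hQ 0 1) (q 0 1) (hK 0 1)
    obtain ⟨uc, hc⟩ := LF_inf (hP 1 0) (hQ 1 0) (q 1 0) (hK 1 0)
    obtain ⟨ue, he⟩ := LF_inf (hP 1 1) (hQ 1 1) (q 1 1) (hK 1 1)
    refine of_dep hP hQ (Or.inr rfl) (sing4 ha hb hc he ?_ (hz _ (Or.inr rfl)))
    have h3 : ((Q i j).natDegree : ℤ) - (P i j).natDegree ≠ 0 := by
      intro h
      apply hij
      omega
    fin_cases i <;> fin_cases j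
    · exact Or.inl h3
    · exact Or.inr (Or.inl h3)
    · exact Or.inr (Or.inr (Or.inl h3))
    · exact Or.inr (Or.inr (Or.inr h3))
  · obtain ⟨ua, ha⟩ := LF_fin (hP 0 0) (hQ 0 0) (q 0 0) ξ
    obtain ⟨ub, hb⟩ := LF_fin (hP 0 1) (hQ 0 1) (q 0 1) ξ
    obtain ⟨uc, hc⟩ := LF_fin (hP 1 0) (hQ 1 0) (q 1 0) ξ
    obtain ⟨ue, he⟩ := LF_fin (hP 1 1) (hQ 1 1) (q 1 1) ξ
    refine of_dep hP hQ (Or.inl ⟨ξ, rfl⟩) (sing4 ha hb hc he ?_ (hz _ (Or.inl ⟨ξ, rfl⟩)))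
    have h3 : ((P i j).rootMultiplicity ξ : ℤ) - (Q i j).rootMultiplicity ξ ≠ 0 := by
      intro h
      apply hij
      omega
    fin_cases i <;> fin_cases j
    · exact Or.inl h3
    · exact Or.inr (Or.inl h3)
    · exact Or.inr (Or.inr (Or.inl h3))
    · exact Or.inr (Or.inr (Or.inr h3))

end main

end Pool.Agent.H9.FE
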