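import Mathlib

/-!
# Counting zeros of linear forms in functions with rational derivatives
-/

set_option autoImplicit false
set_option linter.unusedSectionVars false

open Filter Topology Polynomial

noncomputable section

namespace Pool.Agent.H9.FE

/-- Points in the gaps of a finite set. -/
theorem gap {p : ℝ → Prop} (T : Finset ℝ)
    (h : ∀ x ∈ T, ∀ y ∈ T, x < y → ∃ z, x < z ∧ z < y ∧ p z) :
    ∃ W : Finset ℝ, (∀ w ∈ W, p w ∧ ∃ t ∈ T, w < t) ∧ T.card ≤ W.card + 1 := by
  classical
  induction T using Finset.induction_on_max with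
  | empty => exact ⟨∅, by simp, by simp⟩
  | insert b T hb ih =>
    obtain ⟨W, h1, h2⟩ := ih fun x hx y hy => h x (Finset.mem_insert_of_mem hx) y
      (Finset.mem_insert_of_mem hy)
    have hbT : b ∉ T := fun h' => lt_irrefl b (hb b h')
    rcases T.eq_empty_or_nonempty with rfl | hne
    · exact ⟨∅, by simp, by simp⟩
    · obtain ⟨z, h3, h4, h5⟩ := h _ (Finset.mem_insert_of_mem (T.max'_mem hne)) b
        (Finset.mem_insert_self _ _) (hb _ (T.max'_mem hne))
      have hz : z ∉ W := by
        intro hz
        obtain ⟨-, t, h6, h7⟩ := h1 z hz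
        exact absurd (T.le_max' t h6) (not_le.mpr (h3.trans h7))
      refine ⟨insert z W, ?_, ?_⟩
      · intro w hw
        rcases Finset.mem_insert.mp hw with rfl | hw
        · exact ⟨h5, b, Finset.mem_insert_self _ _, h4⟩
        · obtain ⟨h6, t, h7, h8⟩ := h1 w hw
          exact ⟨h6, t, Finset.mem_insert_of_mem h7, h8⟩
      · rw [Finset.card_insert_of_notMem hz, Finset.card_insert_of_notMem hbT]
        omega

theorem card_le_degree {P : ℝ[X]} (hP : P ≠ 0) {W : Finset ℝ} (h : ∀ w ∈ W, P.eval w = 0) :
    W.card ≤ P.natDegree := by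
  classical
  have h1 : W ⊆ P.roots.toFinset := by
    intro w hw
    rw [Multiset.mem_toFinset, mem_roots hP]
    exact h w hw
  exact (Finset.card_le_card h1).trans (P.roots.toFinset_card_le.trans (card_roots' P))

/-- The bound. -/
def N (e : ℕ) : ℕ → ℕ → ℕ
  | 0, D => D
  | n + 1, D => N e n (2 * D + e) + 2 * D + e + 1

theorem N_mono (e : ℕ) : ∀ (n : ℕ) {D D' : ℕ}, D ≤ D' → N e n D ≤ N e n D'
  | 0, _, _, h => h
  | n + 1, D, D', h => by
    have h1 := N_mono e n (D := 2 * D + e) (D' := 2 * D' + e) (by omega)
    simp only [N]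
    omega

theorem le_N (e : ℕ) : ∀ (n D : ℕ), D ≤ N e n D
  | 0, D => le_rfl
  | n + 1, D => by
    simp only [N]
    omega

/-- A linear form in the functions `f k`. -/
def G {ι : Type} [Fintype ι] (f : ι → ℝ → ℝ) (c₀ : ℝ[X]) (c : ι → ℝ[X]) (x : ℝ) : ℝ :=
  c₀.eval x + ∑ k, (c k).eval x * f k x

/-- Two functions on an open set: zero derivative near a zero. -/
theorem zero_near {h : ℝ → ℝ} {V : Set ℝ} (hV : IsOpen V) {x₀ : ℝ} (hx₀ : x₀ ∈ V)
    (hd : ∀ x ∈ V, HasDerivAt h 0 x) (h0 : h x₀ = 0) : ∀ᶠ x in 𝓝 x₀, h x = 0 := by
  obtain ⟨ε, hε, hsub⟩ := Metric.isOpen_iff.mp hV x₀ hx₀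
  obtain ⟨a, ha⟩ := Metric.isOpen_ball.exists_is_const_of_deriv_eq_zero
    (convex_ball x₀ ε).isPreconnected (f := h)
    (fun x hx => (hd x (hsub hx)).differentiableAt.differentiableWithinAt)
    (fun x hx => (hd x (hsub hx)).deriv)
  have h1 : a = 0 := by rw [← ha x₀ (Metric.mem_ball_self hε), h0]
  filter_upwards [Metric.ball_mem_nhds x₀ hε] with x hx
  rw [ha x hx, h1]

section count

variable {ι : Type} [Fintype ι] [DecidableEq ι] {f : ι → ℝ → ℝ} {A : ι → ℝ[X]} {E : ℝ[X]}
  (hf : ∀ k x, E.eval x ≠ 0 → HasDerivAt (f k) ((A k).eval x / E.eval x) x)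

include hf

theorem deriv_G (c₀ : ℝ[X]) (c : ι → ℝ[X]) {x : ℝ} (hx : E.eval x ≠ 0) :
    HasDerivAt (G f c₀ c) (c₀.derivative.eval x +
      ∑ k, ((c k).derivative.eval x * f k x + (c k).eval x * ((A k).eval x / E.eval x))) x := by
  have h1 : HasDerivAt (fun x => ∑ k, (c k).eval x * f k x)
      (∑ k, ((c k).derivative.eval x * f k x + (c k).eval x * ((A k).eval x / E.eval x))) x :=
    HasDerivAt.fun_sum fun k _ => ((c k).hasDerivAt x).mul (hf k x hx)
  exact (c₀.hasDerivAt x).add h1

/-- The next linear form. -/
theorem next_eq (c₀ : ℝ[X]) (c : ι → ℝ[X]) (a : ι) {x : ℝ} (hx : E.eval x ≠ 0) :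
    G f (c a * (E * c₀.derivative + ∑ k, c k * A k) - E * (c a).derivative * c₀)
      (fun k => E * (c a * (c k).derivative - (c a).derivative * c k)) x =
    E.eval x * ((c₀.derivative.eval x + ∑ k, ((c k).derivative.eval x * f k x +
      (c k).eval x * ((A k).eval x / E.eval x))) * (c a).eval x -
      G f c₀ c x * (c a).derivative.eval x) := by
  have h1 : ∀ k, (c k).eval x * ((A k).eval x / E.eval x) * E.eval x =
      (c k).eval x * (A k).eval x := by
    intro k
    field_simp
  have h2 : E.eval x * ∑ k, (c k).eval x * ((A k).eval x / E.eval x) =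
      ∑ k, (c k).eval x * (A k).eval x := by
    rw [Finset.mul_sum]
    exact Finset.sum_congr rfl fun k _ => by rw [← h1 k]; ring
  have h3 : ∑ k, (E * (c a * (c k).derivative - (c a).derivative * c k)).eval x * f k x =
      E.eval x * ((c a).eval x * ∑ k, (c k).derivative.eval x * f k x -
        (c a).derivative.eval x * ∑ k, (c k).eval x * f k x) := by
    rw [Finset.mul_sum, Finset.mul_sum, ← Finset.sum_sub_distrib, Finset.mul_sum]
    refine Finset.sum_congr rfl fun k _ => ?_
    simp only [eval_mul, eval_sub]
    ring
  unfold G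
  rw [h3]
  simp only [eval_mul, eval_sub, eval_add, eval_finsetSum, Finset.sum_add_distrib]
  linear_combination (-(c a).eval x) * h2

/-- The quotient of the form by one of its coefficients. -/
theorem deriv_quot (c₀ : ℝ[X]) (c : ι → ℝ[X]) (a : ι) {x : ℝ} (hx : E.eval x ≠ 0)
    (hx' : (c a).eval x ≠ 0) :
    HasDerivAt (fun x => G f c₀ c x / (c a).eval x)
      (G f (c a * (E * c₀.derivative + ∑ k, c k * A k) - E * (c a).derivative * c₀)
      (fun k => E * (c a * (c k).derivative - (c a).derivative * c k)) x /
      (E.eval x * (c a).eval x ^ 2)) x := by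
  have h1 := (deriv_G hf c₀ c hx).div ((c a).hasDerivAt x) hx'
  have h2 := next_eq hf c₀ c a hx
  refine h1.congr_deriv ?_
  rw [h2, mul_div_mul_left _ _ hx]

theorem count (hE : E ≠ 0) {e : ℕ} (he : E.natDegree ≤ e) (hA : ∀ k, (A k).natDegree ≤ e)
    (hid : ∀ c₀ c, {x | E.eval x ≠ 0 ∧ G f c₀ c x = 0}.Infinite →
      ∀ x, E.eval x ≠ 0 → G f c₀ c x = 0) (s : Finset ι) :
    ∀ (c₀ : ℝ[X]) (c : ι → ℝ[X]) (D : ℕ), c₀.natDegree ≤ D → (∀ k, (c k).natDegree ≤ D) →
      (∀ k, k ∉ s → c k = 0) →
      (∀ x, E.eval x ≠ 0 → G f c₀ c x = 0) ∨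
        ∀ T : Finset ℝ, (∀ x ∈ T, E.eval x ≠ 0 ∧ G f c₀ c x = 0) → T.card ≤ N e s.card D := by
  induction s using Finset.induction_on with
  | empty =>
    intro c₀ c D h0 _ hc
    have hG : ∀ x, G f c₀ c x = c₀.eval x := by
      intro x
      unfold G
      simp [hc]
    by_cases h : c₀ = 0
    · left
      intro x _
      rw [hG, h, eval_zero]
    · right
      intro T hT
      rw [Finset.card_empty]
      exact (card_le_degree h fun w hw => by rw [← hG]; exact (hT w hw).2).trans h0
  | insert a s ha ih =>
    intro c₀ c D h0 hD hc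
    rw [Finset.card_insert_of_notMem ha]
    by_cases hca : c a = 0
    · rcases ih c₀ c D h0 hD (fun k hk => by
        rcases eq_or_ne k a with rfl | hne
        · exact hca
        · exact hc k fun h => (Finset.mem_insert.mp h).elim hne hk) with h | h
      · exact Or.inl h
      · refine Or.inr fun T hT => (h T hT).trans ?_
        have h1 := N_mono e s.card (D := D) (D' := 2 * D + e) (by omega)
        simp only [N]
        omega
    · have hder : (c a).derivative.natDegree ≤ D := (natDegree_derivative_le _).trans
        ((Nat.sub_le _ _).trans (hD a))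
      have hd0 : (c a * (E * c₀.derivative + ∑ k, c k * A k) -
          E * (c a).derivative * c₀).natDegree ≤ 2 * D + e := by
        refine (natDegree_sub_le _ _).trans (max_le ?_ ?_)
        · refine natDegree_mul_le.trans ?_
          have h1 : (E * c₀.derivative + ∑ k, c k * A k).natDegree ≤ D + e := by
            refine (natDegree_add_le _ _).trans (max_le ?_ ?_)
            · refine natDegree_mul_le.trans ?_
              have := natDegree_derivative_le c₀
              omega
            · refine natDegree_sum_le_of_forall_le _ _ fun k _ => ?_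
              refine natDegree_mul_le.trans ?_
              have := hD k
              have := hA k
              omega
          have := hD a
          omega
        · refine natDegree_mul_le.trans ?_
          have h1 : (E * (c a).derivative).natDegree ≤ e + D := natDegree_mul_le.trans (by omega)
          omega
      have hdk : ∀ k, (E * (c a * (c k).derivative - (c a).derivative * c k)).natDegree ≤
          2 * D + e := by
        intro k
        refine natDegree_mul_le.trans ?_
        have h1 : (c a * (c k).derivative - (c a).derivative * c k).natDegree ≤ 2 * D := by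
          refine (natDegree_sub_le _ _).trans (max_le ?_ ?_)
          · refine natDegree_mul_le.trans ?_
            have := hD a
            have := hD k
            have := natDegree_derivative_le (c k)
            omega
          · refine natDegree_mul_le.trans ?_
            have := hD k
            omega
        omega
      have hsup : ∀ k, k ∉ s → E * (c a * (c k).derivative - (c a).derivative * c k) = 0 := by
        intro k hk
        rcases eq_or_ne k a with rfl | hne
        · ring
        · have h1 : c k = 0 := hc k fun h => (Finset.mem_insert.mp h).elim hne hk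
          rw [h1, derivative_zero, mul_zero, mul_zero, sub_zero, mul_zero]
      rcases ih _ (fun k => E * (c a * (c k).derivative - (c a).derivative * c k)) (2 * D + e)
        hd0 hdk hsup with h | h
      · by_cases hz : ∃ x, E.eval x ≠ 0 ∧ (c a).eval x ≠ 0 ∧ G f c₀ c x = 0
        · left
          obtain ⟨x₀, h1, h2, h3⟩ := hz
          apply hid
          have hV : IsOpen {x : ℝ | E.eval x ≠ 0 ∧ (c a).eval x ≠ 0} :=
            (isOpen_ne_fun E.continuous continuous_const).inter
              (isOpen_ne_fun (c a).continuous continuous_const)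
          have h4 : ∀ᶠ x in 𝓝 x₀, G f c₀ c x / (c a).eval x = 0 := by
            refine zero_near hV (show x₀ ∈ {x : ℝ | E.eval x ≠ 0 ∧ (c a).eval x ≠ 0} from ⟨h1, h2⟩)
              (fun x hx => ?_) (by rw [h3, zero_div])
            have h5 := deriv_quot hf c₀ c a hx.1 hx.2
            rwa [h x hx.1, zero_div] at h5
          have h5 : ∀ᶠ x in 𝓝 x₀, E.eval x ≠ 0 ∧ (c a).eval x ≠ 0 := hV.mem_nhds ⟨h1, h2⟩
          refine infinite_of_mem_nhds x₀ ?_
          filter_upwards [h4, h5] with x h6 h7
          exact ⟨h7.1, (div_eq_zero_iff.mp h6).resolve_right h7.2⟩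
        · right
          intro T hT
          have h1 : T.card ≤ (c a).natDegree := card_le_degree hca fun w hw => by
            by_contra h2
            exact hz ⟨w, (hT w hw).1, h2, (hT w hw).2⟩
          have h2 := hD a
          simp only [N]
          omega
      · right
        intro T hT
        have h1 : (T.filter fun x => (c a).eval x = 0).card ≤ D :=
          (card_le_degree hca fun w hw => (Finset.mem_filter.mp hw).2).trans (hD a)
        obtain ⟨W, h2, h3⟩ := gap (p := fun z => (E.eval z ≠ 0 ∧
            G f (c a * (E * c₀.derivative + ∑ k, c k * A k) - E * (c a).derivative * c₀)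
              (fun k => E * (c a * (c k).derivative - (c a).derivative * c k)) z = 0) ∨
            (c a).eval z = 0 ∨ E.eval z = 0) (T.filter fun x => ¬ (c a).eval x = 0) (by
          intro x hx y hy hxy
          by_cases hgap : ∃ z, x < z ∧ z < y ∧ ((c a).eval z = 0 ∨ E.eval z = 0)
          · obtain ⟨z, h4, h5, h6⟩ := hgap
            exact ⟨z, h4, h5, Or.inr h6⟩
          obtain ⟨hx1, hx2⟩ := Finset.mem_filter.mp hx
          obtain ⟨hy1, hy2⟩ := Finset.mem_filter.mp hy
          have hall : ∀ z ∈ Set.Icc x y, (c a).eval z ≠ 0 ∧ E.eval z ≠ 0 := by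
            intro z hz
            rcases eq_or_lt_of_le hz.1 with rfl | h4
            · exact ⟨hx2, (hT _ hx1).1⟩
            rcases eq_or_lt_of_le hz.2 with rfl | h5
            · exact ⟨hy2, (hT _ hy1).1⟩
            constructor
            · exact fun h6 => hgap ⟨z, h4, h5, Or.inl h6⟩
            · exact fun h6 => hgap ⟨z, h4, h5, Or.inr h6⟩
          obtain ⟨z, hz, h4⟩ := exists_deriv_eq_zero (f := fun x => G f c₀ c x / (c a).eval x) hxy
            (fun z hz => (deriv_quot hf c₀ c a (hall z hz).2
              (hall z hz).1).continuousAt.continuousWithinAt)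
            (by rw [(hT x hx1).2, (hT y hy1).2, zero_div, zero_div])
          have h5 := hall z ⟨hz.1.le, hz.2.le⟩
          rw [(deriv_quot hf c₀ c a h5.2 h5.1).deriv] at h4
          refine ⟨z, hz.1, hz.2, Or.inl ⟨h5.2, ?_⟩⟩
          exact (div_eq_zero_iff.mp h4).resolve_right (mul_ne_zero h5.2 (pow_ne_zero _ h5.1)))
        have h4 : W.card ≤ N e s.card (2 * D + e) + D + e := by
          have hW : W ⊆ (W.filter fun z => E.eval z ≠ 0 ∧
            G f (c a * (E * c₀.derivative + ∑ k, c k * A k) - E * (c a).derivative * c₀)
              (fun k => E * (c a * (c k).derivative - (c a).derivative * c k)) z = 0) ∪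
              (W.filter fun z => (c a).eval z = 0) ∪ (W.filter fun z => E.eval z = 0) := by
            intro w hw
            rcases (h2 w hw).1 with h5 | h5 | h5
            · exact Finset.mem_union_left _ (Finset.mem_union_left _ (Finset.mem_filter.mpr ⟨hw, h5⟩))
            · exact Finset.mem_union_left _ (Finset.mem_union_right _ (Finset.mem_filter.mpr ⟨hw, h5⟩))
            · exact Finset.mem_union_right _ (Finset.mem_filter.mpr ⟨hw, h5⟩)
          have h5 := (Finset.card_le_card hW).trans ((Finset.card_union_le _ _).trans
            (Nat.add_le_add_right (Finset.card_union_le _ _) _))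
          have h6 := h (W.filter fun z => E.eval z ≠ 0 ∧
            G f (c a * (E * c₀.derivative + ∑ k, c k * A k) - E * (c a).derivative * c₀)
              (fun k => E * (c a * (c k).derivative - (c a).derivative * c k)) z = 0)
            fun x hx => (Finset.mem_filter.mp hx).2
          have h7 : (W.filter fun z => (c a).eval z = 0).card ≤ D :=
            (card_le_degree hca fun w hw => (Finset.mem_filter.mp hw).2).trans (hD a)
          have h8 : (W.filter fun z => E.eval z = 0).card ≤ e :=
            (card_le_degree hE fun w hw => (Finset.mem_filter.mp hw).2).trans he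
          omega
        have h5 := Finset.card_filter_add_card_filter_not (s := T) fun x => (c a).eval x = 0
        simp only [N]
        omega

end count

end Pool.Agent.H9.FE
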