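import Mathlib

/-!
# The four exponentials conjecture for the values of rational functions: definitions
-/

set_option autoImplicit false

open Polynomial

namespace Pool.Agent.H9.FE.St

/-- The vectors `u`, `v` are linearly independent over `ℚ`. -/
def Indep (u v : Fin 2 → ℝ) : Prop :=
  ∀ r s : ℚ, (∀ j, (r : ℝ) * u j + (s : ℝ) * v j = 0) → r = 0 ∧ s = 0

/-- The assertion of the four exponentials conjecture for a real matrix `M`: if the rows of `M` are
linearly independent over `ℚ` and the columns of `M` are linearly independent over `ℚ`, then the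
determinant of `M` is not zero. -/
def Four (M : Matrix (Fin 2) (Fin 2) ℝ) : Prop :=
  Indep (fun j => M 0 j) (fun j => M 1 j) → Indep (fun i => M i 0) (fun i => M i 1) →
    M 0 0 * M 1 1 - M 0 1 * M 1 0 ≠ 0

/-- The assertion of the four exponentials conjecture for the matrix of the logarithms of the rational
numbers `a i j`. -/
def FourExp (a : Fin 2 → Fin 2 → ℚ) : Prop := Four (Matrix.of fun i j => Real.log (a i j))

/-- The rational functions `P i j / Q i j` are nonzero and not all constant, and the degrees of the
numerators and of the denominators are at most `d`. -/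
structure Admissible {F : Type} [Field F] (P Q : Fin 2 → Fin 2 → F[X]) (d : ℕ) : Prop where
  num : ∀ i j, P i j ≠ 0
  den : ∀ i j, Q i j ≠ 0
  deg_num : ∀ i j, (P i j).natDegree ≤ d
  deg_den : ∀ i j, (Q i j).natDegree ≤ d
  not_const : ∃ i j, ∀ c : F, P i j ≠ C c * Q i j

/-- `x` is not a zero of the numerators and denominators. -/
def Regular {F : Type} [Field F] (P Q : Fin 2 → Fin 2 → F[X]) (x : F) : Prop :=
  ∀ i j, (P i j).eval x ≠ 0 ∧ (Q i j).eval x ≠ 0

/-- The rational functions `P i j / Q i j` in `n` variables are nonzero and not all constant, and the total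
degrees of the numerators and of the denominators are at most `d`. -/
structure AdmissibleMv {F : Type} [Field F] {n : ℕ} (P Q : Fin 2 → Fin 2 → MvPolynomial (Fin n) F)
    (d : ℕ) : Prop where
  num : ∀ i j, P i j ≠ 0
  den : ∀ i j, Q i j ≠ 0
  deg_num : ∀ i j, (P i j).totalDegree ≤ d
  deg_den : ∀ i j, (Q i j).totalDegree ≤ d
  not_const : ∃ i j, ∀ c : F, P i j ≠ MvPolynomial.C c * Q i j

/-- `x` is not a zero of the numerators and denominators. -/
def RegularMv {F : Type} [Field F] {n : ℕ} (P Q : Fin 2 → Fin 2 → MvPolynomial (Fin n) F)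
    (x : Fin n → F) : Prop :=
  ∀ i j, MvPolynomial.eval x (P i j) ≠ 0 ∧ MvPolynomial.eval x (Q i j) ≠ 0

end Pool.Agent.H9.FE.St
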