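import Mathlib

/-!
# The four exponentials conjecture for the values of rational functions: definitions
-/

set_option autoImplicit false

open Polynomial

namespace Pool.Agent.H9.FE.Sr

/-- The vectors `u`, `v` are linearly independent over `ℚ`. -/
def Indep (u v : Fin 2 → ℝ) : Prop :=
  ∀ r s : ℚ, (∀ j, (r : ℝ) * u j + (s : ℝ) * v j = 0) → r = 0 ∧ s = 0

/-- The assertion of the four exponentials conjecture for a real matrix `M`: if the rows of `M` are
linearly independent over `ℚ` and the columns of `M` are linearly independent over `ℚ`, then the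
determinant of `M` is not zero. -/
def Four (M : Matrix (Fin 2) (Fin 2) ℝ) : Prop :=
  Indep (fun j => M 0 j) (fun j => M 1 j) → Indep (fun i => M i 0) (fun i => M i 1) →
    M 0 0 * M 1 1 - M 0 1 * M 1 0 ≠ 0

/-- The assertion of the four exponentials conjecture for the matrix of the logarithms of the rational
numbers `a i j`. -/
def FourExp (a : Fin 2 → Fin 2 → ℚ) : Prop := Four (Matrix.of fun i j => Real.log (a i j))

/-- `E` is a nonzero polynomial of degree at most `m`, the polynomials `P i j` and `Q i j` divide powers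
of `E`, and the rational functions `P i j / Q i j` are not all constant. -/
structure Admissible {F : Type} [Field F] (E : F[X]) (P Q : Fin 2 → Fin 2 → F[X]) (m : ℕ) :
    Prop where
  ne_zero : E ≠ 0
  deg : E.natDegree ≤ m
  num : ∀ i j, ∃ k : ℕ, P i j ∣ E ^ k
  den : ∀ i j, ∃ k : ℕ, Q i j ∣ E ^ k
  not_const : ∃ i j, ∀ c : F, P i j ≠ C c * Q i j

/-- The same for polynomials in `n` variables, with the total degree. -/
structure AdmissibleMv {F : Type} [Field F] {n : ℕ} (E : MvPolynomial (Fin n) F)
    (P Q : Fin 2 → Fin 2 → MvPolynomial (Fin n) F) (m : ℕ) : Prop where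
  ne_zero : E ≠ 0
  deg : E.totalDegree ≤ m
  num : ∀ i j, ∃ k : ℕ, P i j ∣ E ^ k
  den : ∀ i j, ∃ k : ℕ, Q i j ∣ E ^ k
  not_const : ∃ i j, ∀ c : F, P i j ≠ MvPolynomial.C c * Q i j

end Pool.Agent.H9.FE.Sr
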