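import Pool.Agent.H9.FE.SingC

/-!
# The analytic continuation to a disc without zeros and poles
-/

set_option autoImplicit false

open Filter Topology Polynomial ComplexConjugate

noncomputable section

namespace Pool.Agent.H9.FE

/-- The polynomial with complex coefficients. -/
abbrev cx (P : ℝ[X]) : ℂ[X] := P.map (algebraMap ℝ ℂ)

/-- The multiplicity of `α` as a zero (or pole) of `P / Q`. -/
def mm (P Q : ℝ[X]) (α : ℂ) : ℤ := (cx P).rootMultiplicity α - (cx Q).rootMultiplicity α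

theorem mult_conj (P : ℝ[X]) (α : ℂ) :
    (cx P).rootMultiplicity (conj α) = (cx P).rootMultiplicity α := by
  have h := eq_rootMultiplicity_map (p := cx P) (f := starRingEnd ℂ)
    (RingHom.injective _) α
  rw [h]
  congr 1
  rw [cx, Polynomial.map_map]
  congr 1
  ext x
  simp

theorem mm_conj (P Q : ℝ[X]) (α : ℂ) : mm P Q (conj α) = mm P Q α := by
  rw [mm, mm, mult_conj, mult_conj]

theorem mult_real (P : ℝ[X]) (ξ : ℝ) :
    (cx P).rootMultiplicity (ξ : ℂ) = P.rootMultiplicity ξ :=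
  (eq_rootMultiplicity_map (f := algebraMap ℝ ℂ) (RingHom.injective _) ξ).symm

theorem cx_ne {P : ℝ[X]} (hP : P ≠ 0) : cx P ≠ 0 :=
  (Polynomial.map_ne_zero_iff (RingHom.injective _)).mpr hP

theorem mem_roots_iff_mult {P : ℝ[X]} {α : ℂ} :
    α ∈ (cx P).roots ↔ (cx P).rootMultiplicity α ≠ 0 := by
  rw [← count_roots, Multiset.count_ne_zero]

theorem cx_eval (P : ℝ[X]) (x : ℝ) : (cx P).eval (x : ℂ) = ((P.eval x : ℝ) : ℂ) := by
  have h := Polynomial.eval_map_algebraMap (B := ℂ) P (x : ℂ)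
  rw [h]
  exact aeval_algebraMap_apply_eq_algebraMap_eval (A := ℂ) x P

theorem eval_prod (P : ℝ[X]) {S : Finset ℂ}
    (hS : ∀ α, (cx P).rootMultiplicity α ≠ 0 → α ∈ S) (z : ℂ) :
    (cx P).eval z = (cx P).leadingCoeff * ∏ α ∈ S, (z - α) ^ (cx P).rootMultiplicity α := by
  rw [(IsAlgClosed.splits (cx P)).eval_eq_prod_roots z, Finset.prod_multiset_map_count]
  congr 1
  rw [← Finset.prod_subset (s₁ := (cx P).roots.toFinset) (s₂ := S)
    (f := fun α => (z - α) ^ (cx P).rootMultiplicity α)]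
  · exact Finset.prod_congr rfl fun α _ => by rw [count_roots]
  · intro α hα
    exact hS α (mem_roots_iff_mult.mp (Multiset.mem_toFinset.mp hα))
  · intro α _ hα
    have h : (cx P).rootMultiplicity α = 0 := by
      by_contra h
      exact hα (Multiset.mem_toFinset.mpr (mem_roots_iff_mult.mpr h))
    rw [h, pow_zero]

theorem log_eval {P : ℝ[X]} (hP : P ≠ 0) {S : Finset ℂ}
    (hS : ∀ α, (cx P).rootMultiplicity α ≠ 0 → α ∈ S) {x : ℝ} (hx : P.eval x ≠ 0) :
    Real.log (P.eval x) = Real.log ‖(cx P).leadingCoeff‖ +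
      ∑ α ∈ S, ((cx P).rootMultiplicity α : ℝ) * Real.log ‖(x : ℂ) - α‖ := by
  have h1 : |P.eval x| = ‖(cx P).leadingCoeff‖ *
      ∏ α ∈ S, ‖(x : ℂ) - α‖ ^ (cx P).rootMultiplicity α := by
    have h2 := congrArg norm (eval_prod P hS (x : ℂ))
    rw [cx_eval, Complex.norm_real, norm_mul, norm_prod] at h2
    simpa using h2
  have h3 : ∀ α ∈ S, ‖(x : ℂ) - α‖ ^ (cx P).rootMultiplicity α ≠ 0 := by
    intro α _ h4
    rcases pow_eq_zero_iff'.mp h4 with ⟨h5, h6⟩
    have h7 : (x : ℂ) = α := by rwa [norm_eq_zero, sub_eq_zero] at h5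
    have h8 : α ∈ (cx P).roots := mem_roots_iff_mult.mpr h6
    rw [← h7, mem_roots (cx_ne hP), IsRoot.def, cx_eval] at h8
    exact hx (by exact_mod_cast h8)
  rw [← Real.log_abs, h1, Real.log_mul (norm_ne_zero_iff.mpr (leadingCoeff_ne_zero.mpr (cx_ne hP)))
    (Finset.prod_ne_zero_iff.mpr h3), Real.log_prod h3]
  congr 1
  exact Finset.sum_congr rfl fun α _ => Real.log_pow _ _

theorem log_fn {P Q : ℝ[X]} (hP : P ≠ 0) (hQ : Q ≠ 0) (q : ℝ[X]) {S : Finset ℂ}
    (hS : ∀ α, (cx P).rootMultiplicity α ≠ 0 → α ∈ S)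
    (hS' : ∀ α, (cx Q).rootMultiplicity α ≠ 0 → α ∈ S) {x : ℝ} (hx : P.eval x ≠ 0)
    (hx' : Q.eval x ≠ 0) :
    fn P Q q x = (Real.log ‖(cx P).leadingCoeff‖ - Real.log ‖(cx Q).leadingCoeff‖) +
      ∑ α ∈ S, (mm P Q α : ℝ) * Real.log ‖(x : ℂ) - α‖ + q.eval x := by
  unfold fn mm
  rw [Real.log_abs, Real.log_div hx hx', log_eval hP hS hx, log_eval hQ hS' hx']
  push_cast
  simp only [sub_mul, Finset.sum_sub_distrib]
  ring

/-- A branch of the logarithm of `1 - z / α`. -/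
def ell (α z : ℂ) : ℂ := Complex.log (1 - z / α)

theorem slit_of_lt {α z : ℂ} (h : ‖z‖ < ‖α‖) : 1 - z / α ∈ Complex.slitPlane := by
  have h0 : 0 < ‖α‖ := (norm_nonneg z).trans_lt h
  have h1 : ‖-(z / α)‖ < 1 := by
    rw [norm_neg, norm_div, div_lt_one h0]
    exact h
  have h2 := Complex.mem_slitPlane_of_norm_lt_one h1
  rwa [← sub_eq_add_neg] at h2

theorem slit_of_ne {α β : ℂ} (hβ : β ≠ 0) (h : ‖β‖ ≤ ‖α‖) (hne : α ≠ β) :
    1 - β / α ∈ Complex.slitPlane := by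
  have h0 : 0 < ‖α‖ := (norm_pos_iff.mpr hβ).trans_le h
  have hα : α ≠ 0 := norm_pos_iff.mp h0
  have h1 : ‖β / α‖ ≤ 1 := by
    rw [norm_div, div_le_one h0]
    exact h
  left
  rw [Complex.sub_re, Complex.one_re, sub_pos]
  refine lt_of_le_of_ne ((Complex.re_le_norm _).trans h1) fun h2 => hne ?_
  have h3 : (β / α).re ^ 2 + (β / α).im ^ 2 ≤ 1 := by
    have h4 := Complex.sq_norm (β / α)
    rw [Complex.normSq_apply] at h4
    nlinarith [norm_nonneg (β / α)]
  have h5 : (β / α).im = 0 := by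
    rw [h2] at h3
    nlinarith [sq_nonneg (β / α).im]
  have h6 : β / α = 1 := Complex.ext h2 h5
  rw [div_eq_one_iff_eq hα] at h6
  exact h6.symm

/-- The continuation of `log |P / Q| + q`. -/
def Fc (P Q q : ℝ[X]) (S : Finset ℂ) (z : ℂ) : ℂ :=
  (((Real.log ‖(cx P).leadingCoeff‖ - Real.log ‖(cx Q).leadingCoeff‖) +
    ∑ α ∈ S, (mm P Q α : ℝ) * Real.log ‖α‖ : ℝ) : ℂ) + (cx q).eval z +
    ∑ α ∈ S, (mm P Q α : ℂ) * ell α z

section disc

variable {P Q q : ℝ[X]} {S : Finset ℂ} {r : ℝ}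
  (hr : ∀ α ∈ S, mm P Q α ≠ 0 → r ≤ ‖α‖)

include hr

theorem an_Fc : AnalyticOnNhd ℂ (Fc P Q q S) (Metric.ball 0 r) := by
  intro z hz
  have hz' : ‖z‖ < r := by simpa using hz
  refine (analyticAt_const.add ?_).add ?_
  · exact AnalyticOnNhd.eval_polynomial (𝕜 := ℂ) (cx q) z (Set.mem_univ _)
  · refine Finset.analyticAt_fun_sum _ fun α hα => ?_
    by_cases h : mm P Q α = 0
    · simp only [h, Int.cast_zero, zero_mul]
      exact analyticAt_const
    · have h1 : AnalyticAt ℂ (fun z : ℂ => 1 - z / α) z :=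
        analyticAt_const.sub (analyticAt_id.div_const)
      exact analyticAt_const.mul (h1.clog (slit_of_lt (hz'.trans_le (hr α hα h))))

theorem im_zero (hconj : ∀ α ∈ S, conj α ∈ S) {x : ℝ} (hx : |x| < r) :
    ∑ α ∈ S, (mm P Q α : ℝ) * (ell α (x : ℂ)).im = 0 := by
  have h1 : ∑ α ∈ S, (mm P Q α : ℝ) * (ell α (x : ℂ)).im =
      ∑ α ∈ S, -((mm P Q α : ℝ) * (ell α (x : ℂ)).im) := by
    refine Finset.sum_nbij' (fun α => conj α) (fun α => conj α) hconj hconj
      (fun α _ => Complex.conj_conj α) (fun α _ => Complex.conj_conj α) fun α hα => ?_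
    rw [mm_conj]
    by_cases h : mm P Q α = 0
    · simp [h]
    · have h2 : 1 - (x : ℂ) / α ∈ Complex.slitPlane := by
        apply slit_of_lt
        rw [Complex.norm_real]
        exact hx.trans_le (hr α hα h)
      have h3 : ell (conj α) (x : ℂ) = conj (ell α (x : ℂ)) := by
        unfold ell
        rw [← Complex.log_conj _ (Complex.slitPlane_arg_ne_pi h2)]
        simp
      rw [h3, Complex.conj_im]
      ring
  rw [Finset.sum_neg_distrib] at h1
  linarith

theorem Fc_real (hP : P ≠ 0) (hQ : Q ≠ 0) (hS : ∀ α, (cx P).rootMultiplicity α ≠ 0 → α ∈ S)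
    (hS' : ∀ α, (cx Q).rootMultiplicity α ≠ 0 → α ∈ S) (hconj : ∀ α ∈ S, conj α ∈ S)
    {x : ℝ} (hx : |x| < r) (h1 : P.eval x ≠ 0) (h2 : Q.eval x ≠ 0) :
    Fc P Q q S (x : ℂ) = (fn P Q q x : ℂ) := by
  rw [log_fn hP hQ q hS hS' h1 h2]
  have hre : ∀ α ∈ S, (mm P Q α : ℝ) * Real.log ‖α‖ + (mm P Q α : ℝ) * (ell α (x : ℂ)).re =
      (mm P Q α : ℝ) * Real.log ‖(x : ℂ) - α‖ := by
    intro α hα
    by_cases h : mm P Q α = 0
    · simp [h]
    · have h3 : |x| < ‖α‖ := hx.trans_le (hr α hα h)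
      have h4 : α ≠ 0 := norm_pos_iff.mp ((abs_nonneg x).trans_lt h3)
      have h5 : 1 - (x : ℂ) / α ≠ 0 := Complex.slitPlane_ne_zero (slit_of_lt (by
        rw [Complex.norm_real]; exact h3))
      have h6 : (x : ℂ) - α = -(α * (1 - (x : ℂ) / α)) := by
        field_simp
        ring
      unfold ell
      rw [Complex.log_re, h6, norm_neg, norm_mul, Real.log_mul (norm_ne_zero_iff.mpr h4)
        (norm_ne_zero_iff.mpr h5)]
      ring
  apply Complex.ext
  · unfold Fc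
    rw [Complex.add_re, Complex.add_re, Complex.ofReal_re, cx_eval, Complex.ofReal_re,
      Complex.ofReal_re, Complex.re_sum]
    have h3 : ∑ α ∈ S, ((mm P Q α : ℂ) * ell α (x : ℂ)).re =
        ∑ α ∈ S, (mm P Q α : ℝ) * (ell α (x : ℂ)).re :=
      Finset.sum_congr rfl fun α _ => by
        rw [← Complex.ofReal_intCast, Complex.re_ofReal_mul]
    rw [h3, ← Finset.sum_congr rfl hre, Finset.sum_add_distrib]
    ring
  · unfold Fc
    rw [Complex.add_im, Complex.add_im, Complex.ofReal_im, cx_eval, Complex.ofReal_im,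
      Complex.ofReal_im, Complex.im_sum]
    have h3 : ∑ α ∈ S, ((mm P Q α : ℂ) * ell α (x : ℂ)).im =
        ∑ α ∈ S, (mm P Q α : ℝ) * (ell α (x : ℂ)).im :=
      Finset.sum_congr rfl fun α _ => by
        rw [← Complex.ofReal_intCast, Complex.im_ofReal_mul]
    rw [h3, im_zero hr hconj hx]
    ring

end disc

/-- The local form on the radius to a singular point of smallest absolute value. -/
theorem LFC_path {P Q q : ℝ[X]} {S : Finset ℂ} {β : ℂ} (hβ : β ≠ 0) (hβS : β ∈ S)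
    (hr : ∀ α ∈ S, mm P Q α ≠ 0 → ‖β‖ ≤ ‖α‖) :
    ∃ u, LFC (fun t => Fc P Q q S (β * (1 - t))) u (mm P Q β) := by
  classical
  refine ⟨fun t => (((Real.log ‖(cx P).leadingCoeff‖ - Real.log ‖(cx Q).leadingCoeff‖) +
    ∑ α ∈ S, (mm P Q α : ℝ) * Real.log ‖α‖ : ℝ) : ℂ) + (cx q).eval (β * (1 - (t : ℂ))) +
    ∑ α ∈ S.erase β, (mm P Q α : ℂ) * ell α (β * (1 - (t : ℂ))), ?_, ?_⟩
  · have hpath : AnalyticAt ℝ (fun t : ℝ => β * (1 - (t : ℂ))) 0 :=
      analyticAt_const.mul (analyticAt_const.sub (Complex.ofRealCLM.analyticAt 0))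
    have hcomp : ∀ {g : ℂ → ℂ}, AnalyticAt ℂ g β →
        AnalyticAt ℝ (fun t : ℝ => g (β * (1 - (t : ℂ)))) 0 := by
      intro g hg
      have h1 : AnalyticAt ℝ g (β * (1 - ((0 : ℝ) : ℂ))) := by
        rw [Complex.ofReal_zero, sub_zero, mul_one]
        exact hg.restrictScalars
      exact AnalyticAt.fun_comp h1 hpath
    refine (analyticAt_const.add (hcomp (AnalyticOnNhd.eval_polynomial (𝕜 := ℂ) (cx q) β
      (Set.mem_univ _)))).add ?_
    refine Finset.analyticAt_fun_sum _ fun α hα => ?_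
    by_cases h : mm P Q α = 0
    · simp only [h, Int.cast_zero, zero_mul]
      exact analyticAt_const
    · have h1 : AnalyticAt ℂ (fun z : ℂ => 1 - z / α) β :=
        analyticAt_const.sub (analyticAt_id.div_const)
      exact analyticAt_const.mul (hcomp (h1.clog (slit_of_ne hβ
        (hr α (Finset.mem_of_mem_erase hα) h) (Finset.ne_of_mem_erase hα))))
  · filter_upwards [self_mem_nhdsWithin] with t ht
    have ht' : (0 : ℝ) < t := ht
    have h1 : ell β (β * (1 - (t : ℂ))) = ((Real.log t : ℝ) : ℂ) := by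
      unfold ell
      rw [mul_div_cancel_left₀ _ hβ, sub_sub_cancel, Complex.ofReal_log ht'.le]
    have h2 : ∑ α ∈ S, (mm P Q α : ℂ) * ell α (β * (1 - (t : ℂ))) =
        ∑ α ∈ S.erase β, (mm P Q α : ℂ) * ell α (β * (1 - (t : ℂ))) +
          (mm P Q β : ℂ) * ell β (β * (1 - (t : ℂ))) := (Finset.sum_erase_add _ _ hβS).symm
    unfold Fc
    rw [h2, h1]
    ring

end Pool.Agent.H9.FE
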