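import Pool.Agent.H9.FE.Unif

/-!
# The theorem with the uniform bound
-/

set_option autoImplicit false

open Filter Topology Polynomial

noncomputable section

namespace Pool.Agent.H9.FE

section main

variable {P Q q : Fin 2 → Fin 2 → ℝ[X]} (hP : ∀ i j, P i j ≠ 0) (hQ : ∀ i j, Q i j ≠ 0)

include hP hQ

theorem lin_zero (i j k l : Fin 2) (r s : ℚ)
    (h : {x | (r : ℝ) * fn (P i j) (Q i j) (q i j) x + s * fn (P k l) (Q k l) (q k l) x = 0}.Infinite)
    (x : ℝ) (hx : (EE P Q).eval x ≠ 0) :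
    (r : ℝ) * fn (P i j) (Q i j) (q i j) x + s * fn (P k l) (Q k l) (q k l) x = 0 := by
  have h1 : HasDerivAt (fn (P i j) (Q i j) (q i j)) _ x := deriv_ff P Q q (i, j) x hx
  have h2 : HasDerivAt (fn (P k l) (Q k l) (q k l)) _ x := deriv_ff P Q q (k, l) x hx
  exact (cls_lin (q := q) hP hQ i j k l r s).zero_on
    ((continuousAt_const.mul h1.continuousAt).add (continuousAt_const.mul h2.continuousAt)) h

/-- If the determinant vanishes identically, the columns or the rows are dependent. -/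
theorem all_of_zero (hne : ∃ i j, ∀ c : ℝ, P i j ≠ C c * Q i j)
    (h0 : ∀ x, (EE P Q).eval x ≠ 0 → ff P Q q (0, 0) x * ff P Q q (1, 1) x -
      ff P Q q (0, 1) x * ff P Q q (1, 0) x = 0) (x : ℝ) (hx : (EE P Q).eval x ≠ 0) :
    Four (Matrix.of fun i j => fn (P i j) (Q i j) (q i j) x) := by
  by_contra hcon
  have hbad := core_all (q := q) hP hQ hne
  have hcol : ∀ r s : ℚ, ¬ (r = 0 ∧ s = 0) →
      {x | (r : ℝ) * fn (P 0 0) (Q 0 0) (q 0 0) x + s * fn (P 0 1) (Q 0 1) (q 0 1) x = 0 ∧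
        (r : ℝ) * fn (P 1 0) (Q 1 0) (q 1 0) x + s * fn (P 1 1) (Q 1 1) (q 1 1) x = 0}.Finite := by
    intro r s hrs
    by_contra hinf
    exact hcon (four_of_cols hrs
      (lin_zero hP hQ 0 0 0 1 r s (Set.Infinite.mono (fun y hy => hy.1) hinf) x hx)
      (lin_zero hP hQ 1 0 1 1 r s (Set.Infinite.mono (fun y hy => hy.2) hinf) x hx))
  have hrow : ∀ r s : ℚ, ¬ (r = 0 ∧ s = 0) →
      {x | (r : ℝ) * fn (P 0 0) (Q 0 0) (q 0 0) x + s * fn (P 1 0) (Q 1 0) (q 1 0) x = 0 ∧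
        (r : ℝ) * fn (P 0 1) (Q 0 1) (q 0 1) x + s * fn (P 1 1) (Q 1 1) (q 1 1) x = 0}.Finite := by
    intro r s hrs
    by_contra hinf
    exact hcon (four_of_rows hrs
      (lin_zero hP hQ 0 0 1 0 r s (Set.Infinite.mono (fun y hy => hy.1) hinf) x hx)
      (lin_zero hP hQ 0 1 1 1 r s (Set.Infinite.mono (fun y hy => hy.2) hinf) x hx))
  have hz : {x : ℝ | (EE P Q).eval x = 0}.Finite := by
    refine ((EE P Q).roots.toFinset.finite_toSet).subset fun y hy => ?_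
    simpa [EE_ne hP hQ] using hy
  let I := {rs : ℚ × ℚ // ¬ (rs.1 = 0 ∧ rs.2 = 0)}
  have hcount : (Set.univ : Set ℝ).Countable := by
    have h1 : (⋃ rs : I,
        {x | (rs.1.1 : ℝ) * fn (P 0 0) (Q 0 0) (q 0 0) x + rs.1.2 * fn (P 0 1) (Q 0 1) (q 0 1) x = 0 ∧
        (rs.1.1 : ℝ) * fn (P 1 0) (Q 1 0) (q 1 0) x + rs.1.2 * fn (P 1 1) (Q 1 1) (q 1 1) x = 0} ∪
        {x | (rs.1.1 : ℝ) * fn (P 0 0) (Q 0 0) (q 0 0) x + rs.1.2 * fn (P 1 0) (Q 1 0) (q 1 0) x = 0 ∧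
        (rs.1.1 : ℝ) * fn (P 0 1) (Q 0 1) (q 0 1) x + rs.1.2 * fn (P 1 1) (Q 1 1) (q 1 1) x =
          0}).Countable :=
      Set.countable_iUnion fun rs =>
        ((hcol rs.1.1 rs.1.2 rs.2).union (hrow rs.1.1 rs.1.2 rs.2)).countable
    refine ((h1.union hbad.countable).union hz.countable).mono fun y _ => ?_
    by_cases hy : (EE P Q).eval y = 0
    · exact Or.inr hy
    left
    by_cases hy' : Four (Matrix.of fun i j => fn (P i j) (Q i j) (q i j) y)
    swap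
    · exact Or.inr hy'
    left
    by_contra hno
    rw [Set.mem_iUnion] at hno
    push Not at hno
    refine hy' (fun r s h => ?_) (fun r s h => ?_) ?_
    · by_contra hrs
      exact hno ⟨(r, s), hrs⟩ (Or.inr ⟨h 0, h 1⟩)
    · by_contra hrs
      exact hno ⟨(r, s), hrs⟩ (Or.inl ⟨h 0, h 1⟩)
    · rw [Matrix.det_fin_two]
      exact h0 y hy
  exact Set.not_countable_univ hcount

/-- **The uniform theorem.** -/
theorem unif {d : ℕ} (hPd : ∀ i j, (P i j).natDegree ≤ d) (hQd : ∀ i j, (Q i j).natDegree ≤ d)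
    (hqd : ∀ i j, (q i j).natDegree ≤ d) (hne : ∃ i j, ∀ c : ℝ, P i j ≠ C c * Q i j)
    (T : Finset ℝ) (hT : ∀ x ∈ T, (∀ i j, (P i j).eval x ≠ 0 ∧ (Q i j).eval x ≠ 0) ∧
      ¬ Four (Matrix.of fun i j => fn (P i j) (Q i j) (q i j) x)) : T.card ≤ 797 * d := by
  have hd : 1 ≤ d := by
    by_contra hd
    have hd0 : d = 0 := by omega
    subst hd0
    obtain ⟨i, j, h⟩ := hne
    have h1 := eq_C_of_natDegree_eq_zero (Nat.le_zero.mp (hPd i j))
    have h2 := eq_C_of_natDegree_eq_zero (Nat.le_zero.mp (hQd i j))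
    have h3 : (Q i j).coeff 0 ≠ 0 := by
      intro h4
      apply hQ i j
      rw [h2, h4, C_0]
    apply h ((P i j).coeff 0 / (Q i j).coeff 0)
    rw [h1, h2, ← C_mul, coeff_C_zero, coeff_C_zero, div_mul_cancel₀ _ h3]
  rcases det_zeros hP hQ hPd hQd hqd with h | h
  · rcases T.eq_empty_or_nonempty with rfl | ⟨x, hx⟩
    · simp
    · obtain ⟨h1, h2⟩ := hT x hx
      exact absurd (all_of_zero hP hQ hne h x ((EE_iff P Q).mpr h1)) h2
  · have h1 := h T fun x hx => ⟨(EE_iff P Q).mpr (hT x hx).1, by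
      by_contra h2
      exact (hT x hx).2 (four_of_det h2)⟩
    omega

end main

end Pool.Agent.H9.FE
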