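import Pool.Agent.H9.FE.Loc

/-!
# The identity theorem on the projective line, and the local factorisation
-/

set_option autoImplicit false

open Filter Topology

namespace Pool.Agent.H9.FE

theorem tendsto_sub (ξ : ℝ) : Tendsto (fun x : ℝ => x - ξ) (𝓝[≠] ξ) (𝓝[≠] 0) := by
  refine tendsto_nhdsWithin_iff.mpr ⟨?_, ?_⟩
  · have h : Tendsto (fun x : ℝ => x - ξ) (𝓝 ξ) (𝓝 (ξ - ξ)) := (continuous_id.sub continuous_const).tendsto ξ
    rw [sub_self] at h
    exact h.mono_left nhdsWithin_le_nhds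
  · filter_upwards [self_mem_nhdsWithin] with x hx
    exact sub_ne_zero.mpr hx

theorem tendsto_add (ξ : ℝ) : Tendsto (fun t : ℝ => ξ + t) (𝓝[≠] 0) (𝓝[≠] ξ) := by
  refine tendsto_nhdsWithin_iff.mpr ⟨?_, ?_⟩
  · have h : Tendsto (fun t : ℝ => ξ + t) (𝓝 0) (𝓝 (ξ + 0)) := (continuous_const.add continuous_id).tendsto 0
    rw [add_zero] at h
    exact h.mono_left nhdsWithin_le_nhds
  · filter_upwards [self_mem_nhdsWithin] with t ht
    simpa using ht

theorem shift_iff {p : ℝ → Prop} {ξ : ℝ} :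
    (∀ᶠ t in 𝓝[≠] 0, p (ξ + t)) ↔ ∀ᶠ x in 𝓝[≠] ξ, p x := by
  constructor
  · intro h
    filter_upwards [(tendsto_sub ξ).eventually h] with x hx
    rwa [add_sub_cancel] at hx
  · exact fun h => (tendsto_add ξ).eventually h

theorem large_of {p : ℝ → Prop} (h : ∀ᶠ t in 𝓝[≠] (0 : ℝ), p t⁻¹) :
    ∃ R : ℝ, 0 < R ∧ ∀ x, R < |x| → p x := by
  rw [eventually_nhdsWithin_iff, Metric.eventually_nhds_iff] at h
  obtain ⟨ε, h1, h2⟩ := h
  refine ⟨ε⁻¹, inv_pos.mpr h1, fun x hx => ?_⟩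
  have h0 : 0 < |x| := (inv_pos.mpr h1).trans hx
  have h3 := h2 (y := x⁻¹) (by
    rw [Real.dist_eq, sub_zero, abs_inv]
    exact inv_lt_of_inv_lt₀ h1 hx) (inv_ne_zero (abs_pos.mp h0))
  rwa [inv_inv] at h3

/-- A property that holds near all points of the projective line, these points excepted, holds at all
but finitely many points. -/
theorem fin_of_places {p : ℝ → Prop} (h1 : ∀ ξ, ∀ᶠ x in 𝓝[≠] ξ, p x)
    (h2 : ∀ᶠ t in 𝓝[≠] (0 : ℝ), p t⁻¹) : {x | ¬ p x}.Finite := by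
  obtain ⟨R, -, hR⟩ := large_of h2
  by_contra hinf
  have hsub : {x | ¬ p x} ⊆ Set.Icc (-R) R := by
    intro x hx
    by_contra h
    apply hx
    apply hR
    rw [Set.mem_Icc, ← abs_le] at h
    exact not_le.mp h
  obtain ⟨ξ, -, hξ⟩ := Set.Infinite.exists_accPt_of_subset_isCompact hinf isCompact_Icc hsub
  rw [accPt_iff_frequently_nhdsNE] at hξ
  exact hξ ((h1 ξ).mono fun x hx h => h hx)

/-- The class of functions. -/
def Cls (F : ℝ → ℝ) : Prop :=
  (∀ ξ : ℝ, ∃ A B C : ℝ → ℝ, AnalyticAt ℝ A 0 ∧ AnalyticAt ℝ B 0 ∧ AnalyticAt ℝ C 0 ∧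
    ∀ᶠ t in 𝓝[≠] 0, F (ξ + t) = A t * Real.log t ^ 2 + B t * Real.log t + C t) ∧
  ∃ (K : ℕ) (A B C : ℝ → ℝ), AnalyticAt ℝ A 0 ∧ AnalyticAt ℝ B 0 ∧ AnalyticAt ℝ C 0 ∧
    ∀ᶠ t in 𝓝[≠] 0, t ^ K * F t⁻¹ = A t * Real.log t ^ 2 + B t * Real.log t + C t

theorem dich_aux {G : ℝ → ℝ} {K : ℕ} {A B C : ℝ → ℝ} (hA : AnalyticAt ℝ A 0)
    (hB : AnalyticAt ℝ B 0) (hC : AnalyticAt ℝ C 0)
    (h : ∀ᶠ t in 𝓝[≠] 0, t ^ K * G t = A t * Real.log t ^ 2 + B t * Real.log t + C t) :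
    (∀ᶠ t in 𝓝[≠] 0, G t = 0) ∨ ∀ᶠ t in 𝓝[≠] 0, G t ≠ 0 := by
  rcases main hA hB hC with h1 | ⟨h1, h2, h3⟩
  · right
    filter_upwards [h, h1] with t h4 h5 h6
    apply h5
    rw [← h4, h6, mul_zero]
  · left
    filter_upwards [h, eventually_nhdsWithin_of_eventually_nhds h1,
      eventually_nhdsWithin_of_eventually_nhds h2, eventually_nhdsWithin_of_eventually_nhds h3,
      self_mem_nhdsWithin] with t h4 h5 h6 h7 h8
    rw [h5, h6, h7] at h4
    have h9 : t ^ K * G t = 0 := by rw [h4]; ring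
    exact (mul_eq_zero.mp h9).resolve_left (pow_ne_zero _ h8)

theorem Cls.dich {F : ℝ → ℝ} (h : Cls F) (ξ : ℝ) :
    (∀ᶠ x in 𝓝[≠] ξ, F x = 0) ∨ ∀ᶠ x in 𝓝[≠] ξ, F x ≠ 0 := by
  obtain ⟨A, B, C, hA, hB, hC, h1⟩ := h.1 ξ
  have h2 := dich_aux (G := fun t => F (ξ + t)) (K := 0) hA hB hC
    (h1.mono fun t ht => by rw [pow_zero, one_mul]; exact ht)
  exact h2.imp (fun h3 => (shift_iff (p := fun x => F x = 0)).mp h3)
    fun h3 => (shift_iff (p := fun x => F x ≠ 0)).mp h3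

theorem Cls.dich_inf {F : ℝ → ℝ} (h : Cls F) :
    (∀ᶠ t in 𝓝[≠] (0 : ℝ), F t⁻¹ = 0) ∨ ∀ᶠ t in 𝓝[≠] (0 : ℝ), F t⁻¹ ≠ 0 := by
  obtain ⟨K, A, B, C, hA, hB, hC, h1⟩ := h.2
  exact dich_aux (G := fun t => F t⁻¹) hA hB hC h1

theorem isOpen_punct (p : ℝ → Prop) : IsOpen {ξ : ℝ | ∀ᶠ x in 𝓝[≠] ξ, p x} := by
  rw [isOpen_iff_mem_nhds]
  intro ξ hξ
  have h1 : ∀ᶠ x in 𝓝 ξ, x ≠ ξ → p x := eventually_nhdsWithin_iff.mp hξ
  filter_upwards [eventually_eventually_nhds.mpr h1] with y hy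
  rcases eq_or_ne y ξ with rfl | hne
  · exact hξ
  · have h2 : ∀ᶠ x in 𝓝 y, x ≠ ξ := isOpen_ne.mem_nhds hne
    exact eventually_nhdsWithin_of_eventually_nhds (hy.and h2 |>.mono fun x hx => hx.1 hx.2)

theorem not_both {p : ℝ → Prop} {ξ : ℝ} (h1 : ∀ᶠ x in 𝓝[≠] ξ, p x) (h2 : ∀ᶠ x in 𝓝[≠] ξ, ¬ p x) :
    False := by
  obtain ⟨x, h3, h4⟩ := (h1.and h2).exists
  exact h4 h3

/-- The identity theorem. -/
theorem Cls.ident {F : ℝ → ℝ} (h : Cls F) : {x | F x = 0}.Finite ∨ {x | F x ≠ 0}.Finite := by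
  have hS : IsClopen {ξ : ℝ | ∀ᶠ x in 𝓝[≠] ξ, F x = 0} := by
    refine ⟨⟨?_⟩, isOpen_punct _⟩
    have h1 : {ξ : ℝ | ∀ᶠ x in 𝓝[≠] ξ, F x = 0}ᶜ = {ξ : ℝ | ∀ᶠ x in 𝓝[≠] ξ, F x ≠ 0} := by
      ext ξ
      constructor
      · intro h2
        exact (h.dich ξ).resolve_left h2
      · intro h2 h3
        exact not_both h3 h2
    rw [h1]
    exact isOpen_punct _
  rcases isClopen_iff.mp hS with h1 | h1
  · left
    have h2 : ∀ ξ, ∀ᶠ x in 𝓝[≠] ξ, F x ≠ 0 := by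
      intro ξ
      refine (h.dich ξ).resolve_left fun h3 => ?_
      have : ξ ∈ {ξ : ℝ | ∀ᶠ x in 𝓝[≠] ξ, F x = 0} := h3
      rw [h1] at this
      exact this
    have h3 : ∀ᶠ t in 𝓝[≠] (0 : ℝ), F t⁻¹ ≠ 0 := by
      refine h.dich_inf.resolve_left fun h4 => ?_
      obtain ⟨R, h0, hR⟩ := large_of (p := fun x => F x = 0) h4
      have h5 : ∀ᶠ x in 𝓝[≠] (R + 1), F x = 0 := by
        have h6 : ∀ᶠ x in 𝓝 (R + 1), R < x := lt_mem_nhds (by linarith)
        exact eventually_nhdsWithin_of_eventually_nhds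
          (h6.mono fun x hx => hR x (hx.trans_le (le_abs_self x)))
      exact not_both h5 (h2 _)
    have h4 := fin_of_places h2 h3
    simpa using h4
  · right
    have h2 : ∀ ξ, ∀ᶠ x in 𝓝[≠] ξ, F x = 0 := by
      intro ξ
      have : ξ ∈ {ξ : ℝ | ∀ᶠ x in 𝓝[≠] ξ, F x = 0} := by rw [h1]; trivial
      exact this
    have h3 : ∀ᶠ t in 𝓝[≠] (0 : ℝ), F t⁻¹ = 0 := by
      refine h.dich_inf.resolve_right fun h4 => ?_
      obtain ⟨R, h0, hR⟩ := large_of (p := fun x => F x ≠ 0) h4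
      have h5 : ∀ᶠ x in 𝓝[≠] (R + 1), F x ≠ 0 := by
        have h6 : ∀ᶠ x in 𝓝 (R + 1), R < x := lt_mem_nhds (by linarith)
        exact eventually_nhdsWithin_of_eventually_nhds
          (h6.mono fun x hx => hR x (hx.trans_le (le_abs_self x)))
      exact not_both (h2 _) h5
    exact fin_of_places h2 h3

/-- The local form of a function at the place `φ`. -/
def LF (φ : ℝ → ℝ) (K : ℕ) (F u : ℝ → ℝ) (d : ℤ) : Prop :=
  AnalyticAt ℝ u 0 ∧ ∀ᶠ t in 𝓝[≠] 0, t ^ K * F (φ t) = u t + d * t ^ K * Real.log t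

theorem LF.lin {φ : ℝ → ℝ} {K : ℕ} {F G u v : ℝ → ℝ} {d d' : ℤ} (hF : LF φ K F u d)
    (hG : LF φ K G v d') (r s : ℝ) :
    ∃ A B C : ℝ → ℝ, AnalyticAt ℝ A 0 ∧ AnalyticAt ℝ B 0 ∧ AnalyticAt ℝ C 0 ∧
      ∀ᶠ t in 𝓝[≠] 0, t ^ K * (r * F (φ t) + s * G (φ t)) =
        A t * Real.log t ^ 2 + B t * Real.log t + C t := by
  refine ⟨fun _ => 0, fun t => (r * d + s * d') * t ^ K, fun t => r * u t + s * v t,
    analyticAt_const, analyticAt_const.mul (analyticAt_id.pow K),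
    (analyticAt_const.mul hF.1).add (analyticAt_const.mul hG.1), ?_⟩
  filter_upwards [hF.2, hG.2] with t h1 h2
  have h3 : t ^ K * (r * F (φ t) + s * G (φ t)) = r * (t ^ K * F (φ t)) + s * (t ^ K * G (φ t)) := by
    ring
  rw [h3, h1, h2]
  ring

section four

variable {φ : ℝ → ℝ} {K : ℕ} {a b c e ua ub uc ue : ℝ → ℝ} {da db dc de : ℤ}
  (ha : LF φ K a ua da) (hb : LF φ K b ub db) (hc : LF φ K c uc dc) (he : LF φ K e ue de)

include ha hb hc he

theorem det_form :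
    ∀ᶠ t in 𝓝[≠] 0, t ^ (2 * K) * (a (φ t) * e (φ t) - b (φ t) * c (φ t)) =
      (((da * de - db * dc : ℤ) : ℝ) * t ^ (2 * K)) * Real.log t ^ 2 +
      (t ^ K * (da * ue t + de * ua t - db * uc t - dc * ub t)) * Real.log t +
      (ua t * ue t - ub t * uc t) := by
  filter_upwards [ha.2, hb.2, hc.2, he.2] with t h1 h2 h3 h4
  have h5 : t ^ (2 * K) * (a (φ t) * e (φ t) - b (φ t) * c (φ t)) =
      (t ^ K * a (φ t)) * (t ^ K * e (φ t)) - (t ^ K * b (φ t)) * (t ^ K * c (φ t)) := by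
    ring
  rw [h5, h1, h2, h3, h4]
  push_cast
  ring

theorem det_an : AnalyticAt ℝ (fun t : ℝ => ((da * de - db * dc : ℤ) : ℝ) * t ^ (2 * K)) 0 ∧
    AnalyticAt ℝ (fun t : ℝ => t ^ K * (da * ue t + de * ua t - db * uc t - dc * ub t)) 0 ∧
    AnalyticAt ℝ (fun t : ℝ => ua t * ue t - ub t * uc t) 0 := by
  have h1 := ha.1
  have h2 := hb.1
  have h3 := hc.1
  have h4 := he.1
  refine ⟨analyticAt_const.mul (analyticAt_id.pow _), (analyticAt_id.pow K).mul ?_,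
    (h1.mul h4).sub (h2.mul h3)⟩
  exact (((analyticAt_const.mul h4).add (analyticAt_const.mul h1)).sub
    (analyticAt_const.mul h3)).sub (analyticAt_const.mul h2)

/-- At a place where `a` has a logarithmic singularity, the vanishing of the determinant implies that
the columns or the rows are dependent. -/
theorem sing (hda : da ≠ 0)
    (h0 : ∀ᶠ t in 𝓝[≠] 0, a (φ t) * e (φ t) - b (φ t) * c (φ t) = 0) :
    (∃ r s : ℚ, ¬ (r = 0 ∧ s = 0) ∧ ∀ᶠ t in 𝓝[≠] 0,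
      r * a (φ t) + s * b (φ t) = 0 ∧ r * c (φ t) + s * e (φ t) = 0) ∨
    (∃ r s : ℚ, ¬ (r = 0 ∧ s = 0) ∧ ∀ᶠ t in 𝓝[≠] 0,
      r * a (φ t) + s * c (φ t) = 0 ∧ r * b (φ t) + s * e (φ t) = 0) := by
  obtain ⟨n1, n2, n3⟩ := det_an ha hb hc he
  have hf := det_form ha hb hc he
  have hz : ¬ ∀ᶠ t in 𝓝[≠] 0, (((da * de - db * dc : ℤ) : ℝ) * t ^ (2 * K)) * Real.log t ^ 2 +
      (t ^ K * (da * ue t + de * ua t - db * uc t - dc * ub t)) * Real.log t +
      (ua t * ue t - ub t * uc t) ≠ 0 := by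
    intro h
    obtain ⟨t, h1, h2, h3⟩ := (h.and (hf.and h0)).exists
    apply h1
    rw [← h2, h3, mul_zero]
  obtain ⟨z1, z2, z3⟩ := (main n1 n2 n3).resolve_left hz
  have z1' := eventually_nhdsWithin_of_eventually_nhds (s := {(0 : ℝ)}ᶜ) z1
  have z2' := eventually_nhdsWithin_of_eventually_nhds (s := {(0 : ℝ)}ᶜ) z2
  have z3' := eventually_nhdsWithin_of_eventually_nhds (s := {(0 : ℝ)}ᶜ) z3
  have hd : (da : ℝ) * de = db * dc := by
    obtain ⟨t, h1, h2⟩ := (z1'.and self_mem_nhdsWithin).exists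
    have h3 := (mul_eq_zero.mp h1).resolve_right (pow_ne_zero _ h2)
    push_cast at h3
    linarith
  have hda' : (da : ℝ) ≠ 0 := by exact_mod_cast hda
  have hprod : ∀ᶠ t in 𝓝[≠] (0 : ℝ), (da * ub t - db * ua t) * (da * uc t - dc * ua t) = 0 := by
    filter_upwards [z2', z3', self_mem_nhdsWithin] with t h1 h2 h3
    have h4 := (mul_eq_zero.mp h1).resolve_left (pow_ne_zero _ h3)
    have h5 : (da : ℝ) ^ 2 * (ua t * ue t - ub t * uc t) = 0 := by rw [h2, mul_zero]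
    have h6 : (da * ub t - db * ua t) * (da * uc t - dc * ua t) =
        -((da : ℝ) ^ 2 * (ua t * ue t - ub t * uc t)) +
          da * ua t * (da * ue t + de * ua t - db * uc t - dc * ub t) -
          ua t ^ 2 * (da * de - db * dc) := by ring
    rw [h6, h5, h4, hd]
    ring
  have m1 : AnalyticAt ℝ (fun t => (da : ℝ) * ub t - db * ua t) 0 :=
    (analyticAt_const.mul hb.1).sub (analyticAt_const.mul ha.1)
  have m2 : AnalyticAt ℝ (fun t => (da : ℝ) * uc t - dc * ua t) 0 :=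
    (analyticAt_const.mul hc.1).sub (analyticAt_const.mul ha.1)
  have hor : (∀ᶠ t in 𝓝[≠] (0 : ℝ), (da : ℝ) * ub t - db * ua t = 0) ∨
      ∀ᶠ t in 𝓝[≠] (0 : ℝ), (da : ℝ) * uc t - dc * ua t = 0 := by
    rcases m1.eventually_eq_zero_or_eventually_ne_zero with h1 | h1
    · exact Or.inl (eventually_nhdsWithin_of_eventually_nhds h1)
    · right
      filter_upwards [h1, hprod] with t h2 h3
      exact (mul_eq_zero.mp h3).resolve_left h2
  rcases hor with h | h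
  · left
    refine ⟨db, -da, fun h' => hda ?_, ?_⟩
    · have := h'.2
      rw [neg_eq_zero] at this
      exact_mod_cast this
    filter_upwards [h, z2', ha.2, hb.2, hc.2, he.2, self_mem_nhdsWithin] with t h1 h2 h3 h4 h5 h6 h7
    have h8 : t ^ K ≠ 0 := pow_ne_zero _ h7
    have h9 := (mul_eq_zero.mp h2).resolve_left h8
    push_cast
    constructor
    · have h10 : t ^ K * (db * a (φ t) + -da * b (φ t)) = 0 := by
        have : t ^ K * (db * a (φ t) + -da * b (φ t)) =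
          db * (t ^ K * a (φ t)) - da * (t ^ K * b (φ t)) := by ring
        rw [this, h3, h4]
        linear_combination -h1
      exact (mul_eq_zero.mp h10).resolve_left h8
    · have h10 : (da : ℝ) * (t ^ K * (db * c (φ t) + -da * e (φ t))) = 0 := by
        have : (da : ℝ) * (t ^ K * (db * c (φ t) + -da * e (φ t))) =
          da * (db * (t ^ K * c (φ t)) - da * (t ^ K * e (φ t))) := by ring
        rw [this, h5, h6]
        linear_combination (-(da : ℝ)) * h9 - (dc : ℝ) * h1 + (ua t - da * t ^ K * Real.log t) * hd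
      exact (mul_eq_zero.mp ((mul_eq_zero.mp h10).resolve_left hda')).resolve_left h8
  · right
    refine ⟨dc, -da, fun h' => hda ?_, ?_⟩
    · have := h'.2
      rw [neg_eq_zero] at this
      exact_mod_cast this
    filter_upwards [h, z2', ha.2, hb.2, hc.2, he.2, self_mem_nhdsWithin] with t h1 h2 h3 h4 h5 h6 h7
    have h8 : t ^ K ≠ 0 := pow_ne_zero _ h7
    have h9 := (mul_eq_zero.mp h2).resolve_left h8
    push_cast
    constructor
    · have h10 : t ^ K * (dc * a (φ t) + -da * c (φ t)) = 0 := by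
        have : t ^ K * (dc * a (φ t) + -da * c (φ t)) =
          dc * (t ^ K * a (φ t)) - da * (t ^ K * c (φ t)) := by ring
        rw [this, h3, h5]
        linear_combination -h1
      exact (mul_eq_zero.mp h10).resolve_left h8
    · have h10 : (da : ℝ) * (t ^ K * (dc * b (φ t) + -da * e (φ t))) = 0 := by
        have : (da : ℝ) * (t ^ K * (dc * b (φ t) + -da * e (φ t))) =
          da * (dc * (t ^ K * b (φ t)) - da * (t ^ K * e (φ t))) := by ring
        rw [this, h4, h6]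
        linear_combination (-(da : ℝ)) * h9 - (db : ℝ) * h1 + (ua t - da * t ^ K * Real.log t) * hd
      exact (mul_eq_zero.mp ((mul_eq_zero.mp h10).resolve_left hda')).resolve_left h8

end four

end Pool.Agent.H9.FE
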