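import Mathlib

/-!
# Functions `A L ^ 2 + B L + C` with `L = log |t|` and analytic coefficients
-/

set_option autoImplicit false

open Filter Topology

namespace Pool.Agent.H9.FE

theorem tend_inv : Tendsto (fun t : ℝ => (Real.log t)⁻¹) (𝓝[≠] 0) (𝓝 0) :=
  tendsto_inv_atBot_zero.comp Real.tendsto_log_nhdsNE_zero

theorem log_ne : ∀ᶠ t : ℝ in 𝓝[≠] 0, Real.log t ≠ 0 :=
  (Real.tendsto_log_nhdsNE_zero.eventually (eventually_lt_atBot 0)).mono fun _ h => h.ne

theorem tend_one : Tendsto (fun t : ℝ => t * Real.log t) (𝓝[≠] 0) (𝓝 0) := by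
  have h := Real.continuous_mul_log.tendsto 0
  rw [zero_mul] at h
  exact h.mono_left nhdsWithin_le_nhds

theorem tend_two : Tendsto (fun t : ℝ => t * Real.log t ^ 2) (𝓝[≠] 0) (𝓝 0) := by
  have h1 : Continuous fun t : ℝ => √|t| * Real.log (√|t|) :=
    Real.continuous_mul_log.comp (Real.continuous_sqrt.comp continuous_abs)
  have h2 := (h1.pow 2).tendsto 0
  have h3 : Tendsto (fun t : ℝ => |t| * Real.log t ^ 2) (𝓝 0) (𝓝 0) := by
    have h4 : (fun t : ℝ => |t| * Real.log t ^ 2) =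
        fun t : ℝ => 4 * (√|t| * Real.log (√|t|)) ^ 2 := by
      funext t
      rw [Real.log_sqrt (abs_nonneg t), Real.log_abs, mul_pow, Real.sq_sqrt (abs_nonneg t)]
      ring
    rw [h4]
    have h5 := h2.const_mul 4
    simpa using h5
  refine squeeze_zero_norm (fun t => ?_) (h3.mono_left nhdsWithin_le_nhds)
  rw [Real.norm_eq_abs, abs_mul, abs_of_nonneg (sq_nonneg (Real.log t))]

theorem fac {f : ℝ → ℝ} (hf : AnalyticAt ℝ f 0) {n : ℕ} (hn : (n : ℕ∞) ≤ analyticOrderAt f 0) :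
    ∃ g : ℝ → ℝ, AnalyticAt ℝ g 0 ∧ (∀ᶠ t in 𝓝 0, f t = t ^ n * g t) ∧
      (analyticOrderAt f 0 = n → g 0 ≠ 0) := by
  by_cases h : analyticOrderAt f 0 = n
  · obtain ⟨g, h1, h2, h3⟩ := hf.analyticOrderAt_eq_natCast.mp h
    exact ⟨g, h1, by simpa using h3, fun _ => h2⟩
  · obtain ⟨g, h1, h3⟩ := (natCast_le_analyticOrderAt hf).mp hn
    exact ⟨g, h1, by simpa using h3, fun h' => absurd h' h⟩

/-- A function with a zero, multiplied by powers of the logarithm. -/
theorem small {f : ℝ → ℝ} (hf : AnalyticAt ℝ f 0) (h0 : f 0 = 0) :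
    Tendsto (fun t => f t * Real.log t) (𝓝[≠] 0) (𝓝 0) ∧
      Tendsto (fun t => f t * Real.log t ^ 2) (𝓝[≠] 0) (𝓝 0) := by
  have h1 : ((1 : ℕ) : ℕ∞) ≤ analyticOrderAt f 0 := by
    rw [Nat.cast_one, Order.one_le_iff_ne_zero]
    exact hf.analyticOrderAt_ne_zero.mpr h0
  obtain ⟨g, h2, h3, -⟩ := fac hf h1
  have h4 : Tendsto g (𝓝[≠] 0) (𝓝 (g 0)) := h2.continuousAt.tendsto.mono_left nhdsWithin_le_nhds
  have h5 : ∀ᶠ t in 𝓝[≠] (0 : ℝ), f t = t ^ 1 * g t := eventually_nhdsWithin_of_eventually_nhds h3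
  constructor
  · have h6 := h4.mul tend_one
    rw [mul_zero] at h6
    refine h6.congr' ?_
    filter_upwards [h5] with t ht
    rw [ht]
    ring
  · have h6 := h4.mul tend_two
    rw [mul_zero] at h6
    refine h6.congr' ?_
    filter_upwards [h5] with t ht
    rw [ht]
    ring

/-- The case where one of the coefficients is not zero at the point. -/
theorem main_ne {A B C : ℝ → ℝ} (hA : AnalyticAt ℝ A 0) (hB : AnalyticAt ℝ B 0)
    (hC : AnalyticAt ℝ C 0) (h : A 0 ≠ 0 ∨ B 0 ≠ 0 ∨ C 0 ≠ 0) :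
    ∀ᶠ t in 𝓝[≠] 0, A t * Real.log t ^ 2 + B t * Real.log t + C t ≠ 0 := by
  have cA : Tendsto A (𝓝[≠] 0) (𝓝 (A 0)) := hA.continuousAt.tendsto.mono_left nhdsWithin_le_nhds
  have cB : Tendsto B (𝓝[≠] 0) (𝓝 (B 0)) := hB.continuousAt.tendsto.mono_left nhdsWithin_le_nhds
  have cC : Tendsto C (𝓝[≠] 0) (𝓝 (C 0)) := hC.continuousAt.tendsto.mono_left nhdsWithin_le_nhds
  by_cases h1 : A 0 = 0
  · by_cases h2 : B 0 = 0
    · have h3 : C 0 ≠ 0 := by tauto
      have h4 := (((small hA h1).2).add ((small hB h2).1)).add cC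
      rw [add_zero, zero_add] at h4
      exact h4.eventually_ne h3
    · have h4 := (((small hA h1).1).add cB).add (cC.mul tend_inv)
      rw [mul_zero, add_zero, zero_add] at h4
      filter_upwards [h4.eventually_ne h2, log_ne] with t h5 h6 h7
      apply h5
      have h8 : A t * Real.log t + B t + C t * (Real.log t)⁻¹ =
          (A t * Real.log t ^ 2 + B t * Real.log t + C t) * (Real.log t)⁻¹ := by
        field_simp
      rw [h8, h7, zero_mul]
  · have h4 := (cA.add (cB.mul tend_inv)).add (cC.mul (tend_inv.pow 2))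
    rw [mul_zero, add_zero, zero_pow two_ne_zero, mul_zero, add_zero] at h4
    filter_upwards [h4.eventually_ne h1, log_ne] with t h5 h6 h7
    apply h5
    have h8 : A t + B t * (Real.log t)⁻¹ + C t * (Real.log t)⁻¹ ^ 2 =
        (A t * Real.log t ^ 2 + B t * Real.log t + C t) * (Real.log t)⁻¹ ^ 2 := by
      field_simp
    rw [h8, h7, zero_mul]

/-- The function is not zero near the point, or all the coefficients are zero near the point. -/
theorem main {A B C : ℝ → ℝ} (hA : AnalyticAt ℝ A 0) (hB : AnalyticAt ℝ B 0)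
    (hC : AnalyticAt ℝ C 0) :
    (∀ᶠ t in 𝓝[≠] 0, A t * Real.log t ^ 2 + B t * Real.log t + C t ≠ 0) ∨
      ((∀ᶠ t in 𝓝 0, A t = 0) ∧ (∀ᶠ t in 𝓝 0, B t = 0) ∧ ∀ᶠ t in 𝓝 0, C t = 0) := by
  by_cases htop : analyticOrderAt A 0 = ⊤ ∧ analyticOrderAt B 0 = ⊤ ∧ analyticOrderAt C 0 = ⊤
  · right
    exact ⟨analyticOrderAt_eq_top.mp htop.1, analyticOrderAt_eq_top.mp htop.2.1,
      analyticOrderAt_eq_top.mp htop.2.2⟩
  left
  set m := min (analyticOrderAt A 0) (min (analyticOrderAt B 0) (analyticOrderAt C 0)) with hm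
  have hne : m ≠ ⊤ := by
    intro h
    apply htop
    rw [hm] at h
    simpa [min_eq_top] using h
  obtain ⟨n, hn⟩ : ∃ n : ℕ, m = n := ⟨m.toNat, (ENat.natCast_toNat hne).symm⟩
  have lA : (n : ℕ∞) ≤ analyticOrderAt A 0 := hn ▸ min_le_left _ _
  have lB : (n : ℕ∞) ≤ analyticOrderAt B 0 := hn ▸ (min_le_right _ _).trans (min_le_left _ _)
  have lC : (n : ℕ∞) ≤ analyticOrderAt C 0 := hn ▸ (min_le_right _ _).trans (min_le_right _ _)
  obtain ⟨a, a1, a2, a3⟩ := fac hA lA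
  obtain ⟨b, b1, b2, b3⟩ := fac hB lB
  obtain ⟨c, c1, c2, c3⟩ := fac hC lC
  have hor : a 0 ≠ 0 ∨ b 0 ≠ 0 ∨ c 0 ≠ 0 := by
    rcases min_choice (analyticOrderAt A 0) (min (analyticOrderAt B 0) (analyticOrderAt C 0))
      with h | h
    · exact Or.inl (a3 (by rw [← h, ← hm, hn]))
    · rcases min_choice (analyticOrderAt B 0) (analyticOrderAt C 0) with h' | h'
      · exact Or.inr (Or.inl (b3 (by rw [← h', ← h, ← hm, hn])))
      · exact Or.inr (Or.inr (c3 (by rw [← h', ← h, ← hm, hn])))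
  filter_upwards [main_ne a1 b1 c1 hor, eventually_nhdsWithin_of_eventually_nhds a2,
    eventually_nhdsWithin_of_eventually_nhds b2, eventually_nhdsWithin_of_eventually_nhds c2,
    self_mem_nhdsWithin] with t h1 h2 h3 h4 h5 h6
  apply h1
  have h7 : t ^ n ≠ 0 := pow_ne_zero _ h5
  rw [h2, h3, h4] at h6
  have h8 : t ^ n * (a t * Real.log t ^ 2 + b t * Real.log t + c t) = 0 := by linarith
  exact (mul_eq_zero.mp h8).resolve_left h7

end Pool.Agent.H9.FE
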