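import Mathlib

/-!
# From one variable to several variables: exceptional points in a grid
-/

set_option autoImplicit false

open Finset

namespace Pool.Agent.H9.FE.Mv

variable {K : Type} [Field K] [Infinite K]

theorem exists_eval_ne {n : ℕ} {P : MvPolynomial (Fin n) K} (hP : P ≠ 0) :
    ∃ x, MvPolynomial.eval x P ≠ 0 := by
  by_contra h0
  push Not at h0
  exact hP (MvPolynomial.funext fun y => by rw [h0 y, map_zero])

omit [Infinite K] in
/-- Substitution of `f`. -/
theorem eval_bind {n : ℕ} (f : Fin n → MvPolynomial (Fin n) K) (x : Fin n → K)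
    (P : MvPolynomial (Fin n) K) :
    MvPolynomial.eval x (MvPolynomial.bind₁ f P) =
      MvPolynomial.eval (fun j => MvPolynomial.eval x (f j)) P := by
  rw [← MvPolynomial.coe_aeval_eq_eval, ← MvPolynomial.coe_aeval_eq_eval]
  exact MvPolynomial.aeval_bind₁ _ _ _

/-- If `P / Q` is not constant, it depends on some coordinate. -/
theorem exists_dir {n : ℕ} {P Q : MvPolynomial (Fin n) K} (hQ : Q ≠ 0)
    (h : ∀ c : K, P ≠ MvPolynomial.C c * Q) :
    ∃ (k : Fin n) (a : K) (x : Fin n → K),
      MvPolynomial.eval x P * MvPolynomial.eval (Function.update x k a) Q ≠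
        MvPolynomial.eval (Function.update x k a) P * MvPolynomial.eval x Q := by
  classical
  by_contra hcon
  push Not at hcon
  obtain ⟨y, hy⟩ := exists_eval_ne hQ
  have hw0 : ∀ (m : ℕ) (x : Fin n → K), (fun j : Fin n => MvPolynomial.eval x
      (if (j : ℕ) < m then MvPolynomial.C (y j) else MvPolynomial.X j)) =
      (fun j : Fin n => if (j : ℕ) < m then y j else x j) := by
    intro m x
    funext j
    split_ifs <;> simp
  have hW0 : ∀ m : ℕ, MvPolynomial.bind₁ (fun j : Fin n => if (j : ℕ) < m then
      MvPolynomial.C (y j) else MvPolynomial.X j) Q ≠ 0 := by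
    intro m h0
    have h1 := eval_bind (fun j : Fin n => if (j : ℕ) < m then
      MvPolynomial.C (y j) else MvPolynomial.X j) y Q
    have h2 : (fun j : Fin n => if (j : ℕ) < m then y j else y j) = y := by
      funext j; simp
    rw [h0, map_zero, hw0, h2] at h1
    exact hy h1.symm
  have hprod := mul_ne_zero
    (sub_ne_zero.mpr (h (MvPolynomial.eval y P / MvPolynomial.eval y Q)))
    (prod_ne_zero_iff.mpr fun m (_ : m ∈ range (n + 1)) => hW0 m)
  obtain ⟨x, hx⟩ := exists_eval_ne hprod
  rw [map_mul, map_prod] at hx
  have hx1 := left_ne_zero_of_mul hx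
  have hx2 : ∀ m ∈ range (n + 1),
      MvPolynomial.eval (fun j : Fin n => if (j : ℕ) < m then y j else x j) Q ≠ 0 := by
    intro m hm
    have h1 := prod_ne_zero_iff.mp (right_ne_zero_of_mul hx) m hm
    rw [eval_bind, hw0] at h1
    exact h1
  have hchain : ∀ m ≤ n, MvPolynomial.eval x P *
      MvPolynomial.eval (fun j : Fin n => if (j : ℕ) < m then y j else x j) Q =
      MvPolynomial.eval (fun j : Fin n => if (j : ℕ) < m then y j else x j) P *
        MvPolynomial.eval x Q := by
    intro m
    induction m with
    | zero =>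
      intro _
      have h1 : (fun j : Fin n => if (j : ℕ) < 0 then y j else x j) = x := by
        funext j; simp
      rw [h1]
    | succ m ih =>
      intro hm
      have h1 := ih (by omega)
      have hstep : (fun j : Fin n => if (j : ℕ) < m + 1 then y j else x j) =
          Function.update (fun j : Fin n => if (j : ℕ) < m then y j else x j) ⟨m, by omega⟩
            (y ⟨m, by omega⟩) := by
        funext j
        by_cases hj : j = ⟨m, by omega⟩
        · subst hj
          simp
        · rw [Function.update_of_ne hj]
          have hj' : (j : ℕ) ≠ m := fun h => hj (Fin.ext h)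
          by_cases hlt : (j : ℕ) < m
          · rw [if_pos hlt, if_pos (by omega)]
          · rw [if_neg hlt, if_neg (by omega)]
      have h2 := hcon ⟨m, by omega⟩ (y ⟨m, by omega⟩)
        (fun j : Fin n => if (j : ℕ) < m then y j else x j)
      rw [← hstep] at h2
      have h3 := hx2 m (by simp; omega)
      apply mul_right_cancel₀ h3
      linear_combination
        MvPolynomial.eval (fun j : Fin n => if (j : ℕ) < m + 1 then y j else x j) Q * h1 +
          MvPolynomial.eval x Q * h2
  have hn := hchain n le_rfl
  have hwn : (fun j : Fin n => if (j : ℕ) < n then y j else x j) = y := by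
    funext j; simp
  rw [hwn] at hn
  apply hx1
  rw [map_sub, map_mul, MvPolynomial.eval_C]
  field_simp
  rw [hn]
  ring

omit [Infinite K] in
theorem tdeg {n : ℕ} (F : MvPolynomial (Fin n) K) (f : Fin n → MvPolynomial (Fin n) K)
    (hf : ∀ i, (f i).totalDegree ≤ 1) :
    (MvPolynomial.bind₁ f F).totalDegree ≤ F.totalDegree := by
  rw [MvPolynomial.bind₁, MvPolynomial.aeval_def, MvPolynomial.eval₂]
  apply MvPolynomial.totalDegree_finsetSum_le
  intro d hd
  refine (MvPolynomial.totalDegree_mul _ _).trans ?_
  rw [MvPolynomial.algebraMap_eq, MvPolynomial.totalDegree_C, zero_add]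
  refine (MvPolynomial.totalDegree_finsetProd _ _).trans ?_
  have h1 : ∑ i ∈ d.support, d i ≤ F.totalDegree := by
    rw [MvPolynomial.totalDegree]
    exact Finset.le_sup_of_le hd le_rfl
  refine (Finset.sum_le_sum ?_).trans h1
  intro i _
  refine (MvPolynomial.totalDegree_pow _ _).trans ?_
  exact (Nat.mul_le_mul_left _ (hf i)).trans (by simp)

omit [Infinite K] in
theorem sz [DecidableEq K] {n : ℕ} {E : MvPolynomial (Fin (n + 1)) K} (hE : E ≠ 0) (S : Finset K) :
    ((Fintype.piFinset fun _ : Fin (n + 1) => S).filter fun x => MvPolynomial.eval x E = 0).card ≤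
      E.totalDegree * S.card ^ n := by
  rcases S.eq_empty_or_nonempty with rfl | hS
  · simp
  have h := MvPolynomial.schwartz_zippel_totalDegree hE S
  have hS' : (0 : NNRat) < S.card := by exact_mod_cast hS.card_pos
  rw [div_le_div_iff₀ (by positivity) hS', pow_succ, ← mul_assoc] at h
  exact_mod_cast le_of_mul_le_mul_right h hS'

omit [Infinite K] in
/-- Restriction to a line in the direction of the coordinate `k`. -/
theorem eval_line {n : ℕ} (k : Fin n) (x : Fin n → K) (F : MvPolynomial (Fin n) K) (t : K) :
    (MvPolynomial.aeval (fun l : Fin n => if l = k then (Polynomial.X : Polynomial K)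
      else Polynomial.C (x l)) F).eval t = MvPolynomial.eval (Function.update x k t) F := by
  rw [← Polynomial.coe_evalRingHom, MvPolynomial.aeval_def, MvPolynomial.hom_eval₂,
    MvPolynomial.eval, MvPolynomial.coe_eval₂Hom]
  congr 1
  · ext y
    simp
  · funext l
    by_cases hl : l = k
    · subst hl
      simp
    · simp [hl]

/-- **Exceptional points in a grid.** -/
theorem count [DecidableEq K] {n d N : ℕ}
    (B : (Fin 2 → Fin 2 → K) → (Fin 2 → Fin 2 → K) → (Fin 2 → Fin 2 → K) → Prop)
    (hB : ∀ u v w, B u v w → ∀ i j, u i j ≠ 0 ∧ v i j ≠ 0)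
    (H : ∀ p q r : Fin 2 → Fin 2 → Polynomial K, (∀ i j, p i j ≠ 0) → (∀ i j, q i j ≠ 0) →
      (∀ i j, (p i j).natDegree ≤ d) → (∀ i j, (q i j).natDegree ≤ d) →
      (∀ i j, (r i j).natDegree ≤ d) →
      (∃ i j, ∀ c : K, p i j ≠ Polynomial.C c * q i j) → ∀ T : Finset K,
      (∀ t ∈ T, B (fun i j => (p i j).eval t) (fun i j => (q i j).eval t)
        (fun i j => (r i j).eval t)) → T.card ≤ N)
    {P Q R : Fin 2 → Fin 2 → MvPolynomial (Fin (n + 1)) K} (hQ : ∀ i j, Q i j ≠ 0)
    (hPd : ∀ i j, (P i j).totalDegree ≤ d) (hQd : ∀ i j, (Q i j).totalDegree ≤ d)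
    (hRd : ∀ i j, (R i j).totalDegree ≤ d)
    (hne : ∃ i j, ∀ c : K, P i j ≠ MvPolynomial.C c * Q i j)
    (S : Finset K) (T : Finset (Fin (n + 1) → K))
    (hT : ∀ x ∈ T, (∀ k, x k ∈ S) ∧ B (fun i j => MvPolynomial.eval x (P i j))
      (fun i j => MvPolynomial.eval x (Q i j)) (fun i j => MvPolynomial.eval x (R i j))) :
    T.card ≤ (N + 2 * d) * S.card ^ n := by
  classical
  obtain ⟨i, j, hij⟩ := hne
  obtain ⟨k, a, x0, hx0⟩ := exists_dir (hQ i j) hij
  let f : Fin (n + 1) → MvPolynomial (Fin (n + 1)) K := fun l =>
    if l = k then MvPolynomial.C a else MvPolynomial.X l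
  have hf : ∀ l, (f l).totalDegree ≤ 1 := by
    intro l
    simp only [f]
    split_ifs
    · rw [MvPolynomial.totalDegree_C]; omega
    · exact (MvPolynomial.totalDegree_X l).le
  have hfx : ∀ x : Fin (n + 1) → K, (fun l => MvPolynomial.eval x (f l)) =
      Function.update x k a := by
    intro x
    funext l
    by_cases hl : l = k
    · subst hl
      simp [f]
    · simp [f, hl]
  let E : MvPolynomial (Fin (n + 1)) K :=
    P i j * MvPolynomial.bind₁ f (Q i j) - MvPolynomial.bind₁ f (P i j) * Q i j
  have hEx : ∀ x, MvPolynomial.eval x E =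
      MvPolynomial.eval x (P i j) * MvPolynomial.eval (Function.update x k a) (Q i j) -
        MvPolynomial.eval (Function.update x k a) (P i j) * MvPolynomial.eval x (Q i j) := by
    intro x
    simp only [E]
    rw [map_sub, map_mul, map_mul, eval_bind, eval_bind, hfx]
  have hE : E ≠ 0 := by
    intro h0
    have h1 := hEx x0
    rw [h0, map_zero] at h1
    exact hx0 (sub_eq_zero.mp h1.symm)
  have hEd : E.totalDegree ≤ 2 * d := by
    refine (MvPolynomial.totalDegree_sub _ _).trans (max_le ?_ ?_)
    · refine (MvPolynomial.totalDegree_mul _ _).trans ?_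
      have h1 := tdeg (Q i j) f hf
      have h2 := hPd i j
      have h3 := hQd i j
      omega
    · refine (MvPolynomial.totalDegree_mul _ _).trans ?_
      have h1 := tdeg (P i j) f hf
      have h2 := hPd i j
      have h3 := hQd i j
      omega
  have h1 : (T.filter fun x => MvPolynomial.eval x E = 0).card ≤ 2 * d * S.card ^ n := by
    refine (Finset.card_le_card ?_).trans ((sz hE S).trans (Nat.mul_le_mul_right _ hEd))
    intro x hx
    rw [Finset.mem_filter] at hx ⊢
    exact ⟨Fintype.mem_piFinset.mpr (hT x hx.1).1, hx.2⟩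
  have h2 : (T.filter fun x => ¬ MvPolynomial.eval x E = 0).card ≤ N * S.card ^ n := by
    let g : (Fin (n + 1) → K) → (Fin n → K) := fun x l => x (k.succAbove l)
    have himg : ((T.filter fun x => ¬ MvPolynomial.eval x E = 0).image g).card ≤ S.card ^ n := by
      have h3 : (Fintype.piFinset fun _ : Fin n => S).card = S.card ^ n := by simp
      rw [← h3]
      refine Finset.card_le_card ?_
      intro z hz
      obtain ⟨x, hx, rfl⟩ := Finset.mem_image.mp hz
      rw [Finset.mem_filter] at hx
      exact Fintype.mem_piFinset.mpr fun l => (hT x hx.1).1 _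
    refine (Finset.card_le_mul_card_image (f := g) _ N ?_).trans (Nat.mul_le_mul_left _ himg)
    intro z hz
    obtain ⟨x1, hx1, hz1⟩ := Finset.mem_image.mp hz
    rw [Finset.mem_filter] at hx1
    have hupd : ∀ x, g x = z → x = Function.update x1 k (x k) := by
      intro x hx
      funext l
      by_cases hl : l = k
      · subst hl; simp
      · rw [Function.update_of_ne hl]
        obtain ⟨m, rfl⟩ := Fin.exists_succAbove_eq hl
        exact congrFun (hx.trans hz1.symm) m
    have hinj : Set.InjOn (fun x : Fin (n + 1) → K => x k)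
        (((T.filter fun x => ¬ MvPolynomial.eval x E = 0).filter fun x => g x = z : Finset _) :
          Set (Fin (n + 1) → K)) := by
      intro x hx y hy hxy
      rw [Finset.mem_coe, Finset.mem_filter] at hx hy
      rw [hupd x hx.2, hupd y hy.2]
      have hxy' : x k = y k := hxy
      rw [hxy']
    rw [← Finset.card_image_of_injOn hinj]
    have hB1 := hB _ _ _ (hT x1 hx1.1).2
    have hself : Function.update x1 k (x1 k) = x1 := Function.update_eq_self k x1
    refine H (fun i j => MvPolynomial.aeval (fun l => if l = k then (Polynomial.X : Polynomial K)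
        else Polynomial.C (x1 l)) (P i j))
      (fun i j => MvPolynomial.aeval (fun l => if l = k then (Polynomial.X : Polynomial K)
        else Polynomial.C (x1 l)) (Q i j))
      (fun i j => MvPolynomial.aeval (fun l => if l = k then (Polynomial.X : Polynomial K)
        else Polynomial.C (x1 l)) (R i j)) ?_ ?_ ?_ ?_ ?_ ?_ _ ?_
    · intro i j h0
      have h3 := eval_line k x1 (P i j) (x1 k)
      rw [h0, Polynomial.eval_zero, hself] at h3
      exact (hB1 i j).1 h3.symm
    · intro i j h0
      have h3 := eval_line k x1 (Q i j) (x1 k)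
      rw [h0, Polynomial.eval_zero, hself] at h3
      exact (hB1 i j).2 h3.symm
    · intro i j
      refine (MvPolynomial.aeval_natDegree_le (n := 1) (P i j) (hPd i j) _ fun l => ?_).trans
        (by rw [mul_one])
      split_ifs
      · exact Polynomial.natDegree_X_le
      · rw [Polynomial.natDegree_C]; omega
    · intro i j
      refine (MvPolynomial.aeval_natDegree_le (n := 1) (Q i j) (hQd i j) _ fun l => ?_).trans
        (by rw [mul_one])
      split_ifs
      · exact Polynomial.natDegree_X_le
      · rw [Polynomial.natDegree_C]; omega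
    · intro i j
      refine (MvPolynomial.aeval_natDegree_le (n := 1) (R i j) (hRd i j) _ fun l => ?_).trans
        (by rw [mul_one])
      split_ifs
      · exact Polynomial.natDegree_X_le
      · rw [Polynomial.natDegree_C]; omega
    · refine ⟨i, j, fun c hc => hx1.2 ?_⟩
      have h3 := congrArg (Polynomial.eval (x1 k)) hc
      have h4 := congrArg (Polynomial.eval a) hc
      rw [Polynomial.eval_mul, Polynomial.eval_C, eval_line, eval_line, hself] at h3
      rw [Polynomial.eval_mul, Polynomial.eval_C, eval_line, eval_line] at h4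
      rw [hEx, h3, h4]
      ring
    · intro t ht
      obtain ⟨x, hx, rfl⟩ := Finset.mem_image.mp ht
      rw [Finset.mem_filter, Finset.mem_filter] at hx
      have h3 := (hT x hx.1.1).2
      simp only [eval_line]
      rw [← hupd x hx.2]
      exact h3
  have h3 := Finset.card_filter_add_card_filter_not (s := T) (fun x => MvPolynomial.eval x E = 0)
  nlinarith [h1, h2, h3]

end Pool.Agent.H9.FE.Mv
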