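import Pool.Agent.H9.FE.Fin

/-!
# The uniform bound in terms of the zeros and poles
-/

set_option autoImplicit false
set_option linter.unusedSectionVars false

open Filter Topology Polynomial

noncomputable section

namespace Pool.Agent.H9.FE

/-- Logarithmic derivatives of the divisors of powers of `E` have denominator `E`. -/
theorem dvd_der {R : Type} [CommRing R] [IsDomain R] [UniqueFactorizationMonoid R] (D : R → R)
    (hD : ∀ a b, D (a * b) = a * D b + b * D a) {E : R} (P : R) :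
    (∃ k : ℕ, P ∣ E ^ k) → P ∣ E * D P := by
  induction P using UniqueFactorizationMonoid.induction_on_prime with
  | h₁ =>
    rintro ⟨k, hk⟩
    have h1 : E = 0 := by
      rcases Nat.eq_zero_or_pos k with rfl | hk'
      · rw [pow_zero] at hk
        exact absurd (zero_dvd_iff.mp hk) one_ne_zero
      · exact (pow_eq_zero_iff hk'.ne').mp (zero_dvd_iff.mp hk)
    rw [h1, zero_mul]
  | h₂ u hu => exact fun _ => hu.dvd
  | h₃ a p ha hp ih =>
    rintro ⟨k, hk⟩
    have h1 : p ∣ E := hp.dvd_of_dvd_pow ((Dvd.intro a rfl).trans hk)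
    have h2 : a ∣ E * D a := ih ⟨k, (Dvd.intro_left p rfl).trans hk⟩
    rw [hD]
    have h3 : p * a ∣ E * (p * D a) := by
      have h4 := mul_dvd_mul_left p h2
      rwa [show p * (E * D a) = E * (p * D a) by ring] at h4
    have h5 : p * a ∣ E * (a * D p) := by
      obtain ⟨b, hb⟩ := h1
      exact ⟨b * D p, by rw [hb]; ring⟩
    rw [mul_add]
    exact dvd_add h3 h5

section main

variable {P Q q : Fin 2 → Fin 2 → ℝ[X]} (hP : ∀ i j, P i j ≠ 0) (hQ : ∀ i j, Q i j ≠ 0)
  {E : ℝ[X]} (hE0 : E ≠ 0) (hPE : ∀ i j, ∃ k : ℕ, P i j ∣ E ^ k) (hQE : ∀ i j, ∃ k : ℕ, Q i j ∣ E ^ k)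

include hP hQ hE0 hPE hQE

theorem EE_of_E {x : ℝ} (hx : E.eval x ≠ 0) : (EE P Q).eval x ≠ 0 := by
  have key : ∀ R : ℝ[X], (∃ k : ℕ, R ∣ E ^ k) → R.eval x ≠ 0 := by
    rintro R ⟨k, c, hc⟩ h0
    have h1 := congrArg (fun R => R.eval x) hc
    simp only [eval_pow, eval_mul, h0, zero_mul] at h1
    exact pow_ne_zero k hx h1
  exact (EE_iff P Q).mpr fun i j => ⟨key _ (hPE i j), key _ (hQE i j)⟩

/-- The numerators of the derivatives. -/
theorem exists_A {m δ : ℕ} (hm : E.natDegree ≤ m) (hq : ∀ i j, (q i j).natDegree ≤ δ) :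
    ∃ A : Fin 2 × Fin 2 → ℝ[X], (∀ k, (A k).natDegree ≤ m + δ) ∧
      ∀ k x, E.eval x ≠ 0 → HasDerivAt (ff P Q q k) ((A k).eval x / E.eval x) x := by
  have hD : ∀ a b : ℝ[X], derivative (a * b) = a * derivative b + b * derivative a := by
    intro a b
    rw [derivative_mul]
    ring
  have key : ∀ R : ℝ[X], R ≠ 0 → (∃ k : ℕ, R ∣ E ^ k) → ∃ B : ℝ[X], B.natDegree ≤ m ∧
      E * derivative R = R * B := by
    intro R hR hRE
    obtain ⟨B, hB⟩ := dvd_der derivative hD R hRE
    refine ⟨B, ?_, hB⟩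
    rcases eq_or_ne B 0 with rfl | hB0
    · simp
    have h1 : (R * B).natDegree = R.natDegree + B.natDegree := natDegree_mul hR hB0
    have h2 : (E * derivative R).natDegree ≤ m + R.natDegree := by
      refine natDegree_mul_le.trans ?_
      have := natDegree_derivative_le R
      omega
    rw [hB, h1] at h2
    omega
  choose B hB hB' using fun i j => key (P i j) (hP i j) (hPE i j)
  choose C hC hC' using fun i j => key (Q i j) (hQ i j) (hQE i j)
  refine ⟨fun k => B k.1 k.2 - C k.1 k.2 + E * (q k.1 k.2).derivative, fun k => ?_, fun k x hx => ?_⟩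
  · have h1 := hB k.1 k.2
    have h2 := hC k.1 k.2
    have h3 := hq k.1 k.2
    have h4 := natDegree_derivative_le (q k.1 k.2)
    refine (natDegree_add_le _ _).trans (max_le ((natDegree_sub_le _ _).trans
      (max_le (by omega) (by omega))) (natDegree_mul_le.trans (by omega)))
  · have hEE := EE_of_E hP hQ hE0 hPE hQE hx
    have h1 := deriv_ff P Q q k x hEE
    refine h1.congr_deriv ?_
    rw [div_eq_div_iff hEE hx]
    have h2 := congrArg (fun R => R.eval x) (EE_eq P Q k)
    have h3 := congrArg (fun R => R.eval x) (hB' k.1 k.2)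
    have h4 := congrArg (fun R => R.eval x) (hC' k.1 k.2)
    simp only [eval_mul] at h2 h3 h4
    unfold AA
    simp only [eval_add, eval_mul, eval_sub]
    rw [h2]
    linear_combination ((Er P Q k).eval x * (Q k.1 k.2).eval x) * h3 -
      ((Er P Q k).eval x * (P k.1 k.2).eval x) * h4

theorem unif_rad {m δ : ℕ} (hm : E.natDegree ≤ m) (hqd : ∀ i j, (q i j).natDegree ≤ δ)
    (hne : ∃ i j, ∀ c : ℝ, P i j ≠ C c * Q i j)
    (T : Finset ℝ) (hT : ∀ x ∈ T, E.eval x ≠ 0 ∧
      ¬ Four (Matrix.of fun i j => fn (P i j) (Q i j) (q i j) x)) : T.card ≤ 93 * (m + δ) := by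
  classical
  obtain ⟨A, hA, hder⟩ := exists_A hP hQ hE0 hPE hQE hm hqd
  have hcls : Cls fun x => ff P Q q (0, 0) x * ff P Q q (1, 1) x -
      ff P Q q (0, 1) x * ff P Q q (1, 0) x := cls_det (q := q) hP hQ
  have hident : ∀ c₀ c, {x | E.eval x ≠ 0 ∧ G (ff P Q q) c₀ c x = 0}.Infinite →
      ∀ x, E.eval x ≠ 0 → G (ff P Q q) c₀ c x = 0 := by
    intro c₀ c h x hx
    exact (cls_G hP hQ c₀ c).zero_on (deriv_G hder c₀ c hx).continuousAt (h.mono fun _ hy => hy.2)
  let cc : Fin 2 × Fin 2 → ℝ[X] := fun k => if k = (0, 0) then A (1, 1) else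
        if k = (1, 1) then A (0, 0) else if k = (0, 1) then -A (1, 0) else -A (0, 1)
  have hdd : ∀ x, E.eval x ≠ 0 → HasDerivAt (fun x => ff P Q q (0, 0) x * ff P Q q (1, 1) x -
      ff P Q q (0, 1) x * ff P Q q (1, 0) x) (G (ff P Q q) 0 cc x / E.eval x) x := by
    intro x hx
    have h := ((hder (0, 0) x hx).mul (hder (1, 1) x hx)).sub
      ((hder (0, 1) x hx).mul (hder (1, 0) x hx))
    refine h.congr_deriv ?_
    unfold G
    rw [Fintype.sum_prod_type, Fin.sum_univ_two, Fin.sum_univ_two, Fin.sum_univ_two]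
    simp [cc]
    field_simp
    ring
  -- the number of zeros of `E` is positive
  have hm1 : 1 ≤ m := by
    by_contra hm0
    obtain ⟨i, j, hij⟩ := hne
    have h1 : E.natDegree = 0 := by omega
    have key : ∀ R : ℝ[X], (∃ k : ℕ, R ∣ E ^ k) → R.natDegree = 0 := by
      rintro R ⟨k, hk⟩
      have h2 := natDegree_le_of_dvd hk (pow_ne_zero k hE0)
      rw [natDegree_pow, h1, mul_zero] at h2
      omega
    have hP' := eq_C_of_natDegree_eq_zero (key _ (hPE i j))
    have hQ' := eq_C_of_natDegree_eq_zero (key _ (hQE i j))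
    have h3 : (Q i j).coeff 0 ≠ 0 := by
      intro h4
      apply hQ i j
      rw [hQ', h4, C_0]
    apply hij ((P i j).coeff 0 / (Q i j).coeff 0)
    rw [hP', hQ', ← C_mul, coeff_C_zero, coeff_C_zero, div_mul_cancel₀ _ h3]
  -- the case of the identity
  have hcase : (∀ x, E.eval x ≠ 0 → ff P Q q (0, 0) x * ff P Q q (1, 1) x -
      ff P Q q (0, 1) x * ff P Q q (1, 0) x = 0) → T.card ≤ 93 * (m + δ) := by
    intro h
    rcases T.eq_empty_or_nonempty with rfl | ⟨x, hx⟩
    · simp
    obtain ⟨h1, h2⟩ := hT x hx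
    have hinf : {x | ff P Q q (0, 0) x * ff P Q q (1, 1) x -
        ff P Q q (0, 1) x * ff P Q q (1, 0) x = 0}.Infinite := by
      have h3 : {x : ℝ | E.eval x = 0}.Finite := by
        refine (E.roots.toFinset.finite_toSet).subset fun y hy => ?_
        simpa [hE0] using hy
      refine (h3.infinite_compl).mono fun y hy => h y hy
    have h4 : ∀ x, (EE P Q).eval x ≠ 0 → ff P Q q (0, 0) x * ff P Q q (1, 1) x -
        ff P Q q (0, 1) x * ff P Q q (1, 0) x = 0 := fun y hy =>
      hcls.zero_on (deriv_det hP hQ hy).continuousAt hinf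
    exact absurd (all_of_zero hP hQ hne h4 x (EE_of_E hP hQ hE0 hPE hQE h1)) h2
  have hT' : ∀ x ∈ T, E.eval x ≠ 0 ∧ ff P Q q (0, 0) x * ff P Q q (1, 1) x -
      ff P Q q (0, 1) x * ff P Q q (1, 0) x = 0 := fun x hx => ⟨(hT x hx).1, by
        by_contra h2
        exact (hT x hx).2 (four_of_det h2)⟩
  have hAc : ∀ k, (cc k).natDegree ≤ m + δ := by
    intro k
    simp only [cc]
    split_ifs
    · exact hA _
    · exact hA _
    · rw [natDegree_neg]; exact hA _
    · rw [natDegree_neg]; exact hA _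
  rcases count hder hE0 (hm.trans (Nat.le_add_right m δ)) hA hident Finset.univ 0 cc (m + δ)
    (by simp) hAc (fun k hk => absurd (Finset.mem_univ k) hk) with h | h
  · by_cases hz : ∃ x, E.eval x ≠ 0 ∧ ff P Q q (0, 0) x * ff P Q q (1, 1) x -
        ff P Q q (0, 1) x * ff P Q q (1, 0) x = 0
    · apply hcase
      obtain ⟨x₀, h1, h2⟩ := hz
      intro x hx
      refine hcls.zero_on (hdd x hx).continuousAt (infinite_of_mem_nhds x₀ ?_)
      refine zero_near (V := {x | E.eval x ≠ 0})
        (isOpen_ne_fun E.continuous continuous_const) h1 (fun y hy => ?_) h2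
      have h3 := hdd y hy
      rwa [h y hy, zero_div] at h3
    · rcases T.eq_empty_or_nonempty with rfl | ⟨x, hx⟩
      · simp
      · exact absurd ⟨x, hT' x hx⟩ hz
  · obtain ⟨W, h1, h2⟩ := gap (p := fun z => (E.eval z ≠ 0 ∧
        G (ff P Q q) 0 cc z = 0) ∨ E.eval z = 0) T (by
      intro x hx y hy hxy
      by_cases hgap : ∃ z, x < z ∧ z < y ∧ E.eval z = 0
      · obtain ⟨z, h4, h5, h6⟩ := hgap
        exact ⟨z, h4, h5, Or.inr h6⟩
      have hall : ∀ z ∈ Set.Icc x y, E.eval z ≠ 0 := by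
        intro z hz
        rcases eq_or_lt_of_le hz.1 with rfl | h4
        · exact (hT' _ hx).1
        rcases eq_or_lt_of_le hz.2 with rfl | h5
        · exact (hT' _ hy).1
        exact fun h6 => hgap ⟨z, h4, h5, h6⟩
      obtain ⟨z, hz, h4⟩ := exists_deriv_eq_zero (f := fun x => ff P Q q (0, 0) x *
        ff P Q q (1, 1) x - ff P Q q (0, 1) x * ff P Q q (1, 0) x) hxy
        (fun z hz => (hdd z (hall z hz)).continuousAt.continuousWithinAt)
        (by rw [(hT' x hx).2, (hT' y hy).2])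
      have h5 := hall z ⟨hz.1.le, hz.2.le⟩
      rw [(hdd z h5).deriv] at h4
      exact ⟨z, hz.1, hz.2, Or.inl ⟨h5, (div_eq_zero_iff.mp h4).resolve_right h5⟩⟩)
    have h3 : W.card ≤ N (m + δ) 4 (m + δ) + (m + δ) := by
      have hW : W ⊆ (W.filter fun z => E.eval z ≠ 0 ∧ G (ff P Q q) 0 cc z = 0) ∪
          (W.filter fun z => E.eval z = 0) := by
        intro w hw
        rcases (h1 w hw).1 with h5 | h5
        · exact Finset.mem_union_left _ (Finset.mem_filter.mpr ⟨hw, h5⟩)
        · exact Finset.mem_union_right _ (Finset.mem_filter.mpr ⟨hw, h5⟩)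
      have h5 := (Finset.card_le_card hW).trans (Finset.card_union_le _ _)
      have h6 := h (W.filter fun z => E.eval z ≠ 0 ∧ G (ff P Q q) 0 cc z = 0)
        fun x hx => (Finset.mem_filter.mp hx).2
      have h8 : (W.filter fun z => E.eval z = 0).card ≤ m + δ :=
        (card_le_degree hE0 fun w hw => (Finset.mem_filter.mp hw).2).trans (by omega)
      have h9 : (Finset.univ : Finset (Fin 2 × Fin 2)).card = 4 := rfl
      rw [h9] at h6
      omega
    simp only [N] at h3
    omega

end main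

end Pool.Agent.H9.FE
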