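import Pool.Agent.H9.FE.Mv
import Pool.Agent.H9.FE.Rad

/-!
# Several variables, with a bound in terms of the zeros and poles
-/

set_option autoImplicit false

open Finset

namespace Pool.Agent.H9.FE.Mv

variable {K : Type} [Field K] [CharZero K]

omit [CharZero K] in
theorem deriv_line {n : ℕ} (k : Fin n) (x : Fin n → K) (F : MvPolynomial (Fin n) K) :
    Polynomial.derivative (MvPolynomial.aeval (fun l : Fin n => if l = k then
      (Polynomial.X : Polynomial K) else Polynomial.C (x l)) F) =
    MvPolynomial.aeval (fun l : Fin n => if l = k then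
      (Polynomial.X : Polynomial K) else Polynomial.C (x l)) (MvPolynomial.pderiv k F) := by
  induction F using MvPolynomial.induction_on with
  | C a => simp
  | add p q hp hq => rw [map_add, map_add, map_add, map_add, hp, hq]
  | mul_X p i hp =>
    rw [map_mul, Polynomial.derivative_mul, hp, MvPolynomial.pderiv_mul, map_add, map_mul, map_mul,
      MvPolynomial.pderiv_X, MvPolynomial.aeval_X]
    by_cases hi : i = k
    · subst hi
      simp
    · rw [if_neg hi, Polynomial.derivative_C, Pi.single_eq_of_ne hi, map_zero]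

omit [CharZero K] in
theorem tdeg_pderiv {n : ℕ} (k : Fin n) (F : MvPolynomial (Fin n) K) :
    (MvPolynomial.pderiv k F).totalDegree ≤ F.totalDegree := by
  conv_lhs => rw [F.as_sum, map_sum]
  apply MvPolynomial.totalDegree_finsetSum_le
  intro m hm
  rw [MvPolynomial.pderiv_monomial]
  refine (MvPolynomial.totalDegree_monomial_le _ _).trans ?_
  refine le_trans ?_ (MvPolynomial.le_totalDegree hm)
  rw [Finsupp.sum_fintype _ _ (fun _ => rfl), Finsupp.sum_fintype _ _ (fun _ => rfl)]
  refine Finset.sum_le_sum fun i _ => ?_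
  rw [Finsupp.tsub_apply]
  exact Nat.sub_le _ _

theorem wron {p q : Polynomial K} (h : Polynomial.derivative p * q = p * Polynomial.derivative q)
    (s t : K) : p.eval s * q.eval t = p.eval t * q.eval s := by
  by_cases hq : q = 0
  · simp [hq]
  classical
  obtain ⟨g, hg⟩ : ∃ g, g = EuclideanDomain.gcd p q := ⟨_, rfl⟩
  obtain ⟨a, ha⟩ : ∃ a, a = EuclideanDomain.gcdA p q := ⟨_, rfl⟩
  obtain ⟨b, hb⟩ : ∃ b, b = EuclideanDomain.gcdB p q := ⟨_, rfl⟩
  obtain ⟨p1, hp1⟩ := EuclideanDomain.gcd_dvd_left p q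
  obtain ⟨q1, hq1⟩ := EuclideanDomain.gcd_dvd_right p q
  have h1 := EuclideanDomain.gcd_eq_gcd_ab p q
  rw [← hg] at hp1 hq1 h1
  rw [← ha, ← hb] at h1
  have hg0 : g ≠ 0 := by
    intro h0
    rw [h0, zero_mul] at hq1
    exact hq hq1
  have hcop : IsCoprime p1 q1 := by
    refine ⟨a, b, mul_left_cancel₀ hg0 ?_⟩
    linear_combination (-1) * h1 - a * hp1 - b * hq1
  have hw : Polynomial.wronskian p1 q1 = 0 := by
    unfold Polynomial.wronskian
    apply mul_left_cancel₀ (pow_ne_zero 2 hg0)
    rw [hp1, hq1, Polynomial.derivative_mul, Polynomial.derivative_mul] at h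
    linear_combination (-1) * h
  obtain ⟨h2, h3⟩ := hcop.wronskian_eq_zero_iff.mp hw
  have h4 := Polynomial.eq_C_of_natDegree_eq_zero (Polynomial.derivative_eq_zero.mp h2)
  have h5 := Polynomial.eq_C_of_natDegree_eq_zero (Polynomial.derivative_eq_zero.mp h3)
  rw [hp1, hq1, h4, h5]
  simp only [Polynomial.eval_mul, Polynomial.eval_C]
  ring

/-- If `P / Q` is not constant, one of the partial derivatives is not zero. -/
theorem exists_pderiv {n : ℕ} {P Q : MvPolynomial (Fin n) K} (hQ : Q ≠ 0)
    (h : ∀ c : K, P ≠ MvPolynomial.C c * Q) :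
    ∃ k : Fin n, MvPolynomial.pderiv k P * Q ≠ P * MvPolynomial.pderiv k Q := by
  obtain ⟨k, a, x, hx⟩ := exists_dir hQ h
  refine ⟨k, fun h1 => hx ?_⟩
  have h2 := congrArg (MvPolynomial.aeval (fun l : Fin n => if l = k then
      (Polynomial.X : Polynomial K) else Polynomial.C (x l))) h1
  rw [map_mul, map_mul, ← deriv_line, ← deriv_line] at h2
  have h3 := wron h2 (x k) a
  rw [eval_line, eval_line, eval_line, eval_line, Function.update_eq_self] at h3
  exact h3

/-- **Exceptional points in a grid.** -/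
theorem count_rad [DecidableEq K] {n m δ N : ℕ}
    (B : (Fin 2 → Fin 2 → K) → (Fin 2 → Fin 2 → K) → (Fin 2 → Fin 2 → K) → Prop)
    (H : ∀ (e : Polynomial K) (p q r : Fin 2 → Fin 2 → Polynomial K), e ≠ 0 → e.natDegree ≤ m →
      (∀ i j, ∃ k : ℕ, p i j ∣ e ^ k) → (∀ i j, ∃ k : ℕ, q i j ∣ e ^ k) →
      (∀ i j, (r i j).natDegree ≤ δ) →
      (∃ i j, ∀ c : K, p i j ≠ Polynomial.C c * q i j) → ∀ T : Finset K,
      (∀ t ∈ T, e.eval t ≠ 0 ∧ B (fun i j => (p i j).eval t) (fun i j => (q i j).eval t)
        (fun i j => (r i j).eval t)) → T.card ≤ N)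
    {E : MvPolynomial (Fin (n + 1)) K} (hE : E ≠ 0) (hEm : E.totalDegree ≤ m)
    {P Q R : Fin 2 → Fin 2 → MvPolynomial (Fin (n + 1)) K}
    (hPE : ∀ i j, ∃ k : ℕ, P i j ∣ E ^ k) (hQE : ∀ i j, ∃ k : ℕ, Q i j ∣ E ^ k)
    (hRd : ∀ i j, (R i j).totalDegree ≤ δ)
    (hne : ∃ i j, ∀ c : K, P i j ≠ MvPolynomial.C c * Q i j)
    (S : Finset K) (T : Finset (Fin (n + 1) → K))
    (hT : ∀ x ∈ T, (∀ k, x k ∈ S) ∧ MvPolynomial.eval x E ≠ 0 ∧
      B (fun i j => MvPolynomial.eval x (P i j))
      (fun i j => MvPolynomial.eval x (Q i j)) (fun i j => MvPolynomial.eval x (R i j))) :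
    T.card ≤ (N + m) * S.card ^ n := by
  classical
  have hnz : ∀ R : MvPolynomial (Fin (n + 1)) K, (∃ k : ℕ, R ∣ E ^ k) → R ≠ 0 := by
    rintro R ⟨k, hk⟩ rfl
    exact pow_ne_zero k hE (zero_dvd_iff.mp hk)
  have hev : ∀ R : MvPolynomial (Fin (n + 1)) K, (∃ k : ℕ, R ∣ E ^ k) → ∀ x,
      MvPolynomial.eval x E ≠ 0 → MvPolynomial.eval x R ≠ 0 := by
    rintro R ⟨k, c, hc⟩ x hx h0
    have h1 := congrArg (MvPolynomial.eval x) hc
    rw [map_pow, map_mul, h0, zero_mul] at h1
    exact pow_ne_zero k hx h1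
  obtain ⟨i, j, hij⟩ := hne
  obtain ⟨k, hk⟩ := exists_pderiv (hnz _ (hQE i j)) hij
  have hD : ∀ a b : MvPolynomial (Fin (n + 1)) K, MvPolynomial.pderiv k (a * b) =
      a * MvPolynomial.pderiv k b + b * MvPolynomial.pderiv k a := by
    intro a b
    rw [MvPolynomial.pderiv_mul]
    ring
  have key : ∀ R : MvPolynomial (Fin (n + 1)) K, (∃ k : ℕ, R ∣ E ^ k) →
      ∃ B : MvPolynomial (Fin (n + 1)) K, B.totalDegree ≤ m ∧
        E * MvPolynomial.pderiv k R = R * B := by
    intro R hRE
    obtain ⟨B, hB⟩ := Pool.Agent.H9.FE.dvd_der (MvPolynomial.pderiv k) hD R hRE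
    refine ⟨B, ?_, hB⟩
    rcases eq_or_ne B 0 with rfl | hB0
    · simp
    have h1 := MvPolynomial.totalDegree_mul_of_isDomain (hnz R hRE) hB0
    have h2 := MvPolynomial.totalDegree_mul E (MvPolynomial.pderiv k R)
    have h3 := tdeg_pderiv k R
    rw [hB, h1] at h2
    omega
  obtain ⟨B1, hB1, hB1'⟩ := key _ (hPE i j)
  obtain ⟨B2, hB2, hB2'⟩ := key _ (hQE i j)
  have hA : P i j * Q i j * (B1 - B2) =
      E * (MvPolynomial.pderiv k (P i j) * Q i j - P i j * MvPolynomial.pderiv k (Q i j)) := by
    linear_combination (-Q i j) * hB1' + P i j * hB2'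
  have hA0 : B1 - B2 ≠ 0 := by
    intro h0
    rw [h0, mul_zero] at hA
    exact hk (sub_eq_zero.mp ((mul_eq_zero.mp hA.symm).resolve_left hE))
  have hAd : (B1 - B2).totalDegree ≤ m :=
    (MvPolynomial.totalDegree_sub _ _).trans (max_le hB1 hB2)
  have h1 : (T.filter fun x => MvPolynomial.eval x (B1 - B2) = 0).card ≤ m * S.card ^ n := by
    refine (Finset.card_le_card ?_).trans ((sz hA0 S).trans (Nat.mul_le_mul_right _ hAd))
    intro x hx
    rw [Finset.mem_filter] at hx ⊢
    exact ⟨Fintype.mem_piFinset.mpr (hT x hx.1).1, hx.2⟩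
  have h2 : (T.filter fun x => ¬ MvPolynomial.eval x (B1 - B2) = 0).card ≤ N * S.card ^ n := by
    let g : (Fin (n + 1) → K) → (Fin n → K) := fun x l => x (k.succAbove l)
    have himg : ((T.filter fun x => ¬ MvPolynomial.eval x (B1 - B2) = 0).image g).card ≤
        S.card ^ n := by
      have h3 : (Fintype.piFinset fun _ : Fin n => S).card = S.card ^ n := by simp
      rw [← h3]
      refine Finset.card_le_card ?_
      intro z hz
      obtain ⟨x, hx, rfl⟩ := Finset.mem_image.mp hz
      rw [Finset.mem_filter] at hx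
      exact Fintype.mem_piFinset.mpr fun l => (hT x hx.1).1 _
    refine (Finset.card_le_mul_card_image (f := g) _ N ?_).trans (Nat.mul_le_mul_left _ himg)
    intro z hz
    obtain ⟨x1, hx1, hz1⟩ := Finset.mem_image.mp hz
    rw [Finset.mem_filter] at hx1
    have hupd : ∀ x, g x = z → x = Function.update x1 k (x k) := by
      intro x hx
      funext l
      by_cases hl : l = k
      · subst hl; simp
      · rw [Function.update_of_ne hl]
        obtain ⟨m, rfl⟩ := Fin.exists_succAbove_eq hl
        exact congrFun (hx.trans hz1.symm) m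
    have hinj : Set.InjOn (fun x : Fin (n + 1) → K => x k)
        (((T.filter fun x => ¬ MvPolynomial.eval x (B1 - B2) = 0).filter fun x => g x = z :
          Finset _) : Set (Fin (n + 1) → K)) := by
      intro x hx y hy hxy
      rw [Finset.mem_coe, Finset.mem_filter] at hx hy
      rw [hupd x hx.2, hupd y hy.2]
      have hxy' : x k = y k := hxy
      rw [hxy']
    rw [← Finset.card_image_of_injOn hinj]
    have hE1 := (hT x1 hx1.1).2.1
    have hself : Function.update x1 k (x1 k) = x1 := Function.update_eq_self k x1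
    have hdvd : ∀ R : MvPolynomial (Fin (n + 1)) K, (∃ k : ℕ, R ∣ E ^ k) → ∃ r : ℕ,
        MvPolynomial.aeval (fun l => if l = k then (Polynomial.X : Polynomial K)
          else Polynomial.C (x1 l)) R ∣ (MvPolynomial.aeval (fun l => if l = k then
          (Polynomial.X : Polynomial K) else Polynomial.C (x1 l)) E) ^ r := by
      rintro R ⟨r, hr⟩
      refine ⟨r, ?_⟩
      rw [← map_pow]
      exact map_dvd _ hr
    have hdeg : ∀ (R : MvPolynomial (Fin (n + 1)) K) (d : ℕ), R.totalDegree ≤ d →
        (MvPolynomial.aeval (fun l => if l = k then (Polynomial.X : Polynomial K)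
          else Polynomial.C (x1 l)) R).natDegree ≤ d := by
      intro R d hR
      refine (MvPolynomial.aeval_natDegree_le (n := 1) R hR _ fun l => ?_).trans
        (by rw [mul_one])
      split_ifs
      · exact Polynomial.natDegree_X_le
      · rw [Polynomial.natDegree_C]; omega
    refine H (MvPolynomial.aeval (fun l => if l = k then (Polynomial.X : Polynomial K)
        else Polynomial.C (x1 l)) E)
      (fun i j => MvPolynomial.aeval (fun l => if l = k then (Polynomial.X : Polynomial K)
        else Polynomial.C (x1 l)) (P i j))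
      (fun i j => MvPolynomial.aeval (fun l => if l = k then (Polynomial.X : Polynomial K)
        else Polynomial.C (x1 l)) (Q i j))
      (fun i j => MvPolynomial.aeval (fun l => if l = k then (Polynomial.X : Polynomial K)
        else Polynomial.C (x1 l)) (R i j)) ?_ (hdeg _ _ hEm) (fun i j => hdvd _ (hPE i j))
        (fun i j => hdvd _ (hQE i j)) (fun i j => hdeg _ _ (hRd i j)) ?_ _ ?_
    · intro h0
      have h3 := eval_line k x1 E (x1 k)
      rw [h0, Polynomial.eval_zero, hself] at h3
      exact hE1 h3.symm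
    · refine ⟨i, j, fun c hc => hx1.2 ?_⟩
      have h3 := congrArg Polynomial.derivative hc
      rw [Polynomial.derivative_C_mul, deriv_line, deriv_line] at h3
      have h4 := congrArg (Polynomial.eval (x1 k)) h3
      have h5 := congrArg (Polynomial.eval (x1 k)) hc
      rw [Polynomial.eval_mul, Polynomial.eval_C, eval_line, eval_line, hself] at h4
      rw [Polynomial.eval_mul, Polynomial.eval_C, eval_line, eval_line, hself] at h5
      have h6 := congrArg (MvPolynomial.eval x1) hA
      rw [map_mul, map_mul, map_mul, map_sub, map_sub, map_mul, map_mul] at h6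
      have h7 : MvPolynomial.eval x1 (P i j) * MvPolynomial.eval x1 (Q i j) ≠ 0 :=
        mul_ne_zero (hev _ (hPE i j) _ hE1) (hev _ (hQE i j) _ hE1)
      rw [map_sub]
      apply mul_left_cancel₀ h7
      rw [h6, h4, h5]
      ring
    · intro t ht
      obtain ⟨x, hx, rfl⟩ := Finset.mem_image.mp ht
      rw [Finset.mem_filter, Finset.mem_filter] at hx
      have h3 := (hT x hx.1.1).2
      simp only [eval_line]
      rw [← hupd x hx.2]
      exact h3
  have h3 := Finset.card_filter_add_card_filter_not (s := T)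
    (fun x => MvPolynomial.eval x (B1 - B2) = 0)
  nlinarith [h1, h2, h3]

end Pool.Agent.H9.FE.Mv
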