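import Pool.Agent.H9.FE.Core

/-!
# Rational numbers
-/

set_option autoImplicit false

open Polynomial

namespace Pool.Agent.H9.FE

theorem zeros_finite {P : ℝ[X]} (hP : P ≠ 0) : {x | P.eval x = 0}.Finite :=
  (P.roots.toFinset.finite_toSet).subset fun x hx => by
    simpa [hP] using hx

theorem cast_eval (P : ℚ[X]) (x : ℚ) :
    ((P.eval x : ℚ) : ℝ) = (P.map (algebraMap ℚ ℝ)).eval (x : ℝ) := by
  have h := eval_map_algebraMap (B := ℝ) P (x : ℝ)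
  have h2 := aeval_algebraMap_apply_eq_algebraMap_eval (A := ℝ) x P
  simp only [eq_ratCast] at h2
  rw [h, h2]

theorem rat_matrix (P Q : Fin 2 → Fin 2 → ℚ[X]) (x : ℚ) :
    (Matrix.of fun i j => Real.log ((|(P i j).eval x / (Q i j).eval x| : ℚ) : ℝ)) =
      Matrix.of fun i j => fn ((P i j).map (algebraMap ℚ ℝ)) ((Q i j).map (algebraMap ℚ ℝ)) 0 (x : ℝ) := by
  ext i j
  simp only [Matrix.of_apply, fn, eval_zero, add_zero]
  push_cast
  rw [cast_eval, cast_eval]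

theorem int_entry (P Q : ℚ[X]) {b : ℚ} (hb : 0 < b) (n : ℤ)
    (hP : (P.map (algebraMap ℚ ℝ)).eval ((n : ℚ) : ℝ) ≠ 0)
    (hQ : (Q.map (algebraMap ℚ ℝ)).eval ((n : ℚ) : ℝ) ≠ 0) :
    Real.log ((b ^ n * |P.eval (n : ℚ) / Q.eval (n : ℚ)| : ℚ) : ℝ) =
      fn (P.map (algebraMap ℚ ℝ)) (Q.map (algebraMap ℚ ℝ)) (C (Real.log b) * X) ((n : ℚ) : ℝ) := by
  have hb' : (0 : ℝ) < b := by exact_mod_cast hb
  have h1 : |(P.map (algebraMap ℚ ℝ)).eval ((n : ℚ) : ℝ) /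
      (Q.map (algebraMap ℚ ℝ)).eval ((n : ℚ) : ℝ)| ≠ 0 := abs_ne_zero.mpr (div_ne_zero hP hQ)
  simp only [fn, eval_mul, eval_C, eval_X]
  rw [Rat.cast_mul, Rat.cast_zpow, Rat.cast_abs, Rat.cast_div, cast_eval, cast_eval,
    Real.log_mul (zpow_ne_zero _ hb'.ne') h1, Real.log_zpow]
  push_cast
  ring

end Pool.Agent.H9.FE
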