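import Pool.Agent.H9.FE.Fin
import Pool.Agent.H9.FE.Rat
import Pool.Agent.H9.FE.Mv
import Pool.Agent.H9.FE.Defs

/-!
# The four exponentials conjecture for the values of rational functions: the proof
-/

set_option autoImplicit false

open Polynomial

namespace Pool.Agent.H9.FE.St

theorem four_iff {M : Matrix (Fin 2) (Fin 2) ℝ} : Four M ↔ Pool.Agent.H9.FE.Four M := by
  unfold Four Pool.Agent.H9.FE.Four
  rw [Matrix.det_fin_two]
  rfl

theorem encard_le {α : Type} {S : Set α} {m : ℕ}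
    (h : ∀ T : Finset α, (∀ x ∈ T, x ∈ S) → T.card ≤ m) : S.encard ≤ m := by
  by_cases hS : S.Finite
  · rw [hS.encard_eq_coe_toFinset_card]
    exact_mod_cast h hS.toFinset fun x hx => hS.mem_toFinset.mp hx
  · obtain ⟨T, hT, hc⟩ := Set.Infinite.exists_subset_card_eq hS (m + 1)
    have := h T fun x hx => hT hx
    omega

theorem map_not_const {P Q : ℚ[X]} (hQ : Q ≠ 0) (h : ∀ c : ℚ, P ≠ C c * Q) (c : ℝ) :
    P.map (algebraMap ℚ ℝ) ≠ C c * Q.map (algebraMap ℚ ℝ) := by
  intro hc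
  have hl : (P.leadingCoeff : ℝ) = c * (Q.leadingCoeff : ℝ) := by
    have h2 := congrArg leadingCoeff hc
    rw [leadingCoeff_mul, leadingCoeff_C, leadingCoeff_map, leadingCoeff_map] at h2
    simpa using h2
  have hlQ : (Q.leadingCoeff : ℝ) ≠ 0 := by
    exact_mod_cast leadingCoeff_ne_zero.mpr hQ
  apply h (P.leadingCoeff / Q.leadingCoeff)
  apply Polynomial.map_injective (algebraMap ℚ ℝ) (RingHom.injective _)
  rw [hc, Polynomial.map_mul, map_C]
  congr 2
  rw [eq_ratCast, Rat.cast_div, hl, mul_div_cancel_right₀ _ hlQ]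

theorem Admissible.map {P Q : Fin 2 → Fin 2 → ℚ[X]} {d : ℕ} (h : Admissible P Q d) :
    Admissible (fun i j => (P i j).map (algebraMap ℚ ℝ)) (fun i j => (Q i j).map (algebraMap ℚ ℝ))
      d := by
  obtain ⟨i, j, hij⟩ := h.not_const
  exact ⟨fun i j => (Polynomial.map_ne_zero_iff (RingHom.injective _)).mpr (h.num i j),
    fun i j => (Polynomial.map_ne_zero_iff (RingHom.injective _)).mpr (h.den i j),
    fun i j => (natDegree_map_le).trans (h.deg_num i j),
    fun i j => (natDegree_map_le).trans (h.deg_den i j), ⟨i, j, map_not_const (h.den i j) hij⟩⟩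

theorem Regular.map {P Q : Fin 2 → Fin 2 → ℚ[X]} {x : ℚ} (h : Regular P Q x) :
    Regular (fun i j => (P i j).map (algebraMap ℚ ℝ)) (fun i j => (Q i j).map (algebraMap ℚ ℝ))
      (x : ℝ) := fun i j => by
  rw [← Pool.Agent.H9.FE.cast_eval, ← Pool.Agent.H9.FE.cast_eval]
  exact ⟨by exact_mod_cast (h i j).1, by exact_mod_cast (h i j).2⟩

/-- One variable. -/
theorem one_var :
    (∀ (d : ℕ) (P Q q : Fin 2 → Fin 2 → ℝ[X]), Admissible P Q d → (∀ i j, (q i j).natDegree ≤ d) →
      {x : ℝ | Regular P Q x ∧ ¬ Four (Matrix.of fun i j =>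
        Real.log |(P i j).eval x / (Q i j).eval x| + (q i j).eval x)}.encard ≤ 797 * d) ∧
    ∀ (d : ℕ) (P Q : Fin 2 → Fin 2 → ℚ[X]), Admissible P Q d →
      {x : ℚ | Regular P Q x ∧ ¬ FourExp fun i j => |(P i j).eval x / (Q i j).eval x|}.encard ≤
        797 * d ∧
      ∀ b : Fin 2 → Fin 2 → ℚ, (∀ i j, 0 < b i j) →
        {n : ℤ | Regular P Q (n : ℚ) ∧ ¬ FourExp fun i j =>
          b i j ^ n * |(P i j).eval (n : ℚ) / (Q i j).eval (n : ℚ)|}.encard ≤ 797 * d := by
  have h1 : ∀ (d : ℕ) (P Q q : Fin 2 → Fin 2 → ℝ[X]), Admissible P Q d →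
      (∀ i j, (q i j).natDegree ≤ d) →
      {x : ℝ | Regular P Q x ∧ ¬ Four (Matrix.of fun i j =>
        Real.log |(P i j).eval x / (Q i j).eval x| + (q i j).eval x)}.encard ≤ 797 * d := by
    intro d P Q q h hq
    have h2 := encard_le (S := {x : ℝ | Regular P Q x ∧ ¬ Four (Matrix.of fun i j =>
        Real.log |(P i j).eval x / (Q i j).eval x| + (q i j).eval x)}) (m := 797 * d) fun T hT =>
      Pool.Agent.H9.FE.unif h.num h.den h.deg_num h.deg_den hq h.not_const T fun x hx =>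
        ⟨(hT x hx).1, fun h3 => (hT x hx).2 (four_iff.mpr h3)⟩
    exact_mod_cast h2
  refine ⟨h1, fun d P Q h => ?_⟩
  have hd : 1 ≤ d := by
    by_contra hd
    obtain ⟨i, j, hij⟩ := h.not_const
    have hP := eq_C_of_natDegree_eq_zero (p := P i j) (by have := h.deg_num i j; omega)
    have hQ := eq_C_of_natDegree_eq_zero (p := Q i j) (by have := h.deg_den i j; omega)
    have h3 : (Q i j).coeff 0 ≠ 0 := by
      intro h4
      apply h.den i j
      rw [hQ, h4, C_0]
    apply hij ((P i j).coeff 0 / (Q i j).coeff 0)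
    rw [hP, hQ, ← C_mul, coeff_C_zero, coeff_C_zero, div_mul_cancel₀ _ h3]
  constructor
  · refine le_trans ?_ (h1 d _ _ (fun _ _ => 0) h.map fun _ _ => by simp)
    rw [← Function.Injective.encard_image (f := fun x : ℚ => (x : ℝ)) Rat.cast_injective]
    refine Set.encard_le_encard ?_
    rintro _ ⟨x, ⟨hx, hx'⟩, rfl⟩
    refine ⟨hx.map, fun h3 => hx' ?_⟩
    have h4 := Pool.Agent.H9.FE.rat_matrix P Q x
    unfold Pool.Agent.H9.FE.fn at h4
    change Four (Matrix.of fun i j => Real.log ((|(P i j).eval x / (Q i j).eval x| : ℚ) : ℝ))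
    rw [h4]
    exact h3
  · intro b hb
    refine le_trans ?_ (h1 d _ _ (fun i j => C (Real.log (b i j)) * X) h.map fun i j =>
      natDegree_mul_le.trans (by rw [natDegree_C, natDegree_X]; omega))
    have hinj : Function.Injective fun n : ℤ => ((n : ℚ) : ℝ) := fun m n h => by
      have h' : ((m : ℚ) : ℝ) = ((n : ℚ) : ℝ) := h
      exact_mod_cast h'
    rw [← Function.Injective.encard_image hinj]
    refine Set.encard_le_encard ?_
    rintro _ ⟨n, ⟨hn, hn'⟩, rfl⟩
    have h7 := hn.map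
    refine ⟨h7, fun h3 => hn' ?_⟩
    have h8 : (Matrix.of fun i j => Real.log
        ((b i j ^ n * |(P i j).eval (n : ℚ) / (Q i j).eval (n : ℚ)| : ℚ) : ℝ)) =
        Matrix.of fun i j => Pool.Agent.H9.FE.fn ((P i j).map (algebraMap ℚ ℝ))
          ((Q i j).map (algebraMap ℚ ℝ)) (C (Real.log (b i j)) * X) ((n : ℚ) : ℝ) := by
      ext i j
      exact Pool.Agent.H9.FE.int_entry (P i j) (Q i j) (hb i j) n (h7 i j).1 (h7 i j).2
    change Four (Matrix.of fun i j => Real.log
        ((b i j ^ n * |(P i j).eval (n : ℚ) / (Q i j).eval (n : ℚ)| : ℚ) : ℝ))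
    rw [h8]
    exact h3

theorem mv_not_const {n : ℕ} {P Q : MvPolynomial (Fin n) ℚ} (hQ : Q ≠ 0)
    (h : ∀ c : ℚ, P ≠ MvPolynomial.C c * Q) (c : ℝ) :
    MvPolynomial.map (algebraMap ℚ ℝ) P ≠ MvPolynomial.C c * MvPolynomial.map (algebraMap ℚ ℝ) Q := by
  intro hc
  obtain ⟨m, hm⟩ := MvPolynomial.ne_zero_iff.mp hQ
  have h2 := congrArg (MvPolynomial.coeff m) hc
  rw [MvPolynomial.coeff_C_mul, MvPolynomial.coeff_map, MvPolynomial.coeff_map, eq_ratCast,
    eq_ratCast] at h2
  have hmR : ((Q.coeff m : ℚ) : ℝ) ≠ 0 := by exact_mod_cast hm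
  apply h (P.coeff m / Q.coeff m)
  apply MvPolynomial.map_injective (algebraMap ℚ ℝ) (RingHom.injective _)
  rw [hc, map_mul, MvPolynomial.map_C]
  congr 2
  rw [eq_ratCast, Rat.cast_div, h2, mul_div_cancel_right₀ _ hmR]

theorem tdeg_map {n : ℕ} (P : MvPolynomial (Fin n) ℚ) :
    (MvPolynomial.map (algebraMap ℚ ℝ) P).totalDegree ≤ P.totalDegree := by
  rw [MvPolynomial.totalDegree, MvPolynomial.totalDegree]
  exact Finset.sup_mono (MvPolynomial.support_map_subset _ _)

theorem AdmissibleMv.map {n : ℕ} {P Q : Fin 2 → Fin 2 → MvPolynomial (Fin n) ℚ} {d : ℕ}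
    (h : AdmissibleMv P Q d) :
    AdmissibleMv (fun i j => MvPolynomial.map (algebraMap ℚ ℝ) (P i j))
      (fun i j => MvPolynomial.map (algebraMap ℚ ℝ) (Q i j)) d := by
  obtain ⟨i, j, hij⟩ := h.not_const
  have hinj := MvPolynomial.map_injective (σ := Fin n) (algebraMap ℚ ℝ) (RingHom.injective _)
  exact ⟨fun i j => (map_ne_zero_iff _ hinj).mpr (h.num i j),
    fun i j => (map_ne_zero_iff _ hinj).mpr (h.den i j),
    fun i j => (tdeg_map _).trans (h.deg_num i j),
    fun i j => (tdeg_map _).trans (h.deg_den i j),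
    ⟨i, j, mv_not_const (h.den i j) hij⟩⟩

theorem mv_cast_eval {n : ℕ} (P : MvPolynomial (Fin n) ℚ) (x : Fin n → ℚ) :
    ((MvPolynomial.eval x P : ℚ) : ℝ) =
      MvPolynomial.eval (fun k => (x k : ℝ)) (MvPolynomial.map (algebraMap ℚ ℝ) P) := by
  rw [MvPolynomial.eval_map]
  have h := MvPolynomial.eval₂_comp_left (algebraMap ℚ ℝ) (RingHom.id ℚ) x P
  rw [RingHom.comp_id] at h
  rw [← eq_ratCast (algebraMap ℚ ℝ), MvPolynomial.eval, MvPolynomial.coe_eval₂Hom, h]
  rfl

theorem RegularMv.map {n : ℕ} {P Q : Fin 2 → Fin 2 → MvPolynomial (Fin n) ℚ} {x : Fin n → ℚ}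
    (h : RegularMv P Q x) :
    RegularMv (fun i j => MvPolynomial.map (algebraMap ℚ ℝ) (P i j))
      (fun i j => MvPolynomial.map (algebraMap ℚ ℝ) (Q i j)) (fun k => (x k : ℝ)) := fun i j => by
  rw [← mv_cast_eval, ← mv_cast_eval]
  exact ⟨by exact_mod_cast (h i j).1, by exact_mod_cast (h i j).2⟩

/-- Several real variables. -/
theorem mv_real (n d : ℕ) (P Q q : Fin 2 → Fin 2 → MvPolynomial (Fin (n + 1)) ℝ)
    (h : AdmissibleMv P Q d) (hq : ∀ i j, (q i j).totalDegree ≤ d) (S : Finset ℝ) :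
    {x : Fin (n + 1) → ℝ | (∀ k, x k ∈ S) ∧ RegularMv P Q x ∧ ¬ Four (Matrix.of fun i j =>
      Real.log |MvPolynomial.eval x (P i j) / MvPolynomial.eval x (Q i j)| +
        MvPolynomial.eval x (q i j))}.encard ≤ 799 * d * S.card ^ n := by
  classical
  have h1 := encard_le (S := {x : Fin (n + 1) → ℝ | (∀ k, x k ∈ S) ∧ RegularMv P Q x ∧
      ¬ Four (Matrix.of fun i j =>
      Real.log |MvPolynomial.eval x (P i j) / MvPolynomial.eval x (Q i j)| +
        MvPolynomial.eval x (q i j))}) (m := (797 * d + 2 * d) * S.card ^ n) fun T hT =>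
    Pool.Agent.H9.FE.Mv.count
      (B := fun u v w => (∀ i j, u i j ≠ 0 ∧ v i j ≠ 0) ∧
        ¬ Four (Matrix.of fun i j => Real.log |u i j / v i j| + w i j))
      (fun u v w h => h.1) (by
        intro p q r hp hq hpd hqd hrd hne T hT
        have h2 := one_var.1 d p q r ⟨hp, hq, hpd, hqd, hne⟩ hrd
        have h3 : (T : Set ℝ).encard ≤ 797 * d := by
          refine le_trans (Set.encard_le_encard ?_) h2
          intro t ht
          have h4 := hT t ht
          exact ⟨h4.1, h4.2⟩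
        rw [Set.encard_coe_eq_coe_finsetCard] at h3
        exact_mod_cast h3)
      h.den h.deg_num h.deg_den hq h.not_const S T
      fun x hx => ⟨(hT x hx).1, (hT x hx).2.1, (hT x hx).2.2⟩
  have h2 : (797 * d + 2 * d) * S.card ^ n = 799 * d * S.card ^ n := by ring
  rw [h2] at h1
  exact_mod_cast h1

/-- The main theorem. -/
theorem main :
    (∀ (d : ℕ) (P Q q : Fin 2 → Fin 2 → ℝ[X]), Admissible P Q d → (∀ i j, (q i j).natDegree ≤ d) →
      {x : ℝ | Regular P Q x ∧ ¬ Four (Matrix.of fun i j =>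
        Real.log |(P i j).eval x / (Q i j).eval x| + (q i j).eval x)}.encard ≤ 797 * d) ∧
    (∀ (d : ℕ) (P Q : Fin 2 → Fin 2 → ℚ[X]), Admissible P Q d →
      {x : ℚ | Regular P Q x ∧ ¬ FourExp fun i j => |(P i j).eval x / (Q i j).eval x|}.encard ≤
        797 * d ∧
      ∀ b : Fin 2 → Fin 2 → ℚ, (∀ i j, 0 < b i j) →
        {n : ℤ | Regular P Q (n : ℚ) ∧ ¬ FourExp fun i j =>
          b i j ^ n * |(P i j).eval (n : ℚ) / (Q i j).eval (n : ℚ)|}.encard ≤ 797 * d) ∧
    (∀ (n d : ℕ) (P Q q : Fin 2 → Fin 2 → MvPolynomial (Fin (n + 1)) ℝ), AdmissibleMv P Q d →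
      (∀ i j, (q i j).totalDegree ≤ d) → ∀ S : Finset ℝ,
      {x : Fin (n + 1) → ℝ | (∀ k, x k ∈ S) ∧ RegularMv P Q x ∧ ¬ Four (Matrix.of fun i j =>
        Real.log |MvPolynomial.eval x (P i j) / MvPolynomial.eval x (Q i j)| +
          MvPolynomial.eval x (q i j))}.encard ≤ 799 * d * S.card ^ n) ∧
    ∀ (n d : ℕ) (P Q : Fin 2 → Fin 2 → MvPolynomial (Fin (n + 1)) ℚ), AdmissibleMv P Q d →
      (∀ S : Finset ℚ, {x : Fin (n + 1) → ℚ | (∀ k, x k ∈ S) ∧ RegularMv P Q x ∧
        ¬ FourExp fun i j => |MvPolynomial.eval x (P i j) / MvPolynomial.eval x (Q i j)|}.encard ≤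
          799 * d * S.card ^ n) ∧
      ∀ b : Fin 2 → Fin 2 → Fin (n + 1) → ℚ, (∀ i j k, 0 < b i j k) → ∀ S : Finset ℤ,
        {x : Fin (n + 1) → ℤ | (∀ k, x k ∈ S) ∧ RegularMv P Q (fun k => (x k : ℚ)) ∧
          ¬ FourExp fun i j => (∏ k, b i j k ^ x k) *
            |MvPolynomial.eval (fun k => (x k : ℚ)) (P i j) /
              MvPolynomial.eval (fun k => (x k : ℚ)) (Q i j)|}.encard ≤ 799 * d * S.card ^ n := by
  classical
  refine ⟨one_var.1, one_var.2, mv_real, fun n d P Q h => ?_⟩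
  have hd : 1 ≤ d := by
    by_contra hd
    obtain ⟨i, j, hij⟩ := h.not_const
    have hP := MvPolynomial.totalDegree_eq_zero_iff_eq_C.mp
      (show (P i j).totalDegree = 0 by have := h.deg_num i j; omega)
    have hQ := MvPolynomial.totalDegree_eq_zero_iff_eq_C.mp
      (show (Q i j).totalDegree = 0 by have := h.deg_den i j; omega)
    have h3 : (Q i j).coeff 0 ≠ 0 := by
      intro h4
      apply h.den i j
      rw [hQ, h4, MvPolynomial.C_0]
    apply hij ((P i j).coeff 0 / (Q i j).coeff 0)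
    rw [hP, hQ, ← MvPolynomial.C_mul, MvPolynomial.coeff_C, MvPolynomial.coeff_C, if_pos rfl,
      if_pos rfl, div_mul_cancel₀ _ h3]
  constructor
  · intro S
    have h1 := mv_real n d _ _ (fun _ _ => 0) h.map (fun _ _ => by simp)
      (S.image fun x : ℚ => (x : ℝ))
    rw [Finset.card_image_of_injective _ Rat.cast_injective] at h1
    refine le_trans ?_ h1
    have hinj : Function.Injective fun (x : Fin (n + 1) → ℚ) (k : Fin (n + 1)) => (x k : ℝ) := by
      intro x y hxy
      funext k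
      have h2 : (x k : ℝ) = (y k : ℝ) := congrFun hxy k
      exact_mod_cast h2
    rw [← Function.Injective.encard_image hinj]
    refine Set.encard_le_encard ?_
    rintro _ ⟨x, ⟨hxS, hx, hx'⟩, rfl⟩
    refine ⟨fun k => Finset.mem_image_of_mem _ (hxS k), hx.map, fun h3 => hx' ?_⟩
    have h8 : (Matrix.of fun i j => Real.log
        ((|MvPolynomial.eval x (P i j) / MvPolynomial.eval x (Q i j)| : ℚ) : ℝ)) =
        Matrix.of fun i j => Real.log
          |MvPolynomial.eval (fun k => (x k : ℝ)) (MvPolynomial.map (algebraMap ℚ ℝ) (P i j)) /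
            MvPolynomial.eval (fun k => (x k : ℝ)) (MvPolynomial.map (algebraMap ℚ ℝ) (Q i j))| +
          MvPolynomial.eval (fun k => (x k : ℝ)) 0 := by
      ext i j
      simp only [Matrix.of_apply, map_zero, add_zero]
      rw [← mv_cast_eval, ← mv_cast_eval, Rat.cast_abs, Rat.cast_div]
    change Four (Matrix.of fun i j => Real.log
      ((|MvPolynomial.eval x (P i j) / MvPolynomial.eval x (Q i j)| : ℚ) : ℝ))
    rw [h8]
    exact h3
  · intro b hb S
    have h1 := mv_real n d _ _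
      (fun i j => ∑ k, MvPolynomial.C (Real.log (b i j k)) * MvPolynomial.X k) h.map
      (fun i j => by
        refine MvPolynomial.totalDegree_finsetSum_le fun k _ => ?_
        refine (MvPolynomial.totalDegree_mul _ _).trans ?_
        rw [MvPolynomial.totalDegree_C, MvPolynomial.totalDegree_X]
        omega)
      (S.image fun x : ℤ => ((x : ℚ) : ℝ))
    have hinj0 : Function.Injective fun x : ℤ => ((x : ℚ) : ℝ) := fun m n h => by
      have h' : ((m : ℚ) : ℝ) = ((n : ℚ) : ℝ) := h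
      exact_mod_cast h'
    rw [Finset.card_image_of_injective _ hinj0] at h1
    refine le_trans ?_ h1
    have hinj : Function.Injective
        fun (x : Fin (n + 1) → ℤ) (k : Fin (n + 1)) => ((x k : ℚ) : ℝ) := by
      intro x y hxy
      funext k
      exact hinj0 (congrFun hxy k)
    rw [← Function.Injective.encard_image hinj]
    refine Set.encard_le_encard ?_
    rintro _ ⟨x, ⟨hxS, hx, hx'⟩, rfl⟩
    refine ⟨fun k => Finset.mem_image_of_mem _ (hxS k), hx.map, fun h3 => hx' ?_⟩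
    have h8 : (Matrix.of fun i j => Real.log
        (((∏ k, b i j k ^ x k) * |MvPolynomial.eval (fun k => (x k : ℚ)) (P i j) /
          MvPolynomial.eval (fun k => (x k : ℚ)) (Q i j)| : ℚ) : ℝ)) =
        Matrix.of fun i j => Real.log
          |MvPolynomial.eval (fun k => ((x k : ℚ) : ℝ)) (MvPolynomial.map (algebraMap ℚ ℝ) (P i j)) /
            MvPolynomial.eval (fun k => ((x k : ℚ) : ℝ))
              (MvPolynomial.map (algebraMap ℚ ℝ) (Q i j))| +
          MvPolynomial.eval (fun k => ((x k : ℚ) : ℝ))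
            (∑ k, MvPolynomial.C (Real.log (b i j k)) * MvPolynomial.X k) := by
      ext i j
      simp only [Matrix.of_apply]
      have hb' : ∀ k, (0 : ℝ) < b i j k := fun k => by exact_mod_cast hb i j k
      have h4 : |((MvPolynomial.eval (fun k => (x k : ℚ)) (P i j) : ℚ) : ℝ) /
          ((MvPolynomial.eval (fun k => (x k : ℚ)) (Q i j) : ℚ) : ℝ)| ≠ 0 := by
        refine abs_ne_zero.mpr (div_ne_zero ?_ ?_)
        · exact_mod_cast (hx i j).1
        · exact_mod_cast (hx i j).2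
      rw [← mv_cast_eval, ← mv_cast_eval, Rat.cast_mul, Rat.cast_abs, Rat.cast_div, Rat.cast_prod,
        Real.log_mul (Finset.prod_ne_zero_iff.mpr fun k _ => by
          rw [Rat.cast_zpow]; exact zpow_ne_zero _ (hb' k).ne') h4, add_comm]
      congr 1
      rw [Real.log_prod fun k _ => by
          rw [Rat.cast_zpow]; exact zpow_ne_zero _ (hb' k).ne', map_sum]
      refine Finset.sum_congr rfl fun k _ => ?_
      rw [Rat.cast_zpow, Real.log_zpow, map_mul, MvPolynomial.eval_C, MvPolynomial.eval_X,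
        Rat.cast_intCast]
      ring
    change Four (Matrix.of fun i j => Real.log
        (((∏ k, b i j k ^ x k) * |MvPolynomial.eval (fun k => (x k : ℚ)) (P i j) /
          MvPolynomial.eval (fun k => (x k : ℚ)) (Q i j)| : ℚ) : ℝ))
    rw [h8]
    exact h3

end Pool.Agent.H9.FE.St
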