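import Pool.Agent.H9.FE.Glob

/-!
# Rational functions
-/

set_option autoImplicit false

open Filter Topology Polynomial

namespace Pool.Agent.H9.FE

theorem an_log {g : ℝ → ℝ} (hg : AnalyticAt ℝ g 0) (h0 : g 0 ≠ 0) :
    AnalyticAt ℝ (fun t => Real.log (g t)) 0 := by
  rcases lt_or_gt_of_ne h0 with h | h
  · have h1 : AnalyticAt ℝ (fun t => Real.log (-g t)) 0 := hg.fun_neg.log (by simpa using h)
    simpa only [Real.log_neg_eq_log] using h1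
  · exact hg.log h

theorem an_eval (P : ℝ[X]) (ξ : ℝ) : AnalyticAt ℝ (fun t => P.eval (ξ + t)) 0 := by
  have h := AnalyticOnNhd.eval_polynomial (𝕜 := ℝ) (P.comp (C ξ + X)) 0 (Set.mem_univ _)
  simpa using h

theorem poly_fin {P : ℝ[X]} (hP : P ≠ 0) (ξ : ℝ) :
    ∃ u : ℝ → ℝ, AnalyticAt ℝ u 0 ∧ ∀ᶠ t in 𝓝[≠] 0, P.eval (ξ + t) ≠ 0 ∧
      Real.log (P.eval (ξ + t)) = u t + (P.rootMultiplicity ξ : ℝ) * Real.log t := by
  obtain ⟨R, hR, hd⟩ := exists_eq_pow_rootMultiplicity_mul_and_not_dvd P hP ξ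
  have h0 : R.eval (ξ + 0) ≠ 0 := by
    rw [add_zero]
    exact fun h => hd (dvd_iff_isRoot.mpr h)
  refine ⟨fun t => Real.log (R.eval (ξ + t)), an_log (an_eval R ξ) h0, ?_⟩
  have h1 : ∀ᶠ t in 𝓝[≠] (0 : ℝ), R.eval (ξ + t) ≠ 0 :=
    eventually_nhdsWithin_of_eventually_nhds ((an_eval R ξ).continuousAt.eventually_ne h0)
  filter_upwards [h1, self_mem_nhdsWithin] with t h2 h3
  have h4 : P.eval (ξ + t) = t ^ P.rootMultiplicity ξ * R.eval (ξ + t) := by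
    conv_lhs => rw [hR]
    simp
  have h5 : t ^ P.rootMultiplicity ξ ≠ 0 := pow_ne_zero _ h3
  rw [h4]
  refine ⟨mul_ne_zero h5 h2, ?_⟩
  rw [Real.log_mul h5 h2, Real.log_pow]
  ring

theorem eval_inv (P : ℝ[X]) {t : ℝ} (ht : t ≠ 0) :
    P.eval t⁻¹ = P.reverse.eval t * t⁻¹ ^ P.natDegree := by
  let _ : Invertible (t⁻¹) := invertibleOfNonzero (inv_ne_zero ht)
  have h := eval₂_reverse_mul_pow (RingHom.id ℝ) t⁻¹ P
  rw [invOf_eq_inv, inv_inv] at h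
  exact h.symm

theorem poly_inf {P : ℝ[X]} (hP : P ≠ 0) :
    ∃ u : ℝ → ℝ, AnalyticAt ℝ u 0 ∧ ∀ᶠ t in 𝓝[≠] 0, P.eval t⁻¹ ≠ 0 ∧
      Real.log (P.eval t⁻¹) = u t - (P.natDegree : ℝ) * Real.log t := by
  have h0 : P.reverse.eval 0 ≠ 0 := by
    rw [← coeff_zero_eq_eval_zero, coeff_zero_reverse]
    exact leadingCoeff_ne_zero.mpr hP
  have ha : AnalyticAt ℝ (fun t => P.reverse.eval t) 0 := by
    simpa using an_eval P.reverse 0
  refine ⟨fun t => Real.log (P.reverse.eval t), an_log ha h0, ?_⟩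
  have h1 : ∀ᶠ t in 𝓝[≠] (0 : ℝ), P.reverse.eval t ≠ 0 :=
    eventually_nhdsWithin_of_eventually_nhds (ha.continuousAt.eventually_ne h0)
  filter_upwards [h1, self_mem_nhdsWithin] with t h2 h3
  have h5 : t⁻¹ ^ P.natDegree ≠ 0 := pow_ne_zero _ (inv_ne_zero h3)
  rw [eval_inv P h3]
  refine ⟨mul_ne_zero h2 h5, ?_⟩
  rw [Real.log_mul h2 h5, Real.log_pow, Real.log_inv]
  ring

theorem q_inf (q : ℝ[X]) {K : ℕ} (hK : q.natDegree ≤ K) :
    ∃ u : ℝ → ℝ, AnalyticAt ℝ u 0 ∧ ∀ t : ℝ, t ≠ 0 → t ^ K * q.eval t⁻¹ = u t := by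
  have ha : AnalyticAt ℝ (fun t => q.reverse.eval t) 0 := by
    simpa using an_eval q.reverse 0
  refine ⟨fun t => t ^ (K - q.natDegree) * q.reverse.eval t, (analyticAt_id.pow _).mul ha, ?_⟩
  intro t ht
  rw [eval_inv q ht]
  have h : t ^ K = t ^ (K - q.natDegree) * t ^ q.natDegree := by
    rw [← pow_add, Nat.sub_add_cancel hK]
  have h1 : t ^ q.natDegree * t⁻¹ ^ q.natDegree = 1 := by
    rw [← mul_pow, mul_inv_cancel₀ ht, one_pow]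
  rw [h]
  linear_combination t ^ (K - q.natDegree) * q.reverse.eval t * h1

/-- `log |P / Q| + q` -/
noncomputable def fn (P Q q : ℝ[X]) (x : ℝ) : ℝ := Real.log |P.eval x / Q.eval x| + q.eval x

theorem LF_fin {P Q : ℝ[X]} (hP : P ≠ 0) (hQ : Q ≠ 0) (q : ℝ[X]) (ξ : ℝ) :
    ∃ u, LF (fun t => ξ + t) 0 (fn P Q q) u (P.rootMultiplicity ξ - Q.rootMultiplicity ξ) := by
  obtain ⟨u, h1, h2⟩ := poly_fin hP ξ
  obtain ⟨v, h3, h4⟩ := poly_fin hQ ξ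
  refine ⟨fun t => u t - v t + q.eval (ξ + t), (h1.sub h3).add (an_eval q ξ), ?_⟩
  filter_upwards [h2, h4] with t h5 h6
  unfold fn
  rw [Real.log_abs, Real.log_div h5.1 h6.1, h5.2, h6.2]
  push_cast
  ring

theorem LF_inf {P Q : ℝ[X]} (hP : P ≠ 0) (hQ : Q ≠ 0) (q : ℝ[X]) {K : ℕ}
    (hK : q.natDegree ≤ K) :
    ∃ u, LF (fun t => t⁻¹) K (fn P Q q) u (Q.natDegree - P.natDegree) := by
  obtain ⟨u, h1, h2⟩ := poly_inf hP
  obtain ⟨v, h3, h4⟩ := poly_inf hQ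
  obtain ⟨w, h5, h6⟩ := q_inf q hK
  refine ⟨fun t => t ^ K * (u t - v t) + w t,
    ((analyticAt_id.pow K).mul (h1.sub h3)).add h5, ?_⟩
  filter_upwards [h2, h4, self_mem_nhdsWithin] with t h7 h8 h9
  unfold fn
  rw [Real.log_abs, Real.log_div h7.1 h8.1, h7.2, h8.2, mul_add, h6 t h9]
  push_cast
  ring

end Pool.Agent.H9.FE
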