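import Pool.Agent.H9.FE.Core

/-!
# Complex-valued local forms
-/

set_option autoImplicit false

open Filter Topology Polynomial

namespace Pool.Agent.H9.FE

theorem right_le : (𝓝[>] (0 : ℝ)) ≤ 𝓝[≠] 0 :=
  nhdsWithin_mono 0 fun _ hx => ne_of_gt hx

theorem mainC {A B C : ℝ → ℂ} (hA : AnalyticAt ℝ A 0) (hB : AnalyticAt ℝ B 0)
    (hC : AnalyticAt ℝ C 0)
    (h : ∀ᶠ t in 𝓝[>] (0 : ℝ), A t * (Real.log t : ℂ) ^ 2 + B t * (Real.log t : ℂ) + C t = 0) :
    (∀ᶠ t in 𝓝 0, A t = 0) ∧ (∀ᶠ t in 𝓝 0, B t = 0) ∧ ∀ᶠ t in 𝓝 0, C t = 0 := by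
  have hre : ∀ {f : ℝ → ℂ}, AnalyticAt ℝ f 0 → AnalyticAt ℝ (fun t => (f t).re) 0 :=
    fun hf => (Complex.reCLM.analyticAt _).comp hf
  have him : ∀ {f : ℝ → ℂ}, AnalyticAt ℝ f 0 → AnalyticAt ℝ (fun t => (f t).im) 0 :=
    fun hf => (Complex.imCLM.analyticAt _).comp hf
  have e1 : ∀ t : ℝ, (A t * (Real.log t : ℂ) ^ 2 + B t * (Real.log t : ℂ) + C t).re =
      (A t).re * Real.log t ^ 2 + (B t).re * Real.log t + (C t).re := by
    intro t
    rw [Complex.add_re, Complex.add_re, ← Complex.ofReal_pow, Complex.re_mul_ofReal,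
      Complex.re_mul_ofReal]
  have e2 : ∀ t : ℝ, (A t * (Real.log t : ℂ) ^ 2 + B t * (Real.log t : ℂ) + C t).im =
      (A t).im * Real.log t ^ 2 + (B t).im * Real.log t + (C t).im := by
    intro t
    rw [Complex.add_im, Complex.add_im, ← Complex.ofReal_pow, Complex.im_mul_ofReal,
      Complex.im_mul_ofReal]
  have h1 := (main (hre hA) (hre hB) (hre hC)).resolve_left (by
    intro h'
    obtain ⟨t, h2, h3⟩ := (h.and (right_le h')).exists
    exact h3 (by rw [← e1, h2, Complex.zero_re]))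
  have h2 := (main (him hA) (him hB) (him hC)).resolve_left (by
    intro h'
    obtain ⟨t, h2, h3⟩ := (h.and (right_le h')).exists
    exact h3 (by rw [← e2, h2, Complex.zero_im]))
  refine ⟨?_, ?_, ?_⟩
  · filter_upwards [h1.1, h2.1] with t h3 h4
    exact Complex.ext h3 h4
  · filter_upwards [h1.2.1, h2.2.1] with t h3 h4
    exact Complex.ext h3 h4
  · filter_upwards [h1.2.2, h2.2.2] with t h3 h4
    exact Complex.ext h3 h4

/-- The local form of a complex-valued function of `t > 0`. -/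
def LFC (F u : ℝ → ℂ) (d : ℤ) : Prop :=
  AnalyticAt ℝ u 0 ∧ ∀ᶠ t in 𝓝[>] (0 : ℝ), F t = u t + d * (Real.log t : ℂ)

/-- Dependence of the columns or the rows, complex version. -/
def DepC (l : Filter ℝ) (a b c e : ℝ → ℂ) : Prop :=
  (∃ r s : ℚ, ¬ (r = 0 ∧ s = 0) ∧ ∀ᶠ t in l, r * a t + s * b t = 0 ∧ r * c t + s * e t = 0) ∨
    (∃ r s : ℚ, ¬ (r = 0 ∧ s = 0) ∧ ∀ᶠ t in l, r * a t + s * c t = 0 ∧ r * b t + s * e t = 0)

section four

variable {a b c e ua ub uc ue : ℝ → ℂ} {da db dc de : ℤ}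
  (ha : LFC a ua da) (hb : LFC b ub db) (hc : LFC c uc dc) (he : LFC e ue de)

include ha hb hc he

theorem singC (hda : da ≠ 0) (h0 : ∀ᶠ t in 𝓝[>] (0 : ℝ), a t * e t - b t * c t = 0) :
    DepC (𝓝[>] 0) a b c e := by
  have hda' : (da : ℂ) ≠ 0 := by exact_mod_cast hda
  have n1 : AnalyticAt ℝ (fun _ : ℝ => (da * de - db * dc : ℂ)) 0 := analyticAt_const
  have n2 : AnalyticAt ℝ (fun t : ℝ => da * ue t + de * ua t - db * uc t - dc * ub t) 0 :=
    (((analyticAt_const.mul he.1).add (analyticAt_const.mul ha.1)).sub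
      (analyticAt_const.mul hc.1)).sub (analyticAt_const.mul hb.1)
  have n3 : AnalyticAt ℝ (fun t : ℝ => ua t * ue t - ub t * uc t) 0 :=
    (ha.1.mul he.1).sub (hb.1.mul hc.1)
  obtain ⟨z1, z2, z3⟩ := mainC n1 n2 n3 (by
    filter_upwards [ha.2, hb.2, hc.2, he.2, h0] with t h1 h2 h3 h4 h5
    rw [h1, h2, h3, h4] at h5
    linear_combination h5)
  have hd : (da : ℂ) * de - db * dc = 0 := z1.self_of_nhds
  have hprod : ∀ᶠ t in 𝓝 (0 : ℝ), (da * ub t - db * ua t) * (da * uc t - dc * ua t) = 0 := by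
    filter_upwards [z2, z3] with t h4 h2
    linear_combination (-(da : ℂ) ^ 2) * h2 + da * ua t * h4 - ua t ^ 2 * hd
  have m1 : AnalyticAt ℝ (fun t => (da : ℂ) * ub t - db * ua t) 0 :=
    (analyticAt_const.mul hb.1).sub (analyticAt_const.mul ha.1)
  have hor : (∀ᶠ t in 𝓝[≠] (0 : ℝ), (da : ℂ) * ub t - db * ua t = 0) ∨
      ∀ᶠ t in 𝓝[≠] (0 : ℝ), (da : ℂ) * uc t - dc * ua t = 0 := by
    rcases m1.eventually_eq_zero_or_eventually_ne_zero with h1 | h1
    · exact Or.inl (eventually_nhdsWithin_of_eventually_nhds h1)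
    · right
      filter_upwards [h1, eventually_nhdsWithin_of_eventually_nhds hprod] with t h2 h3
      exact (mul_eq_zero.mp h3).resolve_left h2
  have z2' := eventually_nhdsWithin_of_eventually_nhds (s := Set.Ioi (0 : ℝ)) z2
  rcases hor with h | h
  · left
    refine ⟨db, -da, fun h' => hda ?_, ?_⟩
    · have := h'.2
      rw [neg_eq_zero] at this
      exact_mod_cast this
    filter_upwards [right_le h, z2', ha.2, hb.2, hc.2, he.2] with t h1 h2 h3 h4 h5 h6
    push_cast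
    constructor
    · rw [h3, h4]
      linear_combination -h1
    · refine (mul_eq_zero.mp (?_ : (da : ℂ) * (db * c t + -da * e t) = 0)).resolve_left hda'
      rw [h5, h6]
      linear_combination (-(da : ℂ)) * h2 - (dc : ℂ) * h1 + (ua t - da * Real.log t) * hd
  · right
    refine ⟨dc, -da, fun h' => hda ?_, ?_⟩
    · have := h'.2
      rw [neg_eq_zero] at this
      exact_mod_cast this
    filter_upwards [right_le h, z2', ha.2, hb.2, hc.2, he.2] with t h1 h2 h3 h4 h5 h6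
    push_cast
    constructor
    · rw [h3, h5]
      linear_combination -h1
    · refine (mul_eq_zero.mp (?_ : (da : ℂ) * (dc * b t + -da * e t) = 0)).resolve_left hda'
      rw [h4, h6]
      linear_combination (-(da : ℂ)) * h2 - (db : ℂ) * h1 + (ua t - da * Real.log t) * hd

end four

section four

variable {a b c e ua ub uc ue : ℝ → ℂ} {da db dc de : ℤ}
  (ha : LFC a ua da) (hb : LFC b ub db) (hc : LFC c uc dc) (he : LFC e ue de)

include ha hb hc he

theorem sing4C (hd : da ≠ 0 ∨ db ≠ 0 ∨ dc ≠ 0 ∨ de ≠ 0)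
    (h0 : ∀ᶠ t in 𝓝[>] (0 : ℝ), a t * e t - b t * c t = 0) : DepC (𝓝[>] 0) a b c e := by
  rcases hd with hd | hd | hd | hd
  · exact singC ha hb hc he hd h0
  · rcases singC hb ha he hc hd (h0.mono fun t h => by linear_combination -h) with
      ⟨r, s, h1, h2⟩ | ⟨r, s, h1, h2⟩
    · exact Or.inl ⟨s, r, fun h => h1 ⟨h.2, h.1⟩, h2.mono fun t h =>
        ⟨by linear_combination h.1, by linear_combination h.2⟩⟩
    · exact Or.inr ⟨r, s, h1, h2.mono fun t h => ⟨h.2, h.1⟩⟩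
  · rcases singC hc he ha hb hd (h0.mono fun t h => by linear_combination -h) with
      ⟨r, s, h1, h2⟩ | ⟨r, s, h1, h2⟩
    · exact Or.inl ⟨r, s, h1, h2.mono fun t h => ⟨h.2, h.1⟩⟩
    · exact Or.inr ⟨s, r, fun h => h1 ⟨h.2, h.1⟩, h2.mono fun t h =>
        ⟨by linear_combination h.1, by linear_combination h.2⟩⟩
  · rcases singC he hc hb ha hd (h0.mono fun t h => by linear_combination h) with
      ⟨r, s, h1, h2⟩ | ⟨r, s, h1, h2⟩
    · exact Or.inl ⟨s, r, fun h => h1 ⟨h.2, h.1⟩, h2.mono fun t h =>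
        ⟨by linear_combination h.2, by linear_combination h.1⟩⟩
    · exact Or.inr ⟨s, r, fun h => h1 ⟨h.2, h.1⟩, h2.mono fun t h =>
        ⟨by linear_combination h.2, by linear_combination h.1⟩⟩

end four

end Pool.Agent.H9.FE
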