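import Pool.Agent.H9.FE.All
import Pool.Agent.H9.FE.Count

/-!
# The uniform bound
-/

set_option autoImplicit false
set_option linter.unusedSectionVars false

open Filter Topology Polynomial

noncomputable section

namespace Pool.Agent.H9.FE

theorem Cls.add {F H : ℝ → ℝ} (hF : Cls F) (hH : Cls H) : Cls fun x => F x + H x := by
  constructor
  · intro ξ
    obtain ⟨A, B, C, hA, hB, hC, h⟩ := hF.1 ξ
    obtain ⟨A', B', C', hA', hB', hC', h'⟩ := hH.1 ξ
    refine ⟨fun t => A t + A' t, fun t => B t + B' t, fun t => C t + C' t, hA.add hA', hB.add hB',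
      hC.add hC', ?_⟩
    filter_upwards [h, h'] with t h1 h2
    rw [h1, h2]
    ring
  · obtain ⟨K, A, B, C, hA, hB, hC, h⟩ := hF.2
    obtain ⟨K', A', B', C', hA', hB', hC', h'⟩ := hH.2
    refine ⟨K + K', fun t => t ^ K' * A t + t ^ K * A' t, fun t => t ^ K' * B t + t ^ K * B' t,
      fun t => t ^ K' * C t + t ^ K * C' t,
      ((analyticAt_id.pow K').mul hA).add ((analyticAt_id.pow K).mul hA'),
      ((analyticAt_id.pow K').mul hB).add ((analyticAt_id.pow K).mul hB'),
      ((analyticAt_id.pow K').mul hC).add ((analyticAt_id.pow K).mul hC'), ?_⟩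
    filter_upwards [h, h'] with t h1 h2
    rw [pow_add]
    linear_combination t ^ K' * h1 + t ^ K * h2

theorem Cls.polyMul (c : ℝ[X]) {F : ℝ → ℝ} (hF : Cls F) : Cls fun x => c.eval x * F x := by
  constructor
  · intro ξ
    obtain ⟨A, B, C, hA, hB, hC, h⟩ := hF.1 ξ
    refine ⟨fun t => c.eval (ξ + t) * A t, fun t => c.eval (ξ + t) * B t,
      fun t => c.eval (ξ + t) * C t, (an_eval c ξ).mul hA, (an_eval c ξ).mul hB,
      (an_eval c ξ).mul hC, ?_⟩
    filter_upwards [h] with t h1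
    rw [h1]
    ring
  · obtain ⟨K, A, B, C, hA, hB, hC, h⟩ := hF.2
    obtain ⟨w, hw, hw'⟩ := q_inf c le_rfl
    refine ⟨K + c.natDegree, fun t => w t * A t, fun t => w t * B t, fun t => w t * C t,
      hw.mul hA, hw.mul hB, hw.mul hC, ?_⟩
    filter_upwards [h, self_mem_nhdsWithin] with t h1 h2
    rw [pow_add]
    linear_combination w t * h1 + t ^ K * F t⁻¹ * hw' t h2

theorem Cls.one : Cls fun _ => 1 := by
  constructor
  · intro ξ
    exact ⟨fun _ => 0, fun _ => 0, fun _ => 1, analyticAt_const, analyticAt_const,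
      analyticAt_const, Eventually.of_forall fun t => by ring⟩
  · exact ⟨0, fun _ => 0, fun _ => 0, fun _ => 1, analyticAt_const, analyticAt_const,
      analyticAt_const, Eventually.of_forall fun t => by ring⟩

theorem Cls.sum {ι : Type} (s : Finset ι) {F : ι → ℝ → ℝ} (hF : ∀ k, Cls (F k)) :
    Cls fun x => ∑ k ∈ s, F k x := by
  classical
  induction s using Finset.induction_on with
  | empty =>
    have h := Cls.one.polyMul 0
    simpa using h
  | insert a s ha ih =>
    have h := (hF a).add ih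
    simpa only [Finset.sum_insert ha] using h

theorem Cls.zero_on {F : ℝ → ℝ} (hF : Cls F) {x : ℝ} (hc : ContinuousAt F x)
    (hinf : {x | F x = 0}.Infinite) : F x = 0 := by
  have h1 := hF.ident.resolve_left hinf
  by_contra h2
  exact infinite_of_mem_nhds x (hc.eventually_ne h2) h1

theorem cls_fn {P Q : ℝ[X]} (hP : P ≠ 0) (hQ : Q ≠ 0) (q : ℝ[X]) : Cls (fn P Q q) := by
  have h := cls_lin (P := fun _ _ => P) (Q := fun _ _ => Q) (q := fun _ _ => q)
    (fun _ _ => hP) (fun _ _ => hQ) 0 0 0 0 1 0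
  simpa using h

section app

variable (P Q q : Fin 2 → Fin 2 → ℝ[X])

/-- The product of all the polynomials. -/
def EE : ℝ[X] := ∏ k : Fin 2 × Fin 2, P k.1 k.2 * Q k.1 k.2

/-- The product of all the polynomials for the other indices. -/
def Er (k : Fin 2 × Fin 2) : ℝ[X] := ∏ l ∈ Finset.univ.erase k, P l.1 l.2 * Q l.1 l.2

/-- The numerator of the derivative. -/
def AA (k : Fin 2 × Fin 2) : ℝ[X] :=
  Er P Q k * ((P k.1 k.2).derivative * Q k.1 k.2 - P k.1 k.2 * (Q k.1 k.2).derivative) +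
    EE P Q * (q k.1 k.2).derivative

/-- The functions. -/
def ff (k : Fin 2 × Fin 2) : ℝ → ℝ := fn (P k.1 k.2) (Q k.1 k.2) (q k.1 k.2)

theorem EE_eq (k : Fin 2 × Fin 2) : EE P Q = P k.1 k.2 * Q k.1 k.2 * Er P Q k := by
  unfold EE Er
  exact (Finset.mul_prod_erase _ _ (Finset.mem_univ k)).symm

theorem EE_iff {x : ℝ} :
    (EE P Q).eval x ≠ 0 ↔ ∀ i j, (P i j).eval x ≠ 0 ∧ (Q i j).eval x ≠ 0 := by
  unfold EE
  rw [Polynomial.eval_prod, Finset.prod_ne_zero_iff]
  constructor
  · intro h i j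
    have h1 := h (i, j) (Finset.mem_univ _)
    rw [eval_mul] at h1
    exact ⟨left_ne_zero_of_mul h1, right_ne_zero_of_mul h1⟩
  · intro h k _
    rw [eval_mul]
    exact mul_ne_zero (h k.1 k.2).1 (h k.1 k.2).2

theorem deriv_ff (k : Fin 2 × Fin 2) (x : ℝ) (hx : (EE P Q).eval x ≠ 0) :
    HasDerivAt (ff P Q q k) ((AA P Q q k).eval x / (EE P Q).eval x) x := by
  obtain ⟨h1, h2⟩ := (EE_iff P Q).mp hx k.1 k.2
  have h3 : HasDerivAt (fun x => (P k.1 k.2).eval x / (Q k.1 k.2).eval x)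
      (((P k.1 k.2).derivative.eval x * (Q k.1 k.2).eval x -
        (P k.1 k.2).eval x * (Q k.1 k.2).derivative.eval x) / (Q k.1 k.2).eval x ^ 2) x :=
    ((P k.1 k.2).hasDerivAt x).div ((Q k.1 k.2).hasDerivAt x) h2
  have h4 := (h3.log (div_ne_zero h1 h2)).add ((q k.1 k.2).hasDerivAt x)
  have h5 : ff P Q q k = fun x => Real.log ((P k.1 k.2).eval x / (Q k.1 k.2).eval x) +
      (q k.1 k.2).eval x := by
    funext x
    unfold ff fn
    rw [Real.log_abs]
  rw [h5]
  refine h4.congr_deriv ?_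
  have h6 := congrArg (fun R => R.eval x) (EE_eq P Q k)
  simp only [eval_mul] at h6
  have h7 : (Er P Q k).eval x ≠ 0 := by
    intro h
    apply hx
    rw [h6, h, mul_zero]
  unfold AA
  simp only [eval_add, eval_mul, eval_sub]
  rw [h6]
  field_simp

theorem deg_EE {d : ℕ} (hP : ∀ i j, (P i j).natDegree ≤ d) (hQ : ∀ i j, (Q i j).natDegree ≤ d) :
    (EE P Q).natDegree ≤ 8 * d := by
  unfold EE
  refine (natDegree_prod_le _ _).trans ?_
  refine (Finset.sum_le_card_nsmul _ _ (2 * d) fun k _ => ?_).trans ?_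
  · have h1 := hP k.1 k.2
    have h2 := hQ k.1 k.2
    exact natDegree_mul_le.trans (by omega)
  · simp only [Finset.card_univ, Fintype.card_prod, Fintype.card_fin, smul_eq_mul]
    omega

theorem deg_Er {d : ℕ} (hP : ∀ i j, (P i j).natDegree ≤ d) (hQ : ∀ i j, (Q i j).natDegree ≤ d)
    (k : Fin 2 × Fin 2) : (Er P Q k).natDegree ≤ 6 * d := by
  unfold Er
  refine (natDegree_prod_le _ _).trans ?_
  refine (Finset.sum_le_card_nsmul _ _ (2 * d) fun k _ => ?_).trans ?_
  · have h1 := hP k.1 k.2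
    have h2 := hQ k.1 k.2
    exact natDegree_mul_le.trans (by omega)
  · rw [Finset.card_erase_of_mem (Finset.mem_univ k)]
    simp only [Finset.card_univ, Fintype.card_prod, Fintype.card_fin, smul_eq_mul]
    omega

theorem deg_AA {d : ℕ} (hP : ∀ i j, (P i j).natDegree ≤ d) (hQ : ∀ i j, (Q i j).natDegree ≤ d)
    (hq : ∀ i j, (q i j).natDegree ≤ d) (k : Fin 2 × Fin 2) : (AA P Q q k).natDegree ≤ 9 * d := by
  have h1 := deg_EE P Q hP hQ
  have h2 := deg_Er P Q hP hQ k
  have h3 := hP k.1 k.2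
  have h4 := hQ k.1 k.2
  have h5 := hq k.1 k.2
  have h6 := natDegree_derivative_le (P k.1 k.2)
  have h7 := natDegree_derivative_le (Q k.1 k.2)
  have h8 := natDegree_derivative_le (q k.1 k.2)
  unfold AA
  refine (natDegree_add_le _ _).trans (max_le ?_ ?_)
  · refine natDegree_mul_le.trans ?_
    have h9 : ((P k.1 k.2).derivative * Q k.1 k.2 - P k.1 k.2 * (Q k.1 k.2).derivative).natDegree ≤
        2 * d := by
      refine (natDegree_sub_le _ _).trans (max_le ?_ ?_)
      · exact natDegree_mul_le.trans (by omega)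
      · exact natDegree_mul_le.trans (by omega)
    omega
  · exact natDegree_mul_le.trans (by omega)

end app

section main

variable {P Q q : Fin 2 → Fin 2 → ℝ[X]} (hP : ∀ i j, P i j ≠ 0) (hQ : ∀ i j, Q i j ≠ 0)

include hP hQ

theorem EE_ne : EE P Q ≠ 0 := by
  unfold EE
  exact Finset.prod_ne_zero_iff.mpr fun k _ => mul_ne_zero (hP _ _) (hQ _ _)

theorem cls_G (c₀ : ℝ[X]) (c : Fin 2 × Fin 2 → ℝ[X]) : Cls (G (ff P Q q) c₀ c) := by
  have h1 := (Cls.one.polyMul c₀).add (Cls.sum Finset.univ fun k : Fin 2 × Fin 2 =>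
    (cls_fn (hP k.1 k.2) (hQ k.1 k.2) (q k.1 k.2)).polyMul (c k))
  have h2 : Cls fun x => c₀.eval x + ∑ k, (c k).eval x *
      fn (P k.1 k.2) (Q k.1 k.2) (q k.1 k.2) x := by simpa using h1
  exact h2

theorem ident_G (c₀ : ℝ[X]) (c : Fin 2 × Fin 2 → ℝ[X])
    (h : {x | (EE P Q).eval x ≠ 0 ∧ G (ff P Q q) c₀ c x = 0}.Infinite) (x : ℝ)
    (hx : (EE P Q).eval x ≠ 0) : G (ff P Q q) c₀ c x = 0 :=
  (cls_G hP hQ c₀ c).zero_on (deriv_G (deriv_ff P Q q) c₀ c hx).continuousAt
    (h.mono fun _ hy => hy.2)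

/-- The determinant. -/
theorem deriv_det {x : ℝ} (hx : (EE P Q).eval x ≠ 0) :
    HasDerivAt (fun x => ff P Q q (0, 0) x * ff P Q q (1, 1) x -
      ff P Q q (0, 1) x * ff P Q q (1, 0) x)
      (G (ff P Q q) 0 (fun k => if k = (0, 0) then AA P Q q (1, 1) else
        if k = (1, 1) then AA P Q q (0, 0) else if k = (0, 1) then -AA P Q q (1, 0) else
          -AA P Q q (0, 1)) x / (EE P Q).eval x) x := by
  have h := ((deriv_ff P Q q (0, 0) x hx).mul (deriv_ff P Q q (1, 1) x hx)).sub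
    ((deriv_ff P Q q (0, 1) x hx).mul (deriv_ff P Q q (1, 0) x hx))
  refine h.congr_deriv ?_
  unfold G
  rw [Fintype.sum_prod_type, Fin.sum_univ_two, Fin.sum_univ_two, Fin.sum_univ_two]
  simp
  field_simp
  ring

theorem det_zeros {d : ℕ} (hPd : ∀ i j, (P i j).natDegree ≤ d)
    (hQd : ∀ i j, (Q i j).natDegree ≤ d) (hqd : ∀ i j, (q i j).natDegree ≤ d) :
    (∀ x, (EE P Q).eval x ≠ 0 → ff P Q q (0, 0) x * ff P Q q (1, 1) x -
      ff P Q q (0, 1) x * ff P Q q (1, 0) x = 0) ∨
    ∀ T : Finset ℝ, (∀ x ∈ T, (EE P Q).eval x ≠ 0 ∧ ff P Q q (0, 0) x * ff P Q q (1, 1) x -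
      ff P Q q (0, 1) x * ff P Q q (1, 0) x = 0) → T.card ≤ 792 * d + 5 := by
  classical
  have hdeg := deg_AA P Q q hPd hQd hqd
  have hE := (deg_EE P Q hPd hQd).trans (show 8 * d ≤ 9 * d by omega)
  have hcls : Cls fun x => ff P Q q (0, 0) x * ff P Q q (1, 1) x -
      ff P Q q (0, 1) x * ff P Q q (1, 0) x := cls_det (q := q) hP hQ
  rcases count (deriv_ff P Q q) (EE_ne hP hQ) hE hdeg (ident_G hP hQ) Finset.univ 0
    (fun k => if k = (0, 0) then AA P Q q (1, 1) else
        if k = (1, 1) then AA P Q q (0, 0) else if k = (0, 1) then -AA P Q q (1, 0) else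
          -AA P Q q (0, 1)) (9 * d) (by simp) (fun k => by
      split_ifs
      · exact hdeg _
      · exact hdeg _
      · rw [natDegree_neg]; exact hdeg _
      · rw [natDegree_neg]; exact hdeg _) (fun k hk => absurd (Finset.mem_univ k) hk) with h | h
  · by_cases hz : ∃ x, (EE P Q).eval x ≠ 0 ∧ ff P Q q (0, 0) x * ff P Q q (1, 1) x -
        ff P Q q (0, 1) x * ff P Q q (1, 0) x = 0
    · left
      obtain ⟨x₀, h1, h2⟩ := hz
      intro x hx
      refine hcls.zero_on (deriv_det hP hQ hx).continuousAt (infinite_of_mem_nhds x₀ ?_)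
      refine zero_near (V := {x | (EE P Q).eval x ≠ 0})
        (isOpen_ne_fun (EE P Q).continuous continuous_const) h1 (fun y hy => ?_) h2
      have h3 := deriv_det (q := q) hP hQ hy
      rwa [h y hy, zero_div] at h3
    · right
      intro T hT
      rcases T.eq_empty_or_nonempty with rfl | ⟨x, hx⟩
      · simp
      · exact absurd ⟨x, hT x hx⟩ hz
  · right
    intro T hT
    obtain ⟨W, h1, h2⟩ := gap (p := fun z => ((EE P Q).eval z ≠ 0 ∧
        G (ff P Q q) 0 (fun k => if k = (0, 0) then AA P Q q (1, 1) else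
        if k = (1, 1) then AA P Q q (0, 0) else if k = (0, 1) then -AA P Q q (1, 0) else
          -AA P Q q (0, 1)) z = 0) ∨ (EE P Q).eval z = 0) T (by
      intro x hx y hy hxy
      by_cases hgap : ∃ z, x < z ∧ z < y ∧ (EE P Q).eval z = 0
      · obtain ⟨z, h4, h5, h6⟩ := hgap
        exact ⟨z, h4, h5, Or.inr h6⟩
      have hall : ∀ z ∈ Set.Icc x y, (EE P Q).eval z ≠ 0 := by
        intro z hz
        rcases eq_or_lt_of_le hz.1 with rfl | h4
        · exact (hT _ hx).1
        rcases eq_or_lt_of_le hz.2 with rfl | h5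
        · exact (hT _ hy).1
        exact fun h6 => hgap ⟨z, h4, h5, h6⟩
      obtain ⟨z, hz, h4⟩ := exists_deriv_eq_zero (f := fun x => ff P Q q (0, 0) x *
        ff P Q q (1, 1) x - ff P Q q (0, 1) x * ff P Q q (1, 0) x) hxy
        (fun z hz => (deriv_det hP hQ (hall z hz)).continuousAt.continuousWithinAt)
        (by rw [(hT x hx).2, (hT y hy).2])
      have h5 := hall z ⟨hz.1.le, hz.2.le⟩
      rw [(deriv_det hP hQ h5).deriv] at h4
      exact ⟨z, hz.1, hz.2, Or.inl ⟨h5, (div_eq_zero_iff.mp h4).resolve_right h5⟩⟩)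
    have h3 : W.card ≤ N (9 * d) 4 (9 * d) + 9 * d := by
      have hW : W ⊆ (W.filter fun z => (EE P Q).eval z ≠ 0 ∧
        G (ff P Q q) 0 (fun k => if k = (0, 0) then AA P Q q (1, 1) else
        if k = (1, 1) then AA P Q q (0, 0) else if k = (0, 1) then -AA P Q q (1, 0) else
          -AA P Q q (0, 1)) z = 0) ∪ (W.filter fun z => (EE P Q).eval z = 0) := by
        intro w hw
        rcases (h1 w hw).1 with h5 | h5
        · exact Finset.mem_union_left _ (Finset.mem_filter.mpr ⟨hw, h5⟩)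
        · exact Finset.mem_union_right _ (Finset.mem_filter.mpr ⟨hw, h5⟩)
      have h5 := (Finset.card_le_card hW).trans (Finset.card_union_le _ _)
      have h6 := h (W.filter fun z => (EE P Q).eval z ≠ 0 ∧
        G (ff P Q q) 0 (fun k => if k = (0, 0) then AA P Q q (1, 1) else
        if k = (1, 1) then AA P Q q (0, 0) else if k = (0, 1) then -AA P Q q (1, 0) else
          -AA P Q q (0, 1)) z = 0) fun x hx => (Finset.mem_filter.mp hx).2
      have h8 : (W.filter fun z => (EE P Q).eval z = 0).card ≤ 9 * d :=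
        (card_le_degree (EE_ne hP hQ) fun w hw => (Finset.mem_filter.mp hw).2).trans hE
      have h9 : (Finset.univ : Finset (Fin 2 × Fin 2)).card = 4 := rfl
      rw [h9] at h6
      omega
    simp only [N] at h3
    omega

end main

end Pool.Agent.H9.FE
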